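import Mathlib.Data.Complex.Basic
import Mathlib.AlgebraicGeometry.OrderOfVanishing
import Mathlib.RingTheory.SimpleRing.Principal
import Pool.Agent.MP_fd6584_ag.h70.Pj.Defs

/-! Chow groups of surfaces on a scheme, and generic genus one fibred K3 surfaces. -/

namespace Pool.Agent.MP_b834b3_ag

open AlgebraicGeometry CategoryTheory

/-- The cycle `c` is the divisor of a nonzero rational function on a closed subvariety of
dimension three. A point of `Y` stands for the subvariety of which it is the generic point. -/
def IsPrincipal (Y : Scheme.{0}) (c : Y →₀ ℚ) : Prop :=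
  ∃ (W : Scheme.{0}) (_ : IsIntegral W) (_ : IsLocallyNoetherian W) (i : W ⟶ Y)
    (φ : W.functionField), IsClosedImmersion i ∧ topologicalKrullDim W = 3 ∧ φ ≠ 0 ∧
      (∀ z : W, c (i z) = W.ord φ z) ∧ ∀ y : Y, y ∉ Set.range i → c y = 0

/-- Cycles of dimension two with rational coefficients. -/
noncomputable def Z2 (Y : Scheme.{0}) : Submodule ℚ (Y →₀ ℚ) :=
  Finsupp.supported ℚ ℚ {z : Y | Order.height z = 2}

/-- The Chow group of cycles of dimension two with rational coefficients. -/
abbrev CH2 (Y : Scheme.{0}) : Type :=
  Z2 Y ⧸ (Submodule.span ℚ {c | IsPrincipal Y c}).comap (Z2 Y).subtype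

/-- The exponents `(l, i, j)` of the monomials `t ^ l * x ^ i * y ^ j` of the anticanonical
system. -/
def Mon (a b w : ℕ) : Finset (ℕ × ℕ × ℕ) :=
  (Finset.range (a + b + 3) ×ˢ Finset.range (w + 3) ×ˢ Finset.range (w + 3)).filter fun m =>
    m.2.1 + w * m.2.2 ≤ w + 2 ∧ m.1 + a * m.2.1 + b * m.2.2 ≤ a + b + 2

/-- The field of rational functions in the variables `ι`. -/
def RatFun (ι : Type) : Type := FractionRing (MvPolynomial ι ℂ)

noncomputable instance RatFun.field (ι : Type) : Field (RatFun ι) :=
  FractionRing.field (MvPolynomial ι ℂ)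

/-- A variable as a rational function. -/
noncomputable def RatFun.var {ι : Type} (i : ι) : RatFun ι :=
  algebraMap (MvPolynomial ι ℂ) (FractionRing (MvPolynomial ι ℂ)) (MvPolynomial.X i)

/-- The function field of the space of coefficients. -/
abbrev Par (a b w : ℕ) : Type := RatFun (Mon a b w)

/-- The generic coefficient. -/
noncomputable def coef {a b w : ℕ} (m : Mon a b w) : Par a b w := RatFun.var m

/-- The three standard charts of the weighted projective plane with weights `1, 1, w` over the
affine `t`-line. -/
noncomputable def fibreChart (K : Type) {L : Type} [Field K] [Field L] [Algebra K L] (w : ℕ)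
    (t x y : L) : Fin 3 → Subalgebra K L :=
  ![Algebra.adjoin K {t, x, y}, Algebra.adjoin K {t, x⁻¹, y / x ^ w},
    Algebra.adjoin K {t, x / y, x ^ w / y, y⁻¹}]

/-- The six standard charts of the bundle of weighted projective planes over the projective
`t`-line. -/
noncomputable def chart (K : Type) {L : Type} [Field K] [Field L] [Algebra K L] (a b w : ℕ)
    (t x y : L) (c : Bool × Fin 3) : Subalgebra K L :=
  if c.1 then fibreChart K w t⁻¹ (x / t ^ a) (y / t ^ b) c.2 else fibreChart K w t x y c.2

/-- The generic point of the spectrum of a subalgebra of a field. -/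
noncomputable def genPt {K L : Type} [Field K] [Field L] [Algebra K L] (A : Subalgebra K L) :
    Spec (CommRingCat.of L) ⟶ Spec (CommRingCat.of A) :=
  Spec.map (CommRingCat.ofHom A.val.toRingHom)

/-- The structure map of the spectrum of a subalgebra. -/
noncomputable def strMap {K L : Type} [Field K] [Field L] [Algebra K L] (A : Subalgebra K L) :
    Spec (CommRingCat.of A) ⟶ Spec (CommRingCat.of K) :=
  Spec.map (CommRingCat.ofHom (algebraMap K A))

/-- `X` is covered by the spectra of the subalgebras `A c` of the field `L`, as open subschemes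
over `K` that have the same generic point `Spec L`. -/
def IsGlued {K L ι : Type} [Field K] [Field L] [Algebra K L] (A : ι → Subalgebra K L)
    {X : Scheme.{0}} (s : X ⟶ Spec (CommRingCat.of K)) : Prop :=
  ∃ j : ∀ c, Spec (CommRingCat.of (A c)) ⟶ X,
    (∀ c, IsOpenImmersion (j c)) ∧ (∀ p : X, ∃ c q, j c q = p) ∧
    (∀ c, j c ≫ s = strMap (A c)) ∧ ∀ c c', genPt (A c) ≫ j c = genPt (A c') ≫ j c'

/-- `L` is the function field of the generic equation, with coordinates `t, x, y`. -/
def IsGenField (a b w : ℕ) {L : Type} [Field L] [Algebra (Par a b w) L] (t x y : L) : Prop :=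
  AlgebraicIndependent (Par a b w) ![t, x] ∧
    IntermediateField.adjoin (Par a b w) {t, x, y} = ⊤ ∧
    ∑ m : Mon a b w, coef m • (t ^ m.1.1 * x ^ m.1.2.1 * y ^ m.1.2.2) = 0

/-- `X` is the generic anticanonical surface in the bundle: it is separated and glued from the
six charts inside the function field of the generic equation. -/
def IsGeneric (a b w : ℕ) {X : Scheme.{0}} (s : X ⟶ Spec (CommRingCat.of (Par a b w))) : Prop :=
  IsSeparated s ∧ ∃ (L : Type) (_ : Field L) (_ : Algebra (Par a b w) L) (t x y : L),
    IsGenField a b w t x y ∧ IsGlued (chart (Par a b w) a b w t x y) s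

end Pool.Agent.MP_b834b3_ag
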