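import Mathlib.Tactic.Monotonicity.Lemmas
import Mathlib.Data.Int.ConditionallyCompleteOrder
import Mathlib.Data.Int.Star
import Mathlib.Algebra.Order.Ring.Star
import Mathlib.RingTheory.PicardGroup
import Mathlib.AlgebraicGeometry.Morphisms.Proper
import Mathlib.RingTheory.IntegralClosure.GoingDown
import Mathlib.AlgebraicGeometry.Modules.Sheaf
import Mathlib.Order.CompletePartialOrder
import Mathlib.RingTheory.TotallySplit
import Mathlib.RingTheory.Henselian
import Mathlib.RingTheory.MvPolynomial.IrreducibleQuadratic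
import Mathlib.RingTheory.NoetherNormalization
import Mathlib.RingTheory.RegularLocalRing.Defs
import Mathlib.Tactic.Polynomial.Basic
import Pool.Agent.MP_b834b3_ag.Defs

-- ======== part 0: formerly Pool.Agent.MP_b834b3_ag.Dim
section MrgPart0

/-! Dimension theory of schemes of finite type over a field (adapted from the modules on the
decomposition of the diagonal of another problem folder). -/

namespace Pool.Agent.MP_b834b3_ag

open AlgebraicGeometry CategoryTheory MvPolynomial Algebra IsLocalRing Limits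

section Alg

variable {k : Type} [Field k]

theorem trdeg_quot_lt {R : Type} [CommRing R] [IsDomain R] [Algebra k R] {n : ℕ}
    (hR : trdeg k R = n) (p : Ideal R) [p.IsPrime] {h : R} (hp : h ∈ p) (h0 : h ≠ 0) :
    trdeg k (R ⧸ p) < n := by
  by_contra hc
  obtain ⟨s, hs⟩ := exists_isTranscendenceBasis k (R ⧸ p)
  rw [← hs.cardinalMk_eq_trdeg, not_lt, ← Cardinal.mk_fin] at hc
  obtain ⟨e⟩ := Cardinal.le_def _ _ |>.1 hc
  have h2 : AlgebraicIndependent k fun i => (e i : R ⧸ p) := hs.1.comp e e.injective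
  choose g hg using fun i => Ideal.Quotient.mk_surjective (I := p) (e i : R ⧸ p)
  have e1 : (Ideal.Quotient.mkₐ k p) ∘ g = fun i => (e i : R ⧸ p) := funext hg
  rw [← e1] at h2
  have h3 : AlgebraicIndependent k g := AlgebraicIndependent.of_comp _ h2
  have h4 : IsAlgebraic (Algebra.adjoin k (Set.range g)) h := by
    by_contra ht
    have := ((h3.option_iff_transcendental h).2 ht).cardinalMk_le_trdeg.trans hR.le
    rw [Cardinal.mk_fintype, Fintype.card_option, Fintype.card_fin, Nat.cast_le] at this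
    omega
  obtain ⟨⟨b, hb⟩, b0, hd⟩ := h4.exists_nonzero_dvd (mem_nonZeroDivisors_of_ne_zero h0)
  have hbp : b ∈ p := p.mem_of_dvd hd hp
  rw [Algebra.adjoin_range_eq_range_aeval] at hb
  obtain ⟨Q, rfl⟩ := hb
  have h5 : MvPolynomial.aeval ((Ideal.Quotient.mkₐ k p) ∘ g) Q = 0 := by
    have := MvPolynomial.comp_aeval_apply g (Ideal.Quotient.mkₐ k p) Q
    exact this.symm.trans (Ideal.Quotient.eq_zero_iff_mem.2 hbp)
  have h6 := algebraicIndependent_iff.1 h2 Q h5
  exact b0 (Subtype.ext (by simp [h6]))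

theorem height_one {A : Type} [CommRing A] [IsDomain A] [Algebra k A] [FiniteType k A]
    (p : Ideal A) [p.IsPrime] (hp : p.height = 1) : trdeg k (A ⧸ p) + 1 = trdeg k A := by
  obtain ⟨s, g, hg, hi⟩ := exists_integral_inj_algHom_of_fg k A
  let _ := g.toRingHom.toAlgebra
  have : IsScalarTower k (MvPolynomial (Fin s) k) A := .of_algebraMap_eq fun c => (g.commutes c).symm
  have : Algebra.IsIntegral (MvPolynomial (Fin s) k) A := ⟨hi⟩
  have : FaithfulSMul (MvPolynomial (Fin s) k) A := (faithfulSMul_iff_algebraMap_injective _ _).2 hg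
  have : IsNoetherianRing A := Algebra.FiniteType.isNoetherianRing k A
  have hA : trdeg k A = s := by
    rw [← trdeg_add_eq k (MvPolynomial (Fin s) k) (A := A), trdeg_eq_zero (A := A), add_zero,
      MvPolynomial.trdeg_of_isDomain, Cardinal.lift_id, Cardinal.mk_fin]
  obtain ⟨f, hf, f0⟩ := Submodule.exists_mem_ne_zero_of_ne_bot (p.ne_bot_of_height_eq_one hp)
  let q := p.under (MvPolynomial (Fin s) k)
  have q0 : q ≠ ⊥ := Ideal.comap_ne_bot_of_integral_mem f0 hf (hi f)
  have q1 : q.height = 1 := le_antisymm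
    (hp ▸ (Ideal.height_eq_height_add_of_liesOver_of_hasGoingDown q p).ge.trans' le_self_add)
    (by simpa [Order.one_le_iff_ne_zero])
  obtain ⟨π, hπ, hp'⟩ := Ideal.IsPrime.exists_mem_prime_of_ne_bot (I := q) inferInstance q0
  have e := q.eq_span_singleton_of_height_eq_one q1 hπ hp'
  obtain ⟨i, hi0⟩ : ∃ i, π.degreeOf i ≠ 0 := by
    by_contra hc
    push Not at hc
    have h1 : π = C (π.coeff 0) := by
      refine totalDegree_eq_zero_iff_eq_C.1 ((totalDegree_eq_zero_iff _ _).2 fun m hm j => ?_)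
      exact Nat.eq_zero_of_le_zero (hc j ▸ monomial_le_degreeOf j hm)
    refine hp'.not_isUnit (h1 ▸ (IsUnit.mk0 _ fun h0 => hp'.ne_zero ?_).map C)
    rw [h1, h0, map_zero]
  obtain ⟨n, rfl⟩ : ∃ n, s = n + 1 := ⟨s - 1, by have := i.pos; omega⟩
  have h2 : AlgebraicIndependent k fun j : Fin n =>
      Ideal.Quotient.mkₐ k p (g (X (i.succAbove j))) := by
    rw [algebraicIndependent_iff]
    intro Q hQ
    by_contra h0
    have h3 : rename i.succAbove Q ∈ q := by
      rw [Ideal.mem_comap, ← Ideal.Quotient.eq_zero_iff_mem, ← hQ]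
      exact AlgHom.congr_fun (algHom_ext (f := ((Ideal.Quotient.mkₐ k p).comp g).comp
        (rename i.succAbove)) fun j => by simp) Q
    obtain ⟨r, hr⟩ := Ideal.mem_span_singleton.1 (e ▸ h3)
    have h4 : rename i.succAbove Q ≠ 0 := fun h =>
      h0 (rename_injective _ Fin.succAbove_right_injective (h.trans (map_zero _).symm))
    have h5 : (rename i.succAbove Q).degreeOf i = 0 := by
      by_contra h6
      obtain ⟨j, -, hj⟩ := mem_vars_rename _ _ (mem_vars_iff_degreeOf_ne_zero.2 h6)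
      exact Fin.succAbove_ne i j hj
    rw [hr, degreeOf_mul_eq hp'.ne_zero (right_ne_zero_of_mul (hr ▸ h4))] at h5
    omega
  have h6 := h2.cardinalMk_le_trdeg
  have h7 := trdeg_quot_lt hA p hf f0
  rw [Cardinal.mk_fin] at h6
  rw [Nat.cast_succ, ← Cardinal.succ_natCast, Order.lt_succ_iff] at h7
  rw [hA, le_antisymm h7 h6, Nat.cast_succ]

theorem krull {A : Type} [CommRing A] [IsDomain A] [Algebra k A] [FiniteType k A] {f : A}
    (hf : f ≠ 0) {p : Ideal A} (hp : p ∈ (Ideal.span {f}).minimalPrimes) :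
    trdeg k (A ⧸ p) + 1 = trdeg k A := by
  have : IsNoetherianRing A := Algebra.FiniteType.isNoetherianRing k A
  have := hp.isPrime
  have h0 : p ≠ ⊥ := fun e => hf (Ideal.span_singleton_eq_bot.1 (bot_unique (hp.le.trans_eq e)))
  exact height_one p (le_antisymm (Ideal.height_le_one_of_isPrincipal_of_mem_minimalPrimes _ p hp)
    (by simpa [Order.one_le_iff_ne_zero]))

variable {R : Type} [CommRing R] [Algebra k R]

theorem trdeg_lt {q p : Ideal R} [q.IsPrime] [p.IsPrime] (h : q < p) {n : ℕ}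
    (hn : trdeg k (R ⧸ q) = n) : trdeg k (R ⧸ p) < n := by
  obtain ⟨f, h1, h2⟩ := SetLike.exists_of_lt h
  have : (p.map (Ideal.Quotient.mkₐ k q)).IsPrime :=
    Ideal.map_isPrime_of_surjective (Ideal.Quotient.mk_surjective (I := q)) (I := p)
      (by rw [Ideal.mk_ker]; exact h.le)
  rw [← (DoubleQuot.quotQuotEquivQuotOfLEₐ k h.le).trdeg_eq]
  exact trdeg_quot_lt hn _ (Ideal.mem_map_of_mem _ h1)
    fun e => h2 (Ideal.Quotient.eq_zero_iff_mem.1 e)

theorem exists_gt [FiniteType k R] (q : Ideal R) [q.IsPrime] (h : trdeg k (R ⧸ q) ≠ 0) :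
    ∃ p : Ideal R, p.IsPrime ∧ q < p ∧ trdeg k (R ⧸ p) + 1 = trdeg k (R ⧸ q) := by
  have h1 : ¬ IsField (R ⧸ q) := fun e => by
    let _ := e.toField
    have := finite_of_finite_type_of_isJacobsonRing k (R ⧸ q)
    exact h trdeg_eq_zero
  obtain ⟨f, f0, hf⟩ := Ring.exists_not_isUnit_of_not_isField h1
  obtain ⟨P, hP⟩ := Ideal.nonempty_minimalPrimes (I := Ideal.span {f})
    (mt Ideal.span_singleton_eq_top.1 hf)
  have := hP.isPrime
  have h2 : q ≤ P.comap (Ideal.Quotient.mk q) := fun x hx => by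
    rw [Ideal.mem_comap, Ideal.Quotient.eq_zero_iff_mem.2 hx]; exact P.zero_mem
  refine ⟨P.comap (Ideal.Quotient.mk q), Ideal.comap_isPrime _ _, lt_of_le_of_ne h2 fun e => ?_, ?_⟩
  · obtain ⟨f, rfl⟩ := Ideal.Quotient.mk_surjective f
    exact f0 (Ideal.Quotient.eq_zero_iff_mem.2 (e.ge (hP.le (Ideal.mem_span_singleton_self _))))
  · rw [← krull (k := k) f0 hP, ← (DoubleQuot.quotQuotEquivQuotOfLEₐ k h2).trdeg_eq]
    exact congrArg (fun I : Ideal (R ⧸ q) => trdeg k ((R ⧸ q) ⧸ I) + 1)
      (Ideal.map_comap_of_surjective _ Ideal.Quotient.mk_surjective P)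

theorem trdeg_frac (A Ω : Type) [CommRing A] [IsDomain A] [Algebra k A] [Field Ω] [Algebra A Ω]
    [IsFractionRing A Ω] [Algebra k Ω] [IsScalarTower k A Ω] : trdeg k Ω = trdeg k A := by
  have := IsLocalization.isAlgebraic Ω (nonZeroDivisors A)
  rw [← trdeg_add_eq k A (A := Ω), trdeg_eq_zero (A := Ω), add_zero]

end Alg

theorem height_closed {W Y : Scheme.{0}} (i : W ⟶ Y) [IsClosedImmersion i] (w : W) :
    Order.height (i w) = Order.height w := by
  have hi := i.isClosedEmbedding
  have h : ∀ a b : W, i a ≤ i b ↔ a ≤ b := fun a b => hi.isInducing.specializes_iff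
  refine (Order.height_eq_of_strictMono i (fun a b e => ?_) (fun a b e => ?_) w).symm
  · exact lt_of_le_not_ge ((h a b).2 e.le) fun c => e.not_ge ((h b a).1 c)
  · obtain ⟨c, rfl⟩ := Specializes.mem_closed e.le hi.isClosed_range ⟨a, rfl⟩
    exact ⟨c, lt_of_le_not_ge ((h c a).1 e.le) fun c' => e.not_ge ((h a c).2 c'), rfl⟩

theorem ord_finite (W : Scheme.{0}) [IsIntegral W] [IsNoetherian W] (φ : W.functionField) :
    {w : W | W.ord φ w ≠ 0}.Finite := by
  rcases eq_or_ne φ 0 with rfl | h0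
  · simp
  obtain ⟨U, hU, f, rfl⟩ := W.presheaf.exists_germ_eq φ
  have h1 : genericPoint W ∈ W.basicOpen f := (W.mem_basicOpen f _ hU).2 (Ne.isUnit h0)
  obtain ⟨S, h2, h3, h4, h5⟩ := TopologicalSpace.NoetherianSpace.exists_finite_set_isClosed_irreducible
    (W.basicOpen f).isOpen.isClosed_compl
  have := h2.to_subtype
  refine (Set.finite_range fun C : S => (h4 C C.2).genericPoint).subset fun w hw => ?_
  have : Nonempty (W.basicOpen f) := ⟨⟨_, h1⟩⟩
  have h6 : w ∉ W.basicOpen f := fun e => hw (by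
    have := Scheme.ord_of_isUnit (U := W.basicOpen f) (W.toRingedSpace.isUnit_res_basicOpen f) e
    exact (congrArg (W.ord · w) (W.presheaf.germ_res_apply (homOfLE (W.basicOpen_le f)) _ h1
      f)).symm.trans this)
  have h7 : Order.coheight w = 1 := not_not.1 fun e => hw (Scheme.ord_eq_zero_of_coheight_neq_one e _)
  obtain ⟨C, hC, hw'⟩ := h5.le h6
  have h8 := (h4 C hC).isGenericPoint_genericPoint (h3 C hC)
  refine ⟨⟨C, hC⟩, by_contra fun e => ?_⟩
  have a1 : w < (h4 C hC).genericPoint := lt_of_le_not_ge (h8.specializes hw')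
    fun c => e (Specializes.antisymm (h8.specializes hw') c).eq
  have a2 : (h4 C hC).genericPoint < (⊤ : W) := lt_of_le_not_ge le_top fun c =>
    h5.ge ⟨C, hC, h8.mem⟩ (Specializes.mem_open c (W.basicOpen f).isOpen h1)
  have a3 := Order.coheight_add_one_le a1
  have a4 := Order.coheight_add_one_le a2
  rw [h7] at a3
  exact absurd ((add_le_add_left (le_add_self.trans a4) 1).trans a3) (by decide)

section Sch

variable {k : Type} [Field k] {W : Scheme.{0}} (t : W ⟶ Spec (CommRingCat.of k))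

/-- The transcendence degree of the residue field. -/
noncomputable def dl (w : W) : Cardinal :=
  letI := (Spec.preimage (W.fromSpecResidueField w ≫ t)).hom.toAlgebra
  trdeg k (W.residueField w)

theorem dl_eq {w : W} {K : Type} [Field K] [Algebra k K] (φ : W.residueField w ⟶ .of K)
    (hφ : Function.Surjective φ) (h : Spec.map φ ≫ W.fromSpecResidueField w ≫ t =
      Spec.map (CommRingCat.ofHom (algebraMap k K))) : dl t w = trdeg k K := by
  let _ := (Spec.preimage (W.fromSpecResidueField w ≫ t)).hom.toAlgebra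
  rw [← Spec.map_preimage (W.fromSpecResidueField w ≫ t), ← Spec.map_comp, Spec.map_inj] at h
  exact (AlgEquiv.ofBijective ⟨φ.hom, fun c => congrArg (fun g => g.hom c) h⟩
    ⟨φ.hom.injective, hφ⟩).trdeg_eq

theorem dl_chart {A : Type} [CommRing A] [Algebra k A] (j : Spec (CommRingCat.of A) ⟶ W)
    [IsOpenImmersion j] (hj : j ≫ t = Spec.map (CommRingCat.ofHom (algebraMap k A)))
    (p : Spec (CommRingCat.of A)) : dl t (j p) = trdeg k (A ⧸ p.asIdeal) := by
  rw [← trdeg_frac (k := k) _ p.asIdeal.ResidueField]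
  refine dl_eq t (j.residueFieldMap p ≫ (Scheme.Spec.residueFieldIso _ p).hom)
    (ConcreteCategory.bijective_of_isIso _).2 ?_
  rw [Spec.map_comp, Category.assoc, Scheme.Hom.SpecMap_residueFieldMap_fromSpecResidueField_assoc,
    hj, ← Scheme.Spec.map_residueFieldIso_inv_eq_fromSpecResidueField]
  simp only [← Spec.map_comp, Category.assoc, Iso.inv_hom_id, Category.comp_id]
  rfl

variable [LocallyOfFiniteType t]

theorem exists_chart (w : W) : ∃ (A : Type) (_ : CommRing A) (_ : Algebra k A)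
    (_ : FiniteType k A) (j : Spec (CommRingCat.of A) ⟶ W) (_ : IsOpenImmersion j),
    j ≫ t = Spec.map (CommRingCat.ofHom (algebraMap k A)) ∧ w ∈ Set.range j := by
  obtain ⟨R, j, h1, h2, -⟩ := Scheme.exists_affine_mem_range_and_range_subset (show w ∈ ⊤ from trivial)
  let _ := (Spec.preimage (j ≫ t)).hom.toAlgebra
  refine ⟨R, inferInstance, inferInstance, ?_, j, h1, (Spec.map_preimage _).symm, h2⟩
  have : LocallyOfFiniteType (Spec.map (Spec.preimage (j ≫ t))) := by
    rw [Spec.map_preimage]; infer_instance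
  exact (HasRingHomProperty.Spec_iff (P := @LocallyOfFiniteType)).1 this

theorem dl_nat (w : W) : ∃ n : ℕ, dl t w = n := by
  obtain ⟨A, _, _, _, j, _, hj, p, rfl⟩ := exists_chart t w
  rw [dl_chart t j hj]
  exact Cardinal.lt_aleph0.1 trdeg_lt_aleph0_of_finiteType

theorem height_eq {w : W} {n : ℕ} (h : dl t w = n) : Order.height w = n := by
  choose d hd using dl_nat t
  have h1 : StrictMono d := fun v w e => by
    obtain ⟨A, _, _, _, j, _, hj, p, rfl⟩ := exists_chart t v
    obtain ⟨q, rfl⟩ := Specializes.mem_open e.le j.isOpenEmbedding.isOpen_range ⟨p, rfl⟩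
    have a1 : q.asIdeal < p.asIdeal := lt_of_le_of_ne ((PrimeSpectrum.le_iff_specializes q p).2
      (j.isOpenEmbedding.isInducing.specializes_iff.1 e.le))
      fun c => e.ne (congrArg j (PrimeSpectrum.ext c.symm))
    have a2 := trdeg_lt a1 ((dl_chart t j hj q).symm.trans (hd _))
    rwa [← dl_chart t j hj, hd, Nat.cast_lt] at a2
  refine le_antisymm ((Order.height_le_height_apply_of_strictMono d h1 w).trans_eq ?_) ?_
  · rw [Order.height_nat, Nat.cast_injective (R := Cardinal) ((hd w).symm.trans h)]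
  induction n generalizing w with
  | zero => exact zero_le
  | succ n ih =>
    obtain ⟨A, _, _, _, j, _, hj, q, rfl⟩ := exists_chart t w
    rw [dl_chart t j hj] at h
    obtain ⟨p, a1, a2, a3⟩ := exists_gt (k := k) q.asIdeal (by rw [h]; exact_mod_cast n.succ_ne_zero)
    have a4 := dl_chart t j hj ⟨p, a1⟩
    have a5 : dl t (j ⟨p, a1⟩) = n := by
      rw [h, ← a4, hd] at a3
      rw [hd, Nat.succ_injective (by exact_mod_cast a3 : d (j ⟨p, a1⟩) + 1 = n + 1)]
    have a6 : j ⟨p, a1⟩ < j q := lt_of_le_not_ge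
      (((PrimeSpectrum.le_iff_specializes q ⟨p, a1⟩).1 a2.le).map j.continuous) fun c =>
      a2.not_ge ((PrimeSpectrum.le_iff_specializes ⟨p, a1⟩ q).2
        (j.isOpenEmbedding.isInducing.specializes_iff.1 c))
    exact le_trans (by exact_mod_cast add_le_add_left (ih a5) 1) (Order.height_add_one_le a6)

end Sch

noncomputable section

/-- the morphism of spectra attached to a ring homomorphism -/
abbrev sp {R S : Type} [CommRing R] [CommRing S] (f : R →+* S) :
    Spec (CommRingCat.of S) ⟶ Spec (CommRingCat.of R) := Spec.map (CommRingCat.ofHom f)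

theorem sp_comp {R S T : Type} [CommRing R] [CommRing S] [CommRing T] (f : R →+* S)
    (g : S →+* T) : sp (g.comp f) = sp g ≫ sp f := by
  rw [sp, CommRingCat.ofHom_comp, Spec.map_comp]

theorem sp_inj {R S : Type} [CommRing R] [CommRing S] {f g : R →+* S} (h : sp f = sp g) :
    f = g := congrArg CommRingCat.Hom.hom (Spec.map_injective h)

theorem sp_specializes {R K : Type} [CommRing R] [Field K] (f : R →+* K)
    (hf : Function.Injective f) (p : Spec (CommRingCat.of R)) : sp f (closedPoint K) ⤳ p := by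
  refine (PrimeSpectrum.le_iff_specializes _ _).1 fun x hx => ?_
  have h1 : f x ∈ maximalIdeal K := hx
  rw [maximalIdeal_eq_bot, Ideal.mem_bot, map_eq_zero_iff _ hf] at h1
  rw [h1]
  exact Ideal.zero_mem _

theorem sp_dominant {R K : Type} [CommRing R] [Field K] (f : R →+* K)
    (hf : Function.Injective f) : IsDominant (sp f) :=
  ⟨fun p => closure_mono (Set.singleton_subset_iff.2 (Set.mem_range_self _))
    (specializes_iff_mem_closure.1 (sp_specializes f hf p))⟩

theorem lift_chart {X : Scheme.{0}} {A O : Type} [CommRing A] [CommRing O] [IsLocalRing O]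
    (j : Spec (CommRingCat.of A) ⟶ X) [IsOpenImmersion j] (m : Spec (CommRingCat.of O) ⟶ X)
    (h : m (closedPoint O) ∈ Set.range j) : ∃ α : A →+* O, m = sp α ≫ j := by
  have H : Set.range m ⊆ Set.range j := by
    rintro _ ⟨p, rfl⟩
    exact ((IsLocalRing.specializes_closedPoint p).map m.continuous).mem_open
      j.isOpenEmbedding.isOpen_range h
  refine ⟨(Spec.preimage (IsOpenImmersion.lift j m H)).hom, ?_⟩
  rw [sp, CommRingCat.ofHom_hom, Spec.map_preimage, IsOpenImmersion.lift_fac]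

theorem exists_eps {W : Scheme.{0}} {K : Type} [Field K] (ξ : Spec (CommRingCat.of K) ⟶ W)
    (y : W) (h : ξ (closedPoint K) = y) :
    ∃ ε : W.presheaf.stalk y →+* K, sp ε ≫ W.fromSpecStalk y = ξ := by
  subst h
  exact ⟨(Scheme.stalkClosedPointTo ξ).hom, Scheme.Spec_stalkClosedPointTo_fromSpecStalk ξ⟩

theorem exists_image {Y : Scheme.{0}} {K : Type} [Field K] (ξ : Spec (CommRingCat.of K) ⟶ Y) :
    ∃ (W : Scheme.{0}) (_ : IsIntegral W) (i : W ⟶ Y) (ε : W.functionField →+* K),
      IsClosedImmersion i ∧ sp ε ≫ W.fromSpecStalk (genericPoint W) ≫ i = ξ := by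
  have hred : IsReduced ξ.image := ⟨fun U => isReduced_of_injective
    (S := Γ(Spec (CommRingCat.of K), ξ.toImage ⁻¹ᵁ U)) (ξ.toImage.app U).hom (TopCat.Presheaf.app_injective_of_stalkFunctor_map_injective (F := ξ.image.sheaf)
      ξ.toImage.c U fun x _ => ξ.stalkFunctor_toImage_injective x)⟩
  have hgen : IsGenericPoint (ξ.toImage (closedPoint K)) Set.univ := by
    have h := ξ.toImage.denseRange.closure_range
    rwa [show Set.range ξ.toImage = {ξ.toImage (closedPoint K)} from by
      ext y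
      constructor
      · rintro ⟨p, rfl⟩
        rw [Subsingleton.elim (α := PrimeSpectrum K) p (closedPoint K)]
        rfl
      · rintro rfl
        exact ⟨_, rfl⟩] at h
  have hirr : IrreducibleSpace ξ.image := by
    have := hgen.isIrreducible
    exact { isPreirreducible_univ := this.2, toNonempty := ⟨ξ.toImage (closedPoint K)⟩ }
  have hint := isIntegral_of_irreducibleSpace_of_isReduced ξ.image
  obtain ⟨ε, hε⟩ := exists_eps ξ.toImage (genericPoint ξ.image)
    (hgen.eq (genericPoint_spec ξ.image))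
  exact ⟨ξ.image, hint, ξ.imageι, ε, inferInstance, by
    rw [← Category.assoc, hε, Scheme.Hom.toImage_imageι]⟩

end

theorem cover {k R : Type} [Field k] [CommRing R] [Algebra k R] [FiniteType k R] {q p : Ideal R}
    [q.IsPrime] [p.IsPrime] (h : q < p) (h' : ∀ r : Ideal R, r.IsPrime → q < r → ¬ r < p) :
    trdeg k (R ⧸ p) + 1 = trdeg k (R ⧸ q) := by
  have hs := Ideal.Quotient.mk_surjective (I := q)
  have : (p.map (Ideal.Quotient.mk q)).IsPrime :=
    Ideal.map_isPrime_of_surjective hs (by rw [Ideal.mk_ker]; exact h.le)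
  have hc : (p.map (Ideal.Quotient.mk q)).comap (Ideal.Quotient.mk q) = p := by
    rw [Ideal.comap_map_of_surjective _ hs, ← RingHom.ker_eq_comap_bot, Ideal.mk_ker,
      sup_eq_left.2 h.le]
  have h1 : (p.map (Ideal.Quotient.mk q)).height = 1 := by
    refine le_antisymm ((Ideal.height_le_iff (n := 1)).2 fun Q hQ hlt => ?_) ?_
    · have h2 : Q = ⊥ := by
        by_contra h0
        refine h' (Q.comap (Ideal.Quotient.mk q)) inferInstance ?_ ?_
        · conv_lhs => rw [← Ideal.mk_ker (I := q), RingHom.ker_eq_comap_bot]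
          exact lt_of_le_of_ne (Ideal.comap_mono bot_le) fun e =>
            h0 (Ideal.comap_injective_of_surjective _ hs e).symm
        · conv_rhs => rw [← hc]
          exact lt_of_le_of_ne (Ideal.comap_mono hlt.le) fun e =>
            hlt.ne (Ideal.comap_injective_of_surjective _ hs e)
      rw [h2, Ideal.height_bot]
      norm_num
    · rw [Order.one_le_iff_ne_zero, ne_eq, Ideal.height_eq_zero_iff_eq_bot]
      intro e
      rw [e, ← RingHom.ker_eq_comap_bot, Ideal.mk_ker] at hc
      exact h.ne hc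
  rw [← height_one (k := k) _ h1, ← (DoubleQuot.quotQuotEquivQuotOfLEₐ k h.le).trdeg_eq]
  rfl

end Pool.Agent.MP_b834b3_ag

end MrgPart0

-- ======== part 1: formerly Pool.Agent.MP_b834b3_ag.Rel
section MrgPart1

/-! Signs of the coefficients of a principal cycle, read in affine charts. -/

namespace Pool.Agent.MP_b834b3_ag

open AlgebraicGeometry CategoryTheory Algebra IsLocalRing Limits

variable {k : Type} [Field k]

theorem height_chart {Y : Scheme.{0}} (t : Y ⟶ Spec (CommRingCat.of k)) [LocallyOfFiniteType t]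
    {B : Type} [CommRing B] [Algebra k B] (J : Spec (CommRingCat.of B) ⟶ Y) [IsOpenImmersion J]
    (hJ : J ≫ t = sp (algebraMap k B)) (P : Spec (CommRingCat.of B)) (n : ℕ) :
    Order.height (J P) = n ↔ trdeg k (B ⧸ P.asIdeal) = n := by
  rw [← dl_chart t J hJ]
  refine ⟨fun h => ?_, fun h => height_eq t h⟩
  obtain ⟨m, hm⟩ := dl_nat t (J P)
  have h1 := height_eq t hm
  rw [h] at h1
  rw [hm]
  exact_mod_cast (by exact_mod_cast h1.symm : m = n)

theorem spec_chart {Y : Scheme.{0}} {B : Type} [CommRing B] (J : Spec (CommRingCat.of B) ⟶ Y)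
    [IsOpenImmersion J] (P Q : Spec (CommRingCat.of B)) : J Q ⤳ J P ↔ Q.asIdeal ≤ P.asIdeal :=
  J.isOpenEmbedding.isInducing.specializes_iff.trans (PrimeSpectrum.le_iff_specializes Q P).symm

theorem dim_top (W : Scheme.{0}) [IsIntegral W] :
    topologicalKrullDim W = Order.height (genericPoint W) := by
  have h2 : topologicalKrullDim W = Order.krullDim W := by
    let := specializationOrder W
    rw [topologicalKrullDim, Order.krullDim_eq_of_orderIso (irreducibleSetEquivPoints (α := W))]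
  rw [h2, ← Order.height_top_eq_krullDim]
  rfl

theorem coheight_one {W : Scheme.{0}} [IsIntegral W] (t : W ⟶ Spec (CommRingCat.of k))
    [LocallyOfFiniteType t] {n : ℕ} (hn : Order.height (genericPoint W) = (n + 1 : ℕ)) (w : W) :
    Order.coheight w = 1 ↔ Order.height w = n := by
  constructor
  · intro hw
    obtain ⟨A, _, _, _, j, _, hj, p, rfl⟩ := exists_chart t w
    have : Nonempty (Spec (CommRingCat.of A)) := ⟨p⟩
    have := isIntegral_of_isOpenImmersion j
    have : IsDomain A := (affine_isIntegral_iff (CommRingCat.of A)).1 this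
    have h3 := height_one (k := k) p.asIdeal
      ((idealHeight_eq_coheight _ p).trans ((coheight_eq_of_isOpenImmersion j).symm.trans hw))
    rw [← genericPoint_eq_of_isOpenImmersion j, height_chart t j hj,
      genericPoint_eq_bot_of_affine] at hn
    rw [← (AlgEquiv.quotientBot k A).trdeg_eq] at h3
    obtain ⟨e, h2⟩ := dl_nat t (j p)
    rw [dl_chart t j hj] at h2
    rw [height_chart t j hj, h2]
    have h4 : ((e + 1 : ℕ) : Cardinal) = (n + 1 : ℕ) := by
      rw [← hn, Nat.cast_succ, ← h2]; exact h3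
    exact_mod_cast Nat.succ_injective (by exact_mod_cast h4 : e + 1 = n + 1)
  · intro hw
    have hn' : Order.height (⊤ : W) = (n + 1 : ℕ) := hn
    have h1 : w < ⊤ := lt_of_le_not_ge le_top fun e => by
      have h2 := Order.height_mono e
      rw [hn', hw] at h2
      have : n + 1 ≤ n := by exact_mod_cast h2
      omega
    refine le_antisymm ?_ (Order.one_le_iff_ne_zero.2 fun e => ?_)
    · refine (Order.coheight_le_coe_iff (n := 1)).2 fun y hy => ?_
      rw [Nat.cast_one, Order.lt_one_iff, Order.coheight_eq_zero]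
      by_contra h0
      obtain ⟨v, hv⟩ := not_isMax_iff.1 h0
      have a1 := Order.height_add_one_le hy
      have a2 := Order.height_add_one_le hv
      have a3 : Order.height v ≤ Order.height (⊤ : W) := Order.height_mono le_top
      rw [hw] at a1
      rw [hn'] at a3
      have a4 := ((add_le_add_left a1 1).trans a2).trans a3
      have : n + 1 + 1 ≤ n + 1 := by exact_mod_cast a4
      omega
    · exact (Order.coheight_eq_zero.1 e).not_lt h1

theorem ord_pos {W : Scheme.{0}} [IsIntegral W] [IsLocallyNoetherian W] {z : W}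
    (hz : Order.coheight z = 1) {u : W.presheaf.stalk z} (h0 : u ≠ 0) (hu : ¬ IsUnit u) :
    0 < W.ord (algebraMap _ W.functionField u) z := by
  have : Ring.KrullDimLE 1 (W.presheaf.stalk z) := krullDimLE_of_coheight_le hz.le
  have h1 : algebraMap _ W.functionField u ≠ 0 :=
    (map_ne_zero_iff _ (IsFractionRing.injective _ _)).2 h0
  have hn := mem_nonZeroDivisors_of_ne_zero h0
  obtain ⟨m, hm⟩ := ENat.ne_top_iff_exists.1 (Ring.ord_ne_top hn)
  have h2 : W.ord (algebraMap _ W.functionField u) z = m := by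
    rw [Scheme.ord_eq_iff hz h1]
    change Ring.ordFrac _ _ = _
    rw [Ring.ordFrac_eq_ord _ h0]
    exact Ring.ordMonoidWithZeroHom_eq_coe _ hn hm.symm
  rw [h2, Nat.cast_pos, Nat.pos_iff_ne_zero]
  rintro rfl
  have h3 : Module.length (W.presheaf.stalk z) (W.presheaf.stalk z ⧸ Ideal.span {u}) = 0 := hm.symm
  rw [Module.length_eq_zero_iff, Ideal.Quotient.subsingleton_iff, Ideal.span_singleton_eq_top] at h3
  exact hu h3

theorem ord_unit {W : Scheme.{0}} [IsIntegral W] [IsLocallyNoetherian W] {z : W}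
    {u : W.presheaf.stalk z} (hu : IsUnit u) : W.ord (algebraMap _ W.functionField u) z = 0 := by
  by_cases hz : Order.coheight z = 1
  · have : Ring.KrullDimLE 1 (W.presheaf.stalk z) := krullDimLE_of_coheight_le hz.le
    rw [Scheme.ord_eq_iff hz (hu.map _).ne_zero]
    exact Ring.ordFrac_of_isUnit hu
  · exact Scheme.ord_eq_zero_of_coheight_neq_one hz _

/-- The canonical map from the spectrum of a stalk. -/
noncomputable def fs (W : Scheme.{0}) (w : W) :
    Spec (CommRingCat.of (W.presheaf.stalk w)) ⟶ W := W.fromSpecStalk w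

/-- The divisor of a rational function on the closure of a point of dimension three. -/
theorem rel {Y : Scheme.{0}} (t : Y ⟶ Spec (CommRingCat.of k)) [LocallyOfFiniteType t]
    [CompactSpace Y] {F : Type} [Field F] (ξ : Spec (CommRingCat.of F) ⟶ Y)
    (hξ : Order.height (ξ (closedPoint F)) = 3) {φ : F} (hφ : φ ≠ 0)
    {B₀ : Type} [CommRing B₀] (J₀ : Spec (CommRingCat.of B₀) ⟶ Y) [IsOpenImmersion J₀]
    (β₀ : B₀ →+* F) (hβ₀ : sp β₀ ≫ J₀ = ξ) {g₀ h₀ : B₀} (hh : β₀ h₀ ≠ 0)
    (hg : φ * β₀ h₀ = β₀ g₀) :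
    ∃ c : Y →₀ ℚ, IsPrincipal Y c ∧
      (∀ z, c z ≠ 0 → ξ (closedPoint F) ⤳ z ∧ Order.height z = 2) ∧
      ∀ (B : Type) [CommRing B] (J : Spec (CommRingCat.of B) ⟶ Y) [IsOpenImmersion J]
        (β : B →+* F) (P : Spec (CommRingCat.of B)) (g h : B), sp β ≫ J = ξ →
        ξ (closedPoint F) ⤳ J P → Order.height (J P) = 2 → φ * β h = β g →
        (g ∉ P.asIdeal → h ∉ P.asIdeal → c (J P) = 0) ∧
        (g ∈ P.asIdeal → h ∉ P.asIdeal → 0 < c (J P)) ∧
        (g ∉ P.asIdeal → h ∈ P.asIdeal → c (J P) < 0) := by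
  classical
  obtain ⟨W, _, i, ε, hi, hε⟩ := exists_image ξ
  have hln : IsLocallyNoetherian W := LocallyOfFiniteType.isLocallyNoetherian (i ≫ t)
  have hcs : CompactSpace W := i.isClosedEmbedding.compactSpace
  have hno : IsNoetherian W := {}
  have hii : Function.Injective i := i.isClosedEmbedding.injective
  have hgen : i (genericPoint W) = ξ (closedPoint F) := by
    rw [← hε, Scheme.Hom.comp_apply, Scheme.Hom.comp_apply]
    congr 1
    rw [Subsingleton.elim (α := PrimeSpectrum W.functionField) (sp ε (closedPoint F))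
      (closedPoint W.functionField)]
    exact Scheme.fromSpecStalk_closedPoint.symm
  have hW : Order.height (genericPoint W) = (2 + 1 : ℕ) := by
    rw [← height_closed i, hgen, hξ]; rfl
  -- lifting charts to the local rings of `W`
  have lift : ∀ (B : Type) [CommRing B] (J : Spec (CommRingCat.of B) ⟶ Y) [IsOpenImmersion J]
      (β : B →+* F) (P : Spec (CommRingCat.of B)) (z : W), sp β ≫ J = ξ → i z = J P →
      ∃ α : B →+* W.presheaf.stalk z, (∀ b, ε (algebraMap _ W.functionField (α b)) = β b) ∧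
        ∀ b, IsUnit (α b) ↔ b ∉ P.asIdeal := by
    intro B _ J _ β P z hβ hz
    have h1 : (fs W z ≫ i) (closedPoint (W.presheaf.stalk z)) = J P := by
      rw [Scheme.Hom.comp_apply, ← hz]
      exact congrArg i Scheme.fromSpecStalk_closedPoint
    obtain ⟨α, hα⟩ := lift_chart J (fs W z ≫ i) ⟨P, h1.symm⟩
    refine ⟨α, fun b => ?_, fun b => ?_⟩
    · have h2 : sp ((ε.comp (algebraMap _ W.functionField)).comp α) = sp β := by
        rw [← cancel_mono J, hβ, sp_comp, Category.assoc, ← hα, sp_comp, Category.assoc, ← hε]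
        congr 1
        rw [← Category.assoc]
        congr 1
        exact Scheme.SpecMap_stalkSpecializes_fromSpecStalk (genericPoint_specializes z)
      exact RingHom.congr_fun (sp_inj h2) b
    · rw [hα, Scheme.Hom.comp_apply] at h1
      have h3 := J.isOpenEmbedding.injective h1
      rw [← h3]
      exact (notMem_maximalIdeal (x := α b)).symm
  obtain ⟨P₀, hP₀⟩ : ξ (closedPoint F) ∈ Set.range J₀ := by
    rw [← hβ₀, Scheme.Hom.comp_apply]; exact ⟨_, rfl⟩
  obtain ⟨α₀, hα₀, -⟩ := lift B₀ J₀ β₀ P₀ (genericPoint W) hβ₀ (hgen.trans hP₀.symm)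
  obtain ⟨ψ, hψ⟩ : ∃ ψ : W.functionField, ε ψ = φ :=
    ⟨_, ((map_div₀ ε _ _).trans (congrArg₂ (· / ·) (hα₀ g₀) (hα₀ h₀))).trans
      (by rw [div_eq_iff hh, hg])⟩
  have hψ0 : ψ ≠ 0 := fun e => hφ (by rw [← hψ, e, map_zero])
  let c : Y →₀ ℚ := Finsupp.mapDomain i (Finsupp.ofSupportFinite (fun z => (W.ord ψ z : ℚ))
    ((ord_finite W ψ).subset fun z hz => by simpa using hz))
  have hc : ∀ z, c (i z) = W.ord ψ z := fun z => by
    simp only [c]
    rw [Finsupp.mapDomain_apply hii, Finsupp.ofSupportFinite_coe]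
  have hc' : ∀ y, y ∉ Set.range i → c y = 0 := fun y hy =>
    Finsupp.mapDomain_of_notMem_range _ _ hy
  refine ⟨c, ⟨W, inferInstance, hln, i, ψ, hi, ?_, hψ0, hc, hc'⟩, fun z hz => ?_, ?_⟩
  · rw [dim_top, hW]; rfl
  · obtain ⟨z, rfl⟩ : z ∈ Set.range i := by
      by_contra h
      exact hz (hc' z h)
    refine ⟨hgen ▸ (genericPoint_specializes z).map i.continuous, ?_⟩
    rw [height_closed]
    refine (coheight_one (i ≫ t) hW z).1 ?_
    by_contra h
    exact hz (by rw [hc, Scheme.ord_eq_zero_of_coheight_neq_one h]; rfl)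
  · intro B _ J _ β P g h hβ hs hP he
    obtain ⟨z, hz⟩ : J P ∈ Set.range i :=
      hs.mem_closed i.isClosedEmbedding.isClosed_range ⟨_, hgen⟩
    obtain ⟨α, hα, hu⟩ := lift B J β P z hβ hz
    have hco : Order.coheight z = 1 :=
      (coheight_one (i ≫ t) hW z).2 (by rw [← height_closed i, hz, hP]; rfl)
    have h1 : ψ * algebraMap _ W.functionField (α h) = algebraMap _ W.functionField (α g) :=
      ε.injective (by rw [map_mul, hψ, hα, hα, he])
    have key : α h ≠ 0 → W.ord ψ z + W.ord (algebraMap _ W.functionField (α h)) z =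
        W.ord (algebraMap _ W.functionField (α g)) z := fun h0 => by
      rw [← h1, Scheme.ord_mul hψ0 ((map_ne_zero_iff _ (IsFractionRing.injective _ _)).2 h0)]
    have hz0 : α h = 0 ↔ α g = 0 := by
      rw [← map_eq_zero_iff _ (IsFractionRing.injective _ W.functionField),
        ← map_eq_zero_iff _ (IsFractionRing.injective (W.presheaf.stalk z) W.functionField)
          (x := α g), ← h1, mul_eq_zero, or_iff_right hψ0]
    rw [← hz, hc]
    refine ⟨fun a1 a2 => ?_, fun a1 a2 => ?_, fun a1 a2 => ?_⟩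
    · have := key ((hu h).2 a2).ne_zero
      rw [ord_unit ((hu h).2 a2), ord_unit ((hu g).2 a1), add_zero] at this
      exact_mod_cast this
    · have h0 := ((hu h).2 a2).ne_zero
      have := key h0
      rw [ord_unit ((hu h).2 a2), add_zero] at this
      rw [this]
      exact_mod_cast ord_pos hco (fun e => h0 (hz0.2 e)) fun e => (hu g).1 e a1
    · have h0 : α h ≠ 0 := fun e => ((hu g).2 a1).ne_zero (hz0.1 e)
      have := key h0
      rw [ord_unit ((hu g).2 a1)] at this
      have h2 := ord_pos hco h0 fun e => (hu h).1 e a2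
      have h3 : W.ord ψ z < 0 := by omega
      exact_mod_cast h3

/-- The class of the point lies in `V`. -/
def Good {Y : Type} (V : Submodule ℚ (Y →₀ ℚ)) (z : Y) : Prop := Finsupp.single z (1 : ℚ) ∈ V

theorem good_of {Y : Type} {V : Submodule ℚ (Y →₀ ℚ)} {c : Y →₀ ℚ} (hc : c ∈ V) {z₀ : Y}
    (h0 : c z₀ ≠ 0) (h : ∀ z, z ≠ z₀ → c z ≠ 0 → Good V z) : Good V z₀ := by
  classical
  have h1 : c.erase z₀ ∈ V := by
    rw [← Finsupp.sum_single (c.erase z₀)]
    refine Submodule.sum_mem _ fun z hz => ?_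
    rw [Finsupp.support_erase, Finset.mem_erase, Finsupp.mem_support_iff] at hz
    rw [← Finsupp.smul_single_one]
    exact V.smul_mem _ (h z hz.1 hz.2)
  have h2 : Finsupp.single z₀ (c z₀) ∈ V := by
    have := V.sub_mem hc h1
    rwa [sub_eq_iff_eq_add.2 (Finsupp.single_add_erase z₀ c).symm] at this
  have h3 := V.smul_mem (c z₀)⁻¹ h2
  rwa [Finsupp.smul_single, smul_eq_mul, inv_mul_cancel₀ h0] at h3

end Pool.Agent.MP_b834b3_ag

end MrgPart1

-- ======== part 2: formerly Pool.Agent.MP_b834b3_ag.Poly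
section MrgPart2

/-! All nonzero primes of a polynomial ring are reached by cutting with one equation at a time. -/

namespace Pool.Agent.MP_b834b3_ag

open Polynomial

theorem kr {R : Type} [CommRing R] [IsNoetherianRing R] {q p r : Ideal R} [q.IsPrime] {g : R}
    (hp : p ∈ (q ⊔ Ideal.span {g}).minimalPrimes) [r.IsPrime] (h1 : q < r) (h2 : r ≤ p) :
    r = p := by
  by_contra h3
  have := hp.isPrime
  have hs := Ideal.Quotient.mk_surjective (I := q)
  have i1 : (r.map (Ideal.Quotient.mk q)).IsPrime :=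
    Ideal.map_isPrime_of_surjective hs (by rw [Ideal.mk_ker]; exact h1.le)
  have i2 : (p.map (Ideal.Quotient.mk q)).IsPrime :=
    Ideal.map_isPrime_of_surjective hs (by rw [Ideal.mk_ker]; exact h1.le.trans h2)
  have hc : ∀ I : Ideal R, q ≤ I → (I.map (Ideal.Quotient.mk q)).comap (Ideal.Quotient.mk q) = I :=
    fun I hI => by
      rw [Ideal.comap_map_of_surjective _ hs, ← RingHom.ker_eq_comap_bot, Ideal.mk_ker,
        sup_eq_left.2 hI]
  have a1 : r.map (Ideal.Quotient.mk q) < p.map (Ideal.Quotient.mk q) :=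
    lt_of_le_of_ne (Ideal.map_mono h2) fun e => h3 (by
      rw [← hc r h1.le, e, hc p (h1.le.trans h2)])
  have a2 : r.map (Ideal.Quotient.mk q) ≠ ⊥ := fun e => h1.ne (by
    rw [← hc r h1.le, e, ← RingHom.ker_eq_comap_bot, Ideal.mk_ker])
  have a3 := (Ideal.height_add_one_le_of_lt_of_isPrime a1).trans
    (Ideal.map_height_le_one_of_mem_minimalPrimes hp)
  rw [ne_eq, ← Ideal.height_eq_zero_iff_eq_bot, ← ne_eq, ← Order.one_le_iff_ne_zero] at a2
  exact absurd ((add_le_add_left a2 1).trans a3) (by decide)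

/-- A set of ideals that contains a component of a hypersurface section as soon as it contains
the other components. -/
def Closed {R : Type} [CommRing R] (G : Set (Ideal R)) : Prop :=
  ∀ (q p : Ideal R) (g : R), q.IsPrime → g ∉ q → p ∈ (q ⊔ Ideal.span {g}).minimalPrimes →
    (∀ p' ∈ (q ⊔ Ideal.span {g}).minimalPrimes, p' ≠ p → p' ∈ G) → p ∈ G

/-- Every such set contains all nonzero primes. -/
def Van (R : Type) [CommRing R] : Prop :=
  ∀ G : Set (Ideal R), Closed G → ∀ p : Ideal R, p.IsPrime → p ≠ ⊥ → p ∈ G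

theorem van_field (k : Type) [Field k] : Van k := fun _ _ p hp h0 =>
  absurd ((Ideal.eq_bot_or_top p).resolve_left h0) hp.ne_top

theorem min_comap {R S : Type} [CommRing R] [CommRing S] (e : R ≃+* S) {I p : Ideal S}
    (h : p ∈ I.minimalPrimes) : p.comap e ∈ (I.comap e).minimalPrimes := by
  have := h.isPrime
  refine ⟨⟨Ideal.comap_isPrime _ _, Ideal.comap_mono h.le⟩, fun r hr hle x hx => ?_⟩
  have := hr.1
  have h1 : p ≤ r.comap e.symm := h.2 ⟨Ideal.comap_isPrime _ _, fun y hy => hr.2 (by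
    rwa [Ideal.mem_comap, e.apply_symm_apply])⟩ fun y hy => by
      have := hle (Ideal.mem_comap.1 hy)
      rwa [Ideal.mem_comap, e.apply_symm_apply] at this
  have h2 := h1 hx
  rwa [Ideal.mem_comap, e.symm_apply_apply] at h2

theorem sup_comap {R S : Type} [CommRing R] [CommRing S] (e : R ≃+* S) (q : Ideal S) (g : S) :
    (q ⊔ Ideal.span {g}).comap e = q.comap e ⊔ Ideal.span {e.symm g} := by
  rw [← Ideal.map_symm, Ideal.map_sup, Ideal.map_span, Set.image_singleton, Ideal.map_symm]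

theorem comap_symm_comap {R S : Type} [CommRing R] [CommRing S] (e : R ≃+* S) (q : Ideal S) :
    (q.comap e).comap e.symm = q := by
  ext x
  rw [Ideal.mem_comap, Ideal.mem_comap, e.apply_symm_apply]

theorem Van.equiv {R S : Type} [CommRing R] [CommRing S] (e : R ≃+* S) (h : Van S) : Van R := by
  intro G hG p hp h0
  have h1 := h {p | p.comap e ∈ G} (fun q p g hq hg hp ho => ?_) (p.comap e.symm)
    (Ideal.comap_isPrime _ _) fun e0 => h0 ?_
  · have h2 := comap_symm_comap e.symm p
    rw [RingEquiv.symm_symm] at h2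
    rwa [Set.mem_ofPred_eq, h2] at h1
  · refine hG (q.comap e) _ (e.symm g) (Ideal.comap_isPrime _ _)
      (by rwa [Ideal.mem_comap, e.apply_symm_apply]) (sup_comap e q g ▸ min_comap e hp) fun p' hp' hne => ?_
    have h2 := min_comap e.symm hp'
    rw [← sup_comap, comap_symm_comap] at h2
    have h3 := comap_symm_comap e.symm p'
    rw [RingEquiv.symm_symm] at h3
    rw [← h3]
    exact ho _ h2 fun e1 => hne (by rw [← h3, e1])
  · have h2 := comap_symm_comap e.symm p
    rw [RingEquiv.symm_symm] at h2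
    rw [← h2, e0, ← RingHom.ker_eq_comap_bot, (RingHom.injective_iff_ker_eq_bot _).1 e.injective]

theorem comap_map_C {A : Type} [CommRing A] (p : Ideal A) : (p.map (C : A →+* A[X])).comap C = p := by
  ext x
  rw [Ideal.mem_comap, Ideal.mem_map_C_iff]
  refine ⟨fun h => by simpa using h 0, fun h n => ?_⟩
  rw [coeff_C]
  split_ifs
  exacts [h, p.zero_mem]

theorem Van.poly {A : Type} [CommRing A] [IsNoetherianRing A] (h : Van A) : Van A[X] := by
  intro G hG
  have hext : ∀ p : Ideal A, p.IsPrime → p ≠ ⊥ → p.map (C : A →+* A[X]) ∈ G := by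
    refine h {p | p.map (C : A →+* A[X]) ∈ G} fun q p g hq hg hp ho => ?_
    have := hp.isPrime
    have hle : ∀ P : Ideal A[X], q.map C ⊔ Ideal.span {C g} ≤ P ↔
        q ⊔ Ideal.span {g} ≤ P.comap C := fun P => by
      rw [← Ideal.map_le_iff_le_comap, Ideal.map_sup, Ideal.map_span, Set.image_singleton]
    refine hG (q.map C) _ (C g) inferInstance
      (fun e => hg (by rwa [← Ideal.mem_comap, comap_map_C] at e))
      ⟨⟨inferInstance, (hle _).2 (by rw [comap_map_C]; exact hp.le)⟩, fun P hP hPp => ?_⟩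
      fun P hP hne => ?_
    · have := hP.1
      exact Ideal.map_le_iff_le_comap.2 (hp.2 ⟨Ideal.comap_isPrime _ _, (hle P).1 hP.2⟩
        ((Ideal.comap_mono hPp).trans (comap_map_C p).le))
    · have := hP.isPrime
      obtain ⟨p', h1, h2⟩ := Ideal.exists_minimalPrimes_le ((hle P).1 hP.le)
      have := h1.isPrime
      have h3 : p'.map C ≤ P := Ideal.map_le_iff_le_comap.2 h2
      have h4 : P = p'.map C := le_antisymm
        (hP.2 ⟨inferInstance, (hle _).2 (by rw [comap_map_C]; exact h1.le)⟩ h3) h3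
      rw [h4]
      exact ho p' h1 fun e => hne (by rw [h4, e])
  intro P hP h0
  let p := P.comap (C : A →+* A[X])
  have hpP : p.map C ≤ P := Ideal.map_comap_le
  rcases hpP.eq_or_lt with e | hlt
  · rw [← e]
    exact hext p inferInstance fun e0 => h0 (by rw [← e, e0, Ideal.map_bot])
  let φ : A[X] →+* p.ResidueField[X] := mapRingHom (algebraMap A p.ResidueField)
  have hker : ∀ f, φ f = 0 ↔ f ∈ p.map (C : A →+* A[X]) := fun f => by
    rw [Ideal.mem_map_C_iff, Polynomial.ext_iff]
    simp [φ, Ideal.algebraMap_residueField_eq_zero]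
  have hφC : ∀ s, φ (C s) = C (algebraMap A p.ResidueField s) := fun s => by simp [φ]
  have hp : p.IsPrime := inferInstance
  have den : ∀ f : p.ResidueField[X], ∃ s ∉ p, ∃ g, φ g = φ (C s) * f := by
    intro f
    induction f using Polynomial.induction_on' with
    | add f f' h1 h2 =>
      obtain ⟨s, hs, g, hg⟩ := h1
      obtain ⟨s', hs', g', hg'⟩ := h2
      exact ⟨s * s', fun e => (hp.mem_or_mem e).elim hs hs', C s' * g + C s * g', by
        simp only [map_add, map_mul, hg, hg']; ring⟩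
    | monomial n a =>
      obtain ⟨x, y, hy, rfl⟩ := IsFractionRing.div_surjective (A := A ⧸ p) a
      obtain ⟨x, rfl⟩ := Ideal.Quotient.mk_surjective x
      obtain ⟨y, rfl⟩ := Ideal.Quotient.mk_surjective y
      have hy' : y ∉ p := fun e => nonZeroDivisors.ne_zero hy (Ideal.Quotient.eq_zero_iff_mem.2 e)
      refine ⟨y, hy', monomial n x, ?_⟩
      have h3 : algebraMap A p.ResidueField y ≠ 0 :=
        fun e => hy' (Ideal.algebraMap_residueField_eq_zero.1 e)
      rw [hφC, C_mul_monomial, Ideal.algebraMap_quotient_residueField_mk,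
        Ideal.algebraMap_quotient_residueField_mk, mul_div_cancel₀ _ h3]
      simp [φ]
  obtain ⟨γ, hγ⟩ := (IsPrincipalIdealRing.principal (P.map φ)).principal
  have den' : ∀ f ∈ P.map φ, ∃ s ∉ p, ∃ g ∈ P, φ g = φ (C s) * f := by
    intro f hf
    induction hf using Submodule.span_induction with
    | mem f hf =>
      obtain ⟨g, hg, rfl⟩ := hf
      exact ⟨1, hp.one_notMem, g, hg, by simp⟩
    | zero => exact ⟨1, hp.one_notMem, 0, P.zero_mem, by simp⟩
    | add f f' _ _ h1 h2 =>
      obtain ⟨s, hs, g, hg0, hg⟩ := h1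
      obtain ⟨s', hs', g', hg0', hg'⟩ := h2
      exact ⟨s * s', fun e => (hp.mem_or_mem e).elim hs hs', C s' * g + C s * g',
        P.add_mem (P.mul_mem_left _ hg0) (P.mul_mem_left _ hg0'), by
        simp only [map_add, map_mul, hg, hg']; ring⟩
    | smul a f _ h1 =>
      obtain ⟨s, hs, g, hg0, hg⟩ := h1
      obtain ⟨s', hs', g', hg'⟩ := den a
      exact ⟨s * s', fun e => (hp.mem_or_mem e).elim hs hs', g' * g, P.mul_mem_left _ hg0, by
        simp only [map_mul, hg, hg', smul_eq_mul]; ring⟩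
  obtain ⟨s, hs, g, hgP, hg⟩ := den' γ (hγ ▸ Submodule.mem_span_singleton_self γ)
  have key : ∀ P₁ : Ideal A[X], P₁.IsPrime → P₁.comap C = p → g ∈ P₁ → P ≤ P₁ := by
    intro P₁ h1 h2 h3 f hf
    obtain ⟨r, hr⟩ := Submodule.mem_span_singleton.1 (hγ ▸ Ideal.mem_map_of_mem φ hf)
    obtain ⟨s', hs', r', hr'⟩ := den r
    have h4 : C (s * s') * f - g * r' ∈ P₁ := by
      refine (Ideal.map_le_iff_le_comap.2 h2.ge) ((hker _).1 ?_)
      simp only [map_sub, map_mul, hg, hr', ← hr, smul_eq_mul]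
      ring
    have h5 : C (s * s') * f ∈ P₁ := by
      have := P₁.add_mem h4 (P₁.mul_mem_right r' h3)
      rwa [sub_add_cancel] at this
    refine (h1.mem_or_mem h5).resolve_left fun e => ?_
    rw [← Ideal.mem_comap, h2] at e
    exact (hp.mem_or_mem e).elim hs hs'
  have hg0 : g ∉ p.map (C : A →+* A[X]) := fun e =>
    hlt.not_ge (key _ inferInstance (comap_map_C p) e)
  have hI : p.map (C : A →+* A[X]) ⊔ Ideal.span {g} ≤ P :=
    sup_le hpP ((Ideal.span_singleton_le_iff_mem _).2 hgP)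
  refine hG (p.map C) P g inferInstance hg0 ⟨⟨hP, hI⟩, fun P₁ h1 h2 => key P₁ h1.1
    (le_antisymm (Ideal.comap_mono h2) (Ideal.map_le_iff_le_comap.1 (le_sup_left.trans h1.2)))
    (h1.2 (Ideal.mem_sup_right (Ideal.mem_span_singleton_self g)))⟩ fun P' hP' hne => ?_
  have := hP'.isPrime
  have h1 : p ≤ P'.comap C := Ideal.map_le_iff_le_comap.1 (le_sup_left.trans hP'.le)
  rcases h1.eq_or_lt with e | h2
  · have h3 := key P' this e.symm (hP'.le (Ideal.mem_sup_right (Ideal.mem_span_singleton_self g)))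
    exact absurd (le_antisymm (hP'.2 ⟨hP, hI⟩ h3) h3) hne
  · have h3 : p.map (C : A →+* A[X]) < (P'.comap C).map C :=
      lt_of_le_of_ne (Ideal.map_mono h1) fun e => h2.ne (by
        rw [← comap_map_C p, e, comap_map_C])
    rw [← kr hP' h3 Ideal.map_comap_le]
    exact hext _ inferInstance (ne_bot_of_gt h2)

theorem van_mv (k σ : Type) [Field k] [Finite σ] : Van (MvPolynomial σ k) := by
  obtain ⟨n, ⟨e⟩⟩ := Finite.exists_equiv_fin σ
  refine Van.equiv (MvPolynomial.renameEquiv k e).toRingEquiv ?_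
  clear e
  induction n with
  | zero => exact Van.equiv (MvPolynomial.isEmptyRingEquiv k _) (van_field k)
  | succ n ih => exact Van.equiv (MvPolynomial.finSuccEquiv k n).toRingEquiv ih.poly

end Pool.Agent.MP_b834b3_ag

end MrgPart2

-- ======== part 3: formerly Pool.Agent.MP_b834b3_ag.Strat
section MrgPart3

/-! Strata that are localizations of polynomial rings carry no cycles except the generic one. -/

namespace Pool.Agent.MP_b834b3_ag

open AlgebraicGeometry CategoryTheory Algebra IsLocalRing Limits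

/-- The span of the principal cycles. -/
noncomputable def Rat (Y : Scheme.{0}) : Submodule ℚ (Y →₀ ℚ) :=
  Submodule.span ℚ {c | IsPrincipal Y c}

/-- A stratum of dimension `d` with trivial Chow groups. -/
structure Nice {Y : Scheme.{0}} (Z : Set Y) (d : ℕ) : Prop where
  le : ∀ z ∈ Z, Order.height z ≤ d
  sub : ∀ z ∈ Z, ∀ z' ∈ Z, Order.height z = d → Order.height z' = d → z = z'
  van : ∀ V, Rat Y ≤ V →
    (∀ z', Order.height z' = 2 → z' ∉ Z → (∃ w ∈ Z, w ⤳ z') → Good V z') →
    ∀ z ∈ Z, Order.height z = 2 → d ≠ 2 → Good V z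

variable {k K : Type} [Field k] [Field K] [Algebra k K]

theorem trdeg_of_frac {A D : Type} [CommRing A] [CommRing D] [IsDomain D] [Algebra k A]
    [Algebra k D] (f : A →ₐ[k] D) (h : ∀ d, ∃ r s, f s ≠ 0 ∧ f s * d = f r) :
    trdeg k D = trdeg k (A ⧸ RingHom.ker f) := by
  let g := Ideal.kerLiftAlg f
  have hg : Function.Injective g := Ideal.kerLiftAlg_injective f
  let _ := g.toRingHom.toAlgebra
  have : IsScalarTower k (A ⧸ RingHom.ker f) D := .of_algebraMap_eq fun c => (g.commutes c).symm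
  have : FaithfulSMul (A ⧸ RingHom.ker f) D := (faithfulSMul_iff_algebraMap_injective _ _).2 hg
  have : Algebra.IsAlgebraic (A ⧸ RingHom.ker f) D := ⟨fun d => by
    obtain ⟨r, s, h1, h2⟩ := h d
    refine ⟨Polynomial.C (Ideal.Quotient.mk _ s) * Polynomial.X - Polynomial.C (Ideal.Quotient.mk _ r),
      fun e => h1 ?_, ?_⟩
    · have := congrArg (Polynomial.coeff · 1) e
      simp only [Polynomial.coeff_sub, Polynomial.coeff_C_mul, Polynomial.coeff_X_one, mul_one,
        Polynomial.coeff_C_succ, sub_zero, Polynomial.coeff_zero] at this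
      exact Ideal.Quotient.eq_zero_iff_mem.1 this
    · simp only [map_sub, map_mul, Polynomial.aeval_C, Polynomial.aeval_X]
      exact sub_eq_zero.2 h2⟩
  have : Nontrivial (A ⧸ RingHom.ker f) := g.toRingHom.domain_nontrivial
  rw [← trdeg_add_eq k (A ⧸ RingHom.ker f) (A := D), trdeg_eq_zero (A := D), add_zero]

section Abs

variable {B : Type} [CommRing B] [Algebra K B] [Algebra k B] [IsScalarTower k K B]
  {σ : Type} [Fintype σ] (ψ : MvPolynomial σ k →ₐ[k] B) {S : Set (Ideal B)}

theorem dim_strat (gen : ∀ b, ∃ r s, ∀ P ∈ S, ψ s ∉ P ∧ ψ s * b - ψ r ∈ P) {P : Ideal B}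
    [P.IsPrime] (hP : P ∈ S) {n m : ℕ} (hn : trdeg k K = n) (hm : trdeg K (B ⧸ P) = m) :
    m + n ≤ Fintype.card σ ∧ (m + n = Fintype.card σ ↔ P.comap ψ = ⊥) := by
  have h1 := trdeg_of_frac ((Ideal.Quotient.mkₐ k P).comp ψ) fun d => by
    obtain ⟨b, rfl⟩ := Ideal.Quotient.mk_surjective d
    obtain ⟨r, s, h⟩ := gen b
    exact ⟨r, s, fun e => (h P hP).1 (Ideal.Quotient.eq_zero_iff_mem.1 e),
      Ideal.Quotient.eq.2 (h P hP).2⟩
  have hk : RingHom.ker ((Ideal.Quotient.mkₐ k P).comp ψ) = P.comap ψ := by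
    ext x
    exact Ideal.Quotient.eq_zero_iff_mem
  rw [hk, ← trdeg_add_eq k K (A := B ⧸ P), hn, hm] at h1
  have hR : trdeg k (MvPolynomial σ k) = Fintype.card σ := by
    rw [MvPolynomial.trdeg_of_isDomain, Cardinal.lift_id, Cardinal.mk_fintype]
  by_cases h0 : P.comap ψ = ⊥
  · rw [h0, ← (AlgEquiv.quotientBot k _).symm.trdeg_eq, hR] at h1
    have : n + m = Fintype.card σ := by exact_mod_cast h1
    exact ⟨by omega, by simp only [h0, iff_true]; omega⟩
  · obtain ⟨f, hf, f0⟩ := Submodule.exists_mem_ne_zero_of_ne_bot h0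
    have h2 := trdeg_quot_lt hR (P.comap ψ) hf f0
    rw [← h1] at h2
    have : n + m < Fintype.card σ := by exact_mod_cast h2
    exact ⟨by omega, by simp only [h0, iff_false]; omega⟩

omit [Algebra K B] [IsScalarTower k K B] [Fintype σ] in
theorem le_strat (gen : ∀ b, ∃ r s, ∀ P ∈ S, ψ s ∉ P ∧ ψ s * b - ψ r ∈ P) {P Q : Ideal B}
    [P.IsPrime] (hP : P ∈ S) (hQ : Q ∈ S) (h : Q.comap ψ ≤ P.comap ψ) : Q ≤ P := by
  intro b hb
  obtain ⟨r, s, h1⟩ := gen b
  have h2 : ψ r ∈ Q := by
    have := Q.sub_mem (Q.mul_mem_left (ψ s) hb) (h1 Q hQ).2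
    rwa [sub_sub_cancel] at this
  have h3 := P.add_mem (h1 P hP).2 (h h2)
  rw [sub_add_cancel] at h3
  exact (Ideal.IsPrime.mem_or_mem inferInstance h3).resolve_left (h1 P hP).1

variable {Y : Scheme.{0}} (t : Y ⟶ Spec (CommRingCat.of K)) [LocallyOfFiniteType t]
  [CompactSpace Y] (J : Spec (CommRingCat.of B) ⟶ Y) [IsOpenImmersion J]

omit [CompactSpace Y] [IsOpenImmersion J] in
theorem sp_res_point (Q : Spec (CommRingCat.of B)) :
    (sp (algebraMap B Q.asIdeal.ResidueField) ≫ J) (closedPoint _) = J Q := by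
  rw [Scheme.Hom.comp_apply]
  congr 1
  refine PrimeSpectrum.ext ?_
  change (maximalIdeal _).comap (algebraMap B Q.asIdeal.ResidueField) = _
  rw [maximalIdeal_eq_bot, ← RingHom.ker_eq_comap_bot, Ideal.ker_algebraMap_residueField]

omit [Algebra K B] in
include t in
/-- The relation given by a regular function on the closure of a point of a chart. -/
theorem good_chart {V : Submodule ℚ (Y →₀ ℚ)} (hV : Rat Y ≤ V) {P Q : Spec (CommRingCat.of B)}
    (hQ : Order.height (J Q) = 3) (hP : Order.height (J P) = 2) (hle : Q.asIdeal ≤ P.asIdeal)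
    {g : B} (h1 : g ∈ P.asIdeal) (h2 : g ∉ Q.asIdeal)
    (h3 : ∀ z, z ≠ J P → J Q ⤳ z → Order.height z = 2 →
      (∀ P', J P' = z → g ∈ P'.asIdeal) → Good V z) : Good V (J P) := by
  have e := sp_res_point J Q
  obtain ⟨c, a1, a2, a3⟩ := rel t (sp (algebraMap B Q.asIdeal.ResidueField) ≫ J) (e ▸ hQ)
    (φ := algebraMap B _ g) (fun e => h2 (Ideal.algebraMap_residueField_eq_zero.1 e)) J _ rfl
    (g₀ := g) (h₀ := 1) (by simp) (by simp)
  rw [e] at a2 a3
  refine good_of (hV (Submodule.subset_span a1)) ((a3 B J _ P g 1 rfl ((spec_chart J _ _).2 hle)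
    hP (by simp)).2.1 h1 P.isPrime.one_notMem).ne' fun z b1 b2 => h3 z b1 (a2 z b2).1 (a2 z b2).2 ?_
  rintro P' rfl
  by_contra b3
  exact b2 ((a3 B J _ P' g 1 rfl (a2 _ b2).1 (a2 _ b2).2 (by simp)).1 b3 P'.isPrime.one_notMem)

theorem nice_of [FiniteType K B] (hJ : J ≫ t = sp (algebraMap K B))
    (gen : ∀ b, ∃ r s, ∀ P ∈ S, ψ s ∉ P ∧ ψ s * b - ψ r ∈ P)
    (lift : ∀ P ∈ S, P.IsPrime → ∀ q : Ideal (MvPolynomial σ k), q.IsPrime → q ≤ P.comap ψ →
      ∃ Q ∈ S, Q.IsPrime ∧ Q.comap ψ = q)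
    (conv : ∀ Q ∈ S, ∀ P ∈ S, ∀ R, R.IsPrime → Q ≤ R → R ≤ P → R ∈ S)
    {n d : ℕ} (hn : trdeg k K = n) (hd : d + n = Fintype.card σ) :
    Nice (J '' {P | P.asIdeal ∈ S}) d := by
  have hnat : ∀ P : Spec (CommRingCat.of B), ∃ m : ℕ, trdeg K (B ⧸ P.asIdeal) = m := fun P =>
    Cardinal.lt_aleph0.1 trdeg_lt_aleph0_of_finiteType
  have hc := height_chart t J hJ
  refine ⟨?_, ?_, fun V hV hb => ?_⟩
  · rintro _ ⟨P, hP, rfl⟩
    obtain ⟨m, hm⟩ := hnat P
    rw [(hc P m).2 hm, Nat.cast_le]
    have := (dim_strat ψ gen hP hn hm).1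
    omega
  · rintro _ ⟨P, hP, rfl⟩ _ ⟨P', hP', rfl⟩ h1 h2
    have a1 := (dim_strat ψ gen hP hn ((hc P d).1 h1)).2.1 hd
    have a2 := (dim_strat ψ gen hP' hn ((hc P' d).1 h2)).2.1 hd
    exact congrArg J (PrimeSpectrum.ext (le_antisymm (le_strat ψ gen hP' hP (a1.trans a2.symm).le)
      (le_strat ψ gen hP hP' (a2.trans a1.symm).le)))
  have key := van_mv k σ {p | ∀ P : Spec (CommRingCat.of B), P.asIdeal ∈ S →
      P.asIdeal.comap ψ = p → Order.height (J P) = 2 → Good V (J P)} (by
    rintro q _ g hq hg hp ho P hP rfl h2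
    obtain ⟨Q, hQ, hQp, rfl⟩ := lift _ hP P.isPrime q hq (le_sup_left.trans hp.le)
    have hgP : ψ g ∈ P.asIdeal := hp.le (Ideal.mem_sup_right (Ideal.mem_span_singleton_self g))
    have hle : Q ≤ P.asIdeal := le_strat ψ gen hP hQ (le_sup_left.trans hp.le)
    have hlt : Q < P.asIdeal := lt_of_le_of_ne hle fun e => hg (by rw [e]; exact hgP)
    have h3 := cover (k := K) hlt fun r hr e1 e2 => by
      have hrS := conv Q hQ _ hP r hr e1.le e2.le
      have e3 : Q.comap ψ < r.comap ψ := lt_of_le_of_ne (Ideal.comap_mono e1.le) fun e =>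
        e1.not_ge (le_strat ψ gen hQ hrS e.ge)
      exact e2.not_ge (le_strat ψ gen hrS hP (kr hp e3 (Ideal.comap_mono e2.le)).ge)
    have hP2 := (hc P 2).1 h2
    have hQ3 : trdeg K (B ⧸ Q) = (3 : ℕ) := by
      rw [← h3, hP2]; norm_num
    refine good_chart t J hV (Q := ⟨Q, hQp⟩) ((hc _ 3).2 hQ3) h2 hle hgP hg fun z b1 b2 b3 b4 => ?_
    by_cases b5 : z ∈ J '' {P | P.asIdeal ∈ S}
    swap
    · exact hb z b3 b5 ⟨_, ⟨⟨Q, hQp⟩, hQ, rfl⟩, b2⟩
    obtain ⟨P', hP', rfl⟩ := b5
    have c1 : Q ≤ P'.asIdeal := (spec_chart J _ _).1 b2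
    have c2 : Q.comap ψ ⊔ Ideal.span {g} ≤ P'.asIdeal.comap ψ :=
      sup_le (Ideal.comap_mono c1) ((Ideal.span_singleton_le_iff_mem _).2 (b4 P' rfl))
    obtain ⟨p, c3, c4⟩ := Ideal.exists_minimalPrimes_le c2
    obtain ⟨R, hR, hRp, rfl⟩ := lift _ hP' P'.isPrime p c3.isPrime c4
    have c5 : Q < R := lt_of_le_of_ne (le_strat ψ gen hR hQ (le_sup_left.trans c3.le)) fun e =>
      hg (by rw [e]; exact c3.le (Ideal.mem_sup_right (Ideal.mem_span_singleton_self g)))
    have c6 : R = P'.asIdeal := by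
      refine (le_strat ψ gen hP' hR c4).eq_or_lt.resolve_right fun e => ?_
      obtain ⟨m, hm⟩ := hnat ⟨R, hRp⟩
      have d1 := trdeg_lt c5 hQ3
      have d2 := trdeg_lt e hm
      rw [(hc P' 2).1 b3] at d2
      rw [show trdeg K (B ⧸ R) = m from hm] at d1
      have d3 : m < 3 := by exact_mod_cast d1
      have d4 : 2 < m := by exact_mod_cast d2
      omega
    subst c6
    refine ho _ c3 (fun e => b1 (congrArg J (PrimeSpectrum.ext (le_antisymm
      (le_strat ψ gen hP hP' e.le) (le_strat ψ gen hP' hP e.ge))))) P' hP' rfl b3)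
  rintro _ ⟨P, hP, rfl⟩ h2 hd2
  refine key _ (Ideal.comap_isPrime _ _) (fun e => hd2 ?_) P hP rfl h2
  have := (dim_strat ψ gen hP hn ((hc P 2).1 h2)).2.2 e
  omega

end Abs

end Pool.Agent.MP_b834b3_ag

end MrgPart3

-- ======== part 4: formerly Pool.Agent.MP_b834b3_ag.Build
section MrgPart4

/-! Strata of the generic member of a linear system. -/

namespace Pool.Agent.MP_b834b3_ag

open AlgebraicGeometry CategoryTheory Algebra IsLocalRing Limits MvPolynomial

variable {k : Type} [Field k] {ι τ' r : Type} [Fintype ι] [Fintype r] [DecidableEq r]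
  {p : r → ι} (m : r → ι → MvPolynomial τ' k)

/-- The free variables. -/
abbrev Fr (τ' : Type) (p : r → ι) : Type := τ' ⊕ {i // i ∉ Set.range p}

/-- The determinant of the pivots. -/
noncomputable def pdet (p : r → ι) : MvPolynomial τ' k := (Matrix.of fun s s' => m s (p s')).det

/-- `α` solves the linear system and agrees with the free coefficients. -/
def Sol (p : r → ι) {L : Type} [CommRing L] [Algebra k L] (ev : MvPolynomial (Fr τ' p) k →ₐ[k] L)
    (α : ι → L) : Prop :=
  (∀ i hi, α i = ev (X (Sum.inr ⟨i, hi⟩))) ∧ ∀ s, ∑ i, α i * ev (rename Sum.inl (m s i)) = 0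

omit [DecidableEq r] in
open Classical in
theorem sum_split (hp : Function.Injective p) {L : Type} [AddCommMonoid L] (f : ι → L) :
    ∑ i, f i = ∑ s, f (p s) + ∑ i : {i // i ∉ Set.range p}, f i := by
  rw [← Fintype.sum_subtype_add_sum_subtype (fun i => i ∈ Set.range p) f]
  exact congrArg (· + _) (@Fintype.sum_equiv r {i // i ∈ Set.range p} L _ (Subtype.fintype _) _
    (Equiv.ofInjective p hp) (fun s => f (p s)) (fun i => f i.1) fun s => rfl).symm

open Classical in
theorem sol_iff (hp : Function.Injective p) {L : Type} [CommRing L] [Algebra k L]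
    (ev : MvPolynomial (Fr τ' p) k →ₐ[k] L) {α : ι → L}
    (h : ∀ i hi, α i = ev (X (Sum.inr ⟨i, hi⟩))) :
    (∀ s, ∑ i, α i * ev (rename Sum.inl (m s i)) = 0) ↔
      Matrix.mulVec (Matrix.of fun s s' => ev (rename Sum.inl (m s (p s')))) (α ∘ p) =
        fun s => ev (-∑ i : {i // i ∉ Set.range p}, X (Sum.inr i) * rename Sum.inl (m s i)) := by
  rw [funext_iff]
  refine forall_congr' fun s => ?_
  rw [sum_split hp, map_neg, eq_neg_iff_add_eq_zero, map_sum]
  have e1 : ∑ s', α (p s') * ev (rename Sum.inl (m s (p s'))) =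
      Matrix.mulVec (Matrix.of fun s s' => ev (rename Sum.inl (m s (p s')))) (α ∘ p) s := by
    simp [Matrix.mulVec, dotProduct, mul_comm]
  have e2 : ∑ i : {i // i ∉ Set.range p}, α i * ev (rename Sum.inl (m s i)) =
      ∑ i : {i // i ∉ Set.range p}, ev (X (Sum.inr i) * rename Sum.inl (m s i)) :=
    Finset.sum_congr rfl fun i _ => by rw [map_mul, h i.1 i.2]
  rw [e1, e2]

omit [Fintype ι] in
theorem det_ev {L : Type} [CommRing L] [Algebra k L] (ev : MvPolynomial (Fr τ' p) k →ₐ[k] L) :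
    (Matrix.of fun s s' => ev (rename Sum.inl (m s (p s')))).det =
      ev (rename Sum.inl (pdet m p)) :=
  ((ev.comp (rename Sum.inl)).map_det (Matrix.of fun s s' => m s (p s'))).symm

theorem num (hp : Function.Injective p) (i : ι) : ∃ G : MvPolynomial (Fr τ' p) k,
    ∀ (L : Type) [CommRing L] [Algebra k L] (ev : MvPolynomial (Fr τ' p) k →ₐ[k] L) (α : ι → L),
      Sol m p ev α → ev (rename Sum.inl (pdet m p)) * α i = ev G := by
  classical
  by_cases hi : i ∈ Set.range p
  · obtain ⟨s, rfl⟩ := hi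
    refine ⟨Matrix.mulVec (Matrix.of fun s s' => rename Sum.inl (m s (p s'))).adjugate
      (fun s => -∑ i : {i // i ∉ Set.range p}, X (Sum.inr i) * rename Sum.inl (m s i)) s,
      fun L _ _ ev α h => ?_⟩
    have h1 := congrArg (Matrix.mulVec
      (Matrix.of fun s s' => ev (rename Sum.inl (m s (p s')))).adjugate) ((sol_iff m hp ev h.1).1 h.2)
    rw [Matrix.mulVec_mulVec, Matrix.adjugate_mul, Matrix.smul_mulVec, Matrix.one_mulVec,
      det_ev] at h1
    refine (congrFun h1 s).trans (Eq.symm ?_)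
    refine (RingHom.map_mulVec ev.toRingHom _ _ s).trans ?_
    have h2 := ev.toRingHom.map_adjugate (Matrix.of fun s s' => rename Sum.inl (m s (p s')))
    rw [RingHom.mapMatrix_apply] at h2
    rw [h2]
    rfl
  · exact ⟨rename Sum.inl (pdet m p) * X (Sum.inr ⟨i, hi⟩), fun L _ _ ev α h => by
      rw [map_mul, h.1 i hi]⟩

theorem exists_sol (hp : Function.Injective p) {L : Type} [Field L] [Algebra k L]
    (ev : MvPolynomial (Fr τ' p) k →ₐ[k] L) (h : ev (rename Sum.inl (pdet m p)) ≠ 0) :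
    ∃ α, Sol m p ev α := by
  classical
  let N := Matrix.of fun s s' => ev (rename Sum.inl (m s (p s')))
  let y := Matrix.mulVec N⁻¹
    fun s => ev (-∑ i : {i // i ∉ Set.range p}, X (Sum.inr i) * rename Sum.inl (m s i))
  let α := Function.extend p y fun i => if hi : i ∈ Set.range p then 0 else ev (X (Sum.inr ⟨i, hi⟩))
  have h1 : ∀ i hi, α i = ev (X (Sum.inr ⟨i, hi⟩)) := fun i hi => by
    simp only [α]
    rw [Function.extend_apply' _ _ _ hi, dif_neg hi]
  refine ⟨α, h1, (sol_iff m hp ev h1).2 ?_⟩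
  rw [show α ∘ p = y from Function.extend_comp hp _ _, Matrix.mulVec_mulVec,
    Matrix.mul_nonsing_inv _ (by rw [det_ev]; exact h.isUnit), Matrix.one_mulVec]

theorem num_poly (hp : Function.Injective p) (f : MvPolynomial ι k) :
    ∃ (N : ℕ) (G : MvPolynomial (Fr τ' p) k),
    ∀ (L : Type) [CommRing L] [Algebra k L] (ev : MvPolynomial (Fr τ' p) k →ₐ[k] L) (α : ι → L),
      Sol m p ev α → ev (rename Sum.inl (pdet m p)) ^ N * aeval α f = ev G := by
  induction f using MvPolynomial.induction_on with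
  | C c => exact ⟨0, C c, fun L _ _ ev α _ => by simp⟩
  | add f g hf hg =>
    obtain ⟨N, G, hf⟩ := hf
    obtain ⟨N', G', hg⟩ := hg
    refine ⟨N + N', rename Sum.inl (pdet m p) ^ N' * G + rename Sum.inl (pdet m p) ^ N * G',
      fun L _ _ ev α h => ?_⟩
    rw [map_add, map_add, map_mul, map_mul, map_pow, map_pow, ← hf L ev α h, ← hg L ev α h]
    ring
  | mul_X f i hf =>
    obtain ⟨N, G, hf⟩ := hf
    obtain ⟨G', hg⟩ := num m hp i
    refine ⟨N + 1, G * G', fun L _ _ ev α h => ?_⟩
    rw [map_mul, map_mul, aeval_X, ← hf L ev α h, ← hg L ev α h]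
    ring

variable {K : Type} [Field K] [Algebra k K] [Algebra (MvPolynomial ι k) K]
  [IsFractionRing (MvPolynomial ι k) K] [IsScalarTower k (MvPolynomial ι k) K]

variable (k K) in
/-- The generic coefficient. -/
noncomputable def cf (i : ι) : K := algebraMap (MvPolynomial ι k) K (X i)

variable {B : Type} [CommRing B] [Algebra K B] [Algebra k B] [IsScalarTower k K B]
  {τ : Type} (e : τ → B) (sec : τ' → τ) (ρ : τ → MvPolynomial τ' k) (h₀ : MvPolynomial τ' k)

/-- The primes of the stratum. -/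
def St : Set (Ideal B) :=
  {P | P.IsPrime ∧ (∀ x, e x - aeval (e ∘ sec) (ρ x) ∈ P) ∧ aeval (e ∘ sec) h₀ ∉ P}

variable (k K) in
/-- The parametrization of the stratum. -/
noncomputable def par (p : r → ι) : MvPolynomial (Fr τ' p) k →ₐ[k] B :=
  aeval (Sum.elim (e ∘ sec) fun i => algebraMap K B (cf k K i.1))

omit [Fintype ι] [Fintype r] [DecidableEq r] [IsFractionRing (MvPolynomial ι k) K]
  [IsScalarTower k (MvPolynomial ι k) K] [IsScalarTower k K B] [Algebra k K] in
theorem par_inl (f : MvPolynomial τ' k) :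
    par k K e sec p (rename Sum.inl f) = aeval (e ∘ sec) f := by
  rw [par, aeval_rename]; rfl

omit [Fintype ι] [IsFractionRing (MvPolynomial ι k) K] in
theorem aeval_cf {L : Type} [CommRing L] [Algebra K L] [Algebra k L] [IsScalarTower k K L]
    (f : MvPolynomial ι k) :
    aeval (fun i => algebraMap K L (cf k K i)) f = algebraMap K L (algebraMap _ K f) :=
  AlgHom.congr_fun (algHom_ext (f := aeval fun i => algebraMap K L (cf k K i))
    (g := (IsScalarTower.toAlgHom k K L).comp (IsScalarTower.toAlgHom k (MvPolynomial ι k) K))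
    fun i => by simp [cf]) f

variable {m e sec ρ h₀}

omit [IsFractionRing (MvPolynomial ι k) K] in
theorem num_mod (hp : Function.Injective p) (f : MvPolynomial ι k) :
    ∃ (N : ℕ) (G : MvPolynomial (Fr τ' p) k), (∀ P : Ideal B,
      (∀ s, ∑ i, algebraMap K B (cf k K i) * aeval (e ∘ sec) (m s i) ∈ P) →
      aeval (e ∘ sec) (pdet m p) ^ N * algebraMap K B (algebraMap _ K f) -
        par k K e sec p G ∈ P) ∧
      ∀ (L : Type) [CommRing L] [Algebra k L] (ev : MvPolynomial (Fr τ' p) k →ₐ[k] L) (α : ι → L),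
        Sol m p ev α → ev (rename Sum.inl (pdet m p)) ^ N * aeval α f = ev G := by
  obtain ⟨N, G, h⟩ := num_poly m hp f
  refine ⟨N, G, fun P hP => ?_, h⟩
  have := h (B ⧸ P) ((Ideal.Quotient.mkₐ k P).comp (par k K e sec p))
    (fun i => algebraMap K _ (cf k K i)) ⟨fun i hi => by
      simp only [par, AlgHom.comp_apply, aeval_X, Sum.elim_inr]; rfl, fun s => by
      rw [← Ideal.Quotient.eq_zero_iff_mem.2 (hP s), map_sum]
      refine Finset.sum_congr rfl fun i _ => ?_
      rw [AlgHom.comp_apply, par_inl, map_mul]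
      rfl⟩
  rw [aeval_cf, AlgHom.comp_apply, AlgHom.comp_apply, par_inl] at this
  refine Ideal.Quotient.eq.1 ?_
  rw [map_mul, map_pow]
  exact this

theorem gen_build (hp : Function.Injective p) (he : adjoin K (Set.range e) = ⊤)
    (hdet : pdet m p ∣ h₀) {S : Set (Ideal B)} (hS : S ⊆ St e sec ρ h₀)
    (H1 : ∀ P ∈ S, ∀ s, ∑ i, algebraMap K B (cf k K i) * aeval (e ∘ sec) (m s i) ∈ P)
    (b : B) : ∃ r' s, ∀ P ∈ S,
      par k K e sec p s ∉ P ∧ par k K e sec p s * b - par k K e sec p r' ∈ P := by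
  have hd : ∀ P ∈ S, aeval (e ∘ sec) (pdet m p) ∉ P := fun P hP h => (hS hP).2.2 (by
    obtain ⟨u, rfl⟩ := hdet
    rw [map_mul]
    exact P.mul_mem_right _ h)
  have hb : b ∈ adjoin K (Set.range e) := he ▸ trivial
  induction hb using Algebra.adjoin_induction with
  | mem b hb =>
    obtain ⟨x, rfl⟩ := hb
    exact ⟨rename Sum.inl (ρ x), 1, fun P hP => ⟨by
      rw [map_one]; exact (hS hP).1.one_notMem, by
        rw [map_one, one_mul, par_inl]; exact (hS hP).2.1 x⟩⟩
  | algebraMap c =>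
    obtain ⟨f, g, hg, rfl⟩ := IsFractionRing.div_surjective (A := MvPolynomial ι k) c
    have hg0 : algebraMap _ K g ≠ 0 :=
      (map_ne_zero_iff _ (IsFractionRing.injective _ K)).2 (nonZeroDivisors.ne_zero hg)
    obtain ⟨N, F, hF, -⟩ := num_mod (K := K) (m := m) (e := e) (sec := sec) hp f
    obtain ⟨N', G, hG, -⟩ := num_mod (K := K) (m := m) (e := e) (sec := sec) hp g
    refine ⟨rename Sum.inl (pdet m p) ^ N' * F, rename Sum.inl (pdet m p) ^ N * G,
      fun P hP => ?_⟩
    have := (hS hP).1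
    have a1 := hF P (H1 P hP)
    have a2 := hG P (H1 P hP)
    simp only [map_mul, map_pow, par_inl]
    constructor
    · intro h
      rcases this.mem_or_mem h with h | h
      · exact hd P hP (this.mem_of_pow_mem _ h)
      · have a3 := P.add_mem a2 h
        rw [sub_add_cancel] at a3
        rcases this.mem_or_mem a3 with h | h
        · exact hd P hP (this.mem_of_pow_mem _ h)
        · exact this.ne_top (P.eq_top_of_isUnit_mem h (hg0.isUnit.map _))
    · have a3 : algebraMap K B (algebraMap _ K g) *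
          algebraMap K B (algebraMap _ K f / algebraMap _ K g) =
          algebraMap K B (algebraMap _ K f) := by
        rw [← map_mul, mul_div_cancel₀ _ hg0]
      convert P.sub_mem (P.mul_mem_left (aeval (e ∘ sec) (pdet m p) ^ N') a1)
        (P.mul_mem_left (aeval (e ∘ sec) (pdet m p) ^ N *
          algebraMap K B (algebraMap _ K f / algebraMap _ K g)) a2) using 1
      rw [← a3]
      ring
  | add b b' _ _ h1 h2 =>
    obtain ⟨r1, s1, h1⟩ := h1
    obtain ⟨r2, s2, h2⟩ := h2
    refine ⟨s2 * r1 + s1 * r2, s1 * s2, fun P hP => ⟨fun h => ?_, ?_⟩⟩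
    · rw [map_mul] at h
      exact ((hS hP).1.mem_or_mem h).elim (h1 P hP).1 (h2 P hP).1
    · convert P.add_mem (P.mul_mem_left (par k K e sec p s2) (h1 P hP).2)
        (P.mul_mem_left (par k K e sec p s1) (h2 P hP).2) using 1
      simp only [map_add, map_mul]
      ring
  | mul b b' _ _ h1 h2 =>
    obtain ⟨r1, s1, h1⟩ := h1
    obtain ⟨r2, s2, h2⟩ := h2
    refine ⟨r1 * r2, s1 * s2, fun P hP => ⟨fun h => ?_, ?_⟩⟩
    · rw [map_mul] at h
      exact ((hS hP).1.mem_or_mem h).elim (h1 P hP).1 (h2 P hP).1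
    · convert P.add_mem (P.mul_mem_left (par k K e sec p s2 * b') (h1 P hP).2)
        (P.mul_mem_left (par k K e sec p r1) (h2 P hP).2) using 1
      simp only [map_mul]
      ring

theorem lift_build (hp : Function.Injective p) (hρ : ∀ v, ρ (sec v) = X v)
    (hdet : pdet m p ∣ h₀)
    (H1 : ∀ P ∈ St e sec ρ h₀, ∀ s, ∑ i, algebraMap K B (cf k K i) * aeval (e ∘ sec) (m s i) ∈ P)
    (H2 : ∀ (L : Type) [Field L] [Algebra K L] [Algebra k L] [IsScalarTower k K L] (v : τ' → L),
      (∀ s, ∑ i, algebraMap K L (cf k K i) * aeval v (m s i) = 0) →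
      ∃ χ : B →ₐ[K] L, ∀ x, χ (e x) = aeval v (ρ x))
    (P : Ideal B) (hP : P ∈ St e sec ρ h₀) (q : Ideal (MvPolynomial (Fr τ' p) k)) (hq : q.IsPrime)
    (hle : q ≤ P.comap (par k K e sec p)) :
    ∃ Q ∈ St e sec ρ h₀, Q.IsPrime ∧ Q.comap (par k K e sec p) = q := by
  have := hP.1
  let ev := IsScalarTower.toAlgHom k (MvPolynomial (Fr τ' p) k) q.ResidueField
  have hev : ∀ f, ev f = 0 ↔ f ∈ q := fun f => Ideal.algebraMap_residueField_eq_zero
  have h0 : ev (rename Sum.inl h₀) ≠ 0 := fun h => hP.2.2 (by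
    have := hle ((hev _).1 h)
    rwa [Ideal.mem_comap, par_inl] at this)
  obtain ⟨u, rfl⟩ := hdet
  have h1 : ev (rename Sum.inl (pdet m p)) ≠ 0 := fun h => h0 (by rw [map_mul, map_mul, h, zero_mul])
  obtain ⟨α, hα⟩ := exists_sol m hp ev h1
  have hinj : Function.Injective (aeval α : MvPolynomial ι k →ₐ[k] q.ResidueField).toRingHom := by
    rw [injective_iff_map_eq_zero]
    intro f hf
    by_contra hf0
    obtain ⟨N, G, a1, a2⟩ := num_mod (K := K) (m := m) (e := e) (sec := sec) hp f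
    have a3 := a2 _ ev α hα
    rw [show aeval α f = 0 from hf, mul_zero] at a3
    have a4 := P.add_mem (a1 P (H1 P hP)) (hle ((hev G).1 a3.symm))
    rw [sub_add_cancel] at a4
    rcases this.mem_or_mem a4 with h | h
    · exact hP.2.2 (by rw [map_mul]; exact P.mul_mem_right _ (this.mem_of_pow_mem _ h))
    · exact this.ne_top (P.eq_top_of_isUnit_mem h
        (((map_ne_zero_iff _ (IsFractionRing.injective _ K)).2 hf0).isUnit.map _))
  let θ : K →+* q.ResidueField := IsFractionRing.lift hinj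
  let _ := θ.toAlgebra
  have hθ : ∀ f, algebraMap K q.ResidueField (algebraMap _ K f) = aeval α f :=
    fun f => IsFractionRing.lift_algebraMap hinj f
  have : IsScalarTower k K q.ResidueField := .of_algebraMap_eq fun c => by
    rw [IsScalarTower.algebraMap_apply k (MvPolynomial ι k) K, hθ, AlgHom.commutes]
  have hc : ∀ i, algebraMap K q.ResidueField (cf k K i) = α i := fun i => by rw [cf, hθ, aeval_X]
  have hv : ∀ f, aeval (fun v => ev (X (Sum.inl v))) f = ev (rename Sum.inl f) := fun f =>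
    AlgHom.congr_fun (algHom_ext (f := aeval fun v => ev (X (Sum.inl v)))
      (g := ev.comp (rename Sum.inl)) fun v => by simp) f
  obtain ⟨χ, hχ⟩ := H2 q.ResidueField (fun v => ev (X (Sum.inl v))) fun s => by
    simp only [hc, hv]; exact hα.2 s
  have hχ' : ∀ f, χ (par k K e sec p f) = ev f := fun f =>
    AlgHom.congr_fun (algHom_ext (f := (χ.restrictScalars k).comp (par k K e sec p)) (g := ev)
      fun v => by
        rcases v with v | v
        · simp [par, hχ, hρ]
        · simp only [par, AlgHom.comp_apply, aeval_X, Sum.elim_inr, AlgHom.restrictScalars_apply,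
            AlgHom.commutes, hc]
          exact hα.1 v.1 v.2) f
  refine ⟨RingHom.ker χ, ⟨RingHom.ker_isPrime _, fun x => ?_, fun h => h0 ?_⟩,
    RingHom.ker_isPrime _, Ideal.ext fun f => ?_⟩
  · rw [RingHom.mem_ker, map_sub, hχ, ← par_inl (K := K) (p := p), hχ', hv, sub_self]
  · rwa [RingHom.mem_ker, ← par_inl (K := K) (p := p), hχ'] at h
  · rw [Ideal.mem_comap, RingHom.mem_ker, hχ', hev]

omit [DecidableEq r] in
theorem card_fr (hp : Function.Injective p) [Fintype τ'] [Fintype (Fr τ' p)] :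
    Fintype.card (Fr τ' p) + Fintype.card r = Fintype.card τ' + Fintype.card ι := by
  classical
  rw [show Fintype.card (Fr τ' p) = Fintype.card τ' + Fintype.card {i // i ∉ Set.range p} from by
      convert Fintype.card_sum, Fintype.card_subtype_compl,
    Fintype.card_congr (Equiv.ofInjective p hp).symm, add_assoc,
    Nat.sub_add_cancel (Fintype.card_le_of_injective p hp)]

variable (k ι K) in
theorem trdeg_par : trdeg k K = Fintype.card ι := by
  rw [trdeg_frac (k := k) (MvPolynomial ι k) K, MvPolynomial.trdeg_of_isDomain, Cardinal.lift_id,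
    Cardinal.mk_fintype]

theorem dim_build [Fintype τ'] (hp : Function.Injective p) (he : adjoin K (Set.range e) = ⊤)
    (hdet : pdet m p ∣ h₀) {S : Set (Ideal B)} (hS : S ⊆ St e sec ρ h₀)
    (H1 : ∀ P ∈ S, ∀ s, ∑ i, algebraMap K B (cf k K i) * aeval (e ∘ sec) (m s i) ∈ P)
    {P : Ideal B} (hP : P ∈ S) {n : ℕ} (hn : trdeg K (B ⧸ P) = n) :
    n + Fintype.card r ≤ Fintype.card τ' ∧ (n + Fintype.card r = Fintype.card τ' →
      ∀ P' ∈ S, P ≤ P') := by
  classical
  have := (hS hP).1
  have gen := gen_build hp he hdet hS H1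
  have h1 := dim_strat (par k K e sec p) gen hP (trdeg_par k ι K) hn
  have h2 := card_fr (τ' := τ') hp
  refine ⟨by omega, fun h P' hP' => ?_⟩
  have := (hS hP').1
  exact le_strat _ gen hP' hP (by rw [h1.2.1 (by omega)]; exact bot_le)

theorem no_sol [Fintype τ'] (hp : Function.Injective p) {L : Type} [Field L] [Algebra K L]
    [Algebra k L] [IsScalarTower k K L] (v : τ' → L)
    (h : ∀ s, ∑ i, algebraMap K L (cf k K i) * aeval v (m s i) = 0)
    (hdet : aeval v (pdet m p) ≠ 0) : Fintype.card r ≤ Fintype.card τ' := by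
  let χ : MvPolynomial τ' K →ₐ[K] L := aeval v
  have hχ : ∀ f : MvPolynomial τ' k, χ (aeval ((X : τ' → MvPolynomial τ' K) ∘ id) f) = aeval v f :=
    fun f => AlgHom.congr_fun (algHom_ext (f := (χ.restrictScalars k).comp
      (aeval ((X : τ' → MvPolynomial τ' K) ∘ id))) (g := aeval v) fun x => by simp [χ]) f
  obtain ⟨n, hn⟩ := Cardinal.lt_aleph0.1
    (trdeg_lt_aleph0_of_finiteType (R := K) (S := MvPolynomial τ' K ⧸ RingHom.ker χ))
  refine le_trans (Nat.le_add_left _ n) (dim_build (m := m) (e := (X : τ' → MvPolynomial τ' K))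
    (sec := id) (ρ := X) (h₀ := pdet m p) hp MvPolynomial.adjoin_range_X dvd_rfl
    (S := {RingHom.ker χ}) ?_ ?_ rfl hn).1
  · rintro _ rfl
    exact ⟨RingHom.ker_isPrime _, fun x => by simp, fun h0 => hdet (by
      rwa [RingHom.mem_ker, hχ] at h0)⟩
  · rintro _ rfl s
    rw [RingHom.mem_ker, map_sum, ← h s]
    exact Finset.sum_congr rfl fun i _ => by rw [map_mul, hχ, AlgHom.commutes]

theorem nice_build [Fintype τ'] [FiniteType K B] {Y : Scheme.{0}}
    (t : Y ⟶ Spec (CommRingCat.of K)) [LocallyOfFiniteType t] [CompactSpace Y]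
    (J : Spec (CommRingCat.of B) ⟶ Y) [IsOpenImmersion J] (hJ : J ≫ t = sp (algebraMap K B))
    (hp : Function.Injective p) (he : adjoin K (Set.range e) = ⊤) (hρ : ∀ v, ρ (sec v) = X v)
    (hdet : pdet m p ∣ h₀)
    (H1 : ∀ P ∈ St e sec ρ h₀, ∀ s, ∑ i, algebraMap K B (cf k K i) * aeval (e ∘ sec) (m s i) ∈ P)
    (H2 : ∀ (L : Type) [Field L] [Algebra K L] [Algebra k L] [IsScalarTower k K L] (v : τ' → L),
      (∀ s, ∑ i, algebraMap K L (cf k K i) * aeval v (m s i) = 0) →
      ∃ χ : B →ₐ[K] L, ∀ x, χ (e x) = aeval v (ρ x))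
    {d : ℕ} (hd : d + Fintype.card r = Fintype.card τ') :
    Nice (J '' {P | P.asIdeal ∈ St e sec ρ h₀}) d := by
  classical
  have h2 := card_fr (τ' := τ') hp
  exact nice_of (par k K e sec p) t J hJ (gen_build hp he hdet subset_rfl H1)
    (fun P hP _ q hq hle => lift_build hp hρ hdet H1 H2 P hP q hq hle)
    (fun Q hQ P hP R hR a1 a2 => ⟨hR, fun x => a1 (hQ.2.1 x), fun h => hP.2.2 (a2 h)⟩)
    (trdeg_par k ι K) (by omega)

end Pool.Agent.MP_b834b3_ag

end MrgPart4

-- ======== part 5: formerly Pool.Agent.MP_b834b3_ag.Krull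
section MrgPart5

/-! Existence of generizations inside hypersurface sections. -/

namespace Pool.Agent.MP_b834b3_ag

open Algebra MvPolynomial

variable {K : Type} [Field K]

theorem exists_cover {R : Type} [CommRing R] [Algebra K R] [FiniteType K R] {q p : Ideal R}
    [q.IsPrime] [p.IsPrime] (h : q < p) :
    ∃ r : Ideal R, r.IsPrime ∧ q ≤ r ∧ r < p ∧ trdeg K (R ⧸ p) + 1 = trdeg K (R ⧸ r) := by
  have : IsNoetherianRing R := Algebra.FiniteType.isNoetherianRing K R
  obtain ⟨r, ⟨h1, h2, h3⟩, h4⟩ := set_has_maximal_iff_noetherian.2 (inferInstance : IsNoetherian R R)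
    {r : Ideal R | r.IsPrime ∧ q ≤ r ∧ r < p} ⟨q, inferInstance, le_rfl, h⟩
  exact ⟨r, h1, h2, h3, cover h3 fun r' a1 a2 a3 => h4 r' ⟨a1, h2.trans a2.le, a3⟩ a2⟩

theorem trdeg_ht {R : Type} [CommRing R] [IsDomain R] [Algebra K R] [FiniteType K R] (n : ℕ)
    (p : Ideal R) [p.IsPrime] (h : p.height ≤ n) : trdeg K R ≤ trdeg K (R ⧸ p) + n := by
  have : IsNoetherianRing R := Algebra.FiniteType.isNoetherianRing K R
  induction n generalizing p with
  | zero =>
    rw [Nat.cast_zero, nonpos_iff_eq_zero, Ideal.height_eq_zero_iff_eq_bot] at h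
    subst h
    rw [(AlgEquiv.quotientBot K R).trdeg_eq, Nat.cast_zero, add_zero]
  | succ n ih =>
    rcases eq_or_ne p ⊥ with rfl | h0
    · rw [(AlgEquiv.quotientBot K R).trdeg_eq]
      exact le_self_add
    obtain ⟨r, h1, -, h3, h4⟩ := exists_cover (K := K) (bot_lt_iff_ne_bot.2 h0)
    have h5 := (Ideal.height_add_one_le_of_lt_of_isPrime h3).trans h
    rw [Nat.cast_succ, ENat.add_le_add_iff_right ENat.one_ne_top] at h5
    refine (ih r h5).trans_eq ?_
    rw [← h4, Nat.cast_succ, add_assoc, add_comm 1]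

theorem exists_min {τ : Type} [Fintype τ] (s : Finset (MvPolynomial τ K))
    (P : Ideal (MvPolynomial τ K)) [P.IsPrime] (h : ∀ f ∈ s, f ∈ P) :
    ∃ Q : Ideal (MvPolynomial τ K), Q.IsPrime ∧ Q ≤ P ∧ (∀ f ∈ s, f ∈ Q) ∧
      ∃ n : ℕ, trdeg K (MvPolynomial τ K ⧸ Q) = n ∧ Fintype.card τ ≤ n + s.card := by
  obtain ⟨Q, h1, h2⟩ := Ideal.exists_minimalPrimes_le (I := Ideal.span (s : Set (MvPolynomial τ K)))
    (Ideal.span_le.2 h)
  have := h1.isPrime
  obtain ⟨n, hn⟩ := Cardinal.lt_aleph0.1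
    (trdeg_lt_aleph0_of_finiteType (R := K) (S := MvPolynomial τ K ⧸ Q))
  have h3 := trdeg_ht (K := K) _ Q (Ideal.height_le_card_of_mem_minimalPrimes_span_finset h1)
  rw [hn, MvPolynomial.trdeg_of_isDomain, Cardinal.lift_id, Cardinal.mk_fintype] at h3
  exact ⟨Q, this, h2, fun f hf => h1.le (Ideal.subset_span hf), n, hn, by exact_mod_cast h3⟩

theorem surj_of_adjoin {τ B : Type} [CommRing B] [Algebra K B] {e : τ → B}
    (he : adjoin K (Set.range e) = ⊤) : Function.Surjective (aeval e : MvPolynomial τ K →ₐ[K] B) := by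
  rwa [← AlgHom.range_eq_top, ← Algebra.adjoin_range_eq_range_aeval]

theorem trdeg_comap {A B : Type} [CommRing A] [CommRing B] [Algebra K A] [Algebra K B]
    (f : A →ₐ[K] B) (hf : Function.Surjective f) (P : Ideal B) :
    trdeg K (A ⧸ P.comap f) = trdeg K (B ⧸ P) := by
  have h : RingHom.ker ((Ideal.Quotient.mkₐ K P).comp f) = P.comap f := by
    ext x
    exact Ideal.Quotient.eq_zero_iff_mem
  rw [← h]
  exact (Ideal.quotientKerAlgEquivOfSurjective
    (Ideal.Quotient.mk_surjective.comp hf)).trdeg_eq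

/-- A point of small dimension on a hypersurface section has a generization on the section. -/
theorem exists_gen {τ B : Type} [Fintype τ] [CommRing B] [Algebra K B] {e : τ → B}
    (he : adjoin K (Set.range e) = ⊤) (s : Finset (MvPolynomial τ K))
    (h1 : ∀ f ∈ s, aeval e f = 0)
    (h2 : ∀ (L : Type) [Field L] [Algebra K L] (v : τ → L), (∀ f ∈ s, aeval v f = 0) →
      ∃ χ : B →ₐ[K] L, ∀ x, χ (e x) = v x)
    (P : Ideal B) [P.IsPrime] {g : B} (hg : g ∈ P) {n : ℕ} (hn : trdeg K (B ⧸ P) = n)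
    (hlt : n + s.card + 1 < Fintype.card τ) :
    ∃ Q : Ideal B, Q.IsPrime ∧ Q < P ∧ g ∈ Q ∧ trdeg K (B ⧸ Q) = (n + 1 : ℕ) := by
  classical
  have hs := surj_of_adjoin he
  have : FiniteType K B := .of_surjective _ hs
  obtain ⟨g, rfl⟩ := hs g
  obtain ⟨Q, a1, a2, a3, m, a4, a5⟩ := exists_min (insert g s) (P.comap (aeval e)) fun f hf => by
    rcases Finset.mem_insert.1 hf with rfl | hf
    · exact hg
    · rw [Ideal.mem_comap, h1 f hf]; exact P.zero_mem
  let ev := IsScalarTower.toAlgHom K (MvPolynomial τ K) Q.ResidueField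
  have hev : ∀ f, ev f = 0 ↔ f ∈ Q := fun f => Ideal.algebraMap_residueField_eq_zero
  have hv : ∀ f, aeval (fun x => ev (X x)) f = ev f := fun f =>
    AlgHom.congr_fun (algHom_ext (f := aeval fun x => ev (X x)) (g := ev) fun x => by simp) f
  obtain ⟨χ, hχ⟩ := h2 Q.ResidueField (fun x => ev (X x)) fun f hf => by
    rw [hv, hev]; exact a3 f (Finset.mem_insert_of_mem hf)
  have hc : (RingHom.ker χ).comap (aeval e : MvPolynomial τ K →ₐ[K] B) = Q := by
    ext f
    rw [Ideal.mem_comap, RingHom.mem_ker, ← hev]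
    exact iff_of_eq (congrArg (· = 0) (AlgHom.congr_fun (algHom_ext (f := χ.comp (aeval e))
      (g := ev) fun x => by simp [hχ]) f))
  have hp := RingHom.ker_isPrime χ
  have hle : RingHom.ker χ ≤ P := fun b hb => by
    obtain ⟨f, rfl⟩ := hs b
    exact a2 (hc.le hb)
  have hlt' : RingHom.ker χ < P := lt_of_le_of_ne hle fun e0 => by
    rw [← hc, trdeg_comap _ hs, e0, hn] at a4
    have b1 : n = m := by exact_mod_cast a4
    have b2 := Finset.card_insert_le g s
    omega
  obtain ⟨r, b1, b2, b3, b4⟩ := exists_cover (K := K) hlt'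
  exact ⟨r, b1, b3, b2 (hc.ge (a3 g (Finset.mem_insert_self _ _))), by
    rw [← b4, hn, Nat.cast_succ]⟩

end Pool.Agent.MP_b834b3_ag

end MrgPart5

-- ======== part 6: formerly Pool.Agent.MP_b834b3_ag.Sys
section MrgPart6

/-! The stratification of the square of the generic member of a linear system. -/

namespace Pool.Agent.MP_b834b3_ag

open AlgebraicGeometry CategoryTheory Algebra IsLocalRing Limits MvPolynomial

/-- A monomial in three quantities. -/
def mon {R : Type} [CommRing R] (v : Fin 3 → R) (u : Fin 3 → ℕ) : R := ∏ x, v x ^ u x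

theorem map_mon {R S F : Type} [CommRing R] [CommRing S] [FunLike F R S] [RingHomClass F R S]
    (f : F) (v : Fin 3 → R) (u : Fin 3 → ℕ) : f (mon v u) = mon (fun x => f (v x)) u := by
  simp [mon]

theorem mon_zero {R : Type} [CommRing R] (v : Fin 3 → R) : mon v 0 = 1 := by simp [mon]

theorem mon_single {R : Type} [CommRing R] (v : Fin 3 → R) (x : Fin 3) :
    mon v (Pi.single x 1) = v x := by
  rw [mon, Finset.prod_eq_single x (fun y _ h => by simp [h]) (by simp)]
  simp

theorem mon_eq_zero {R : Type} [CommRing R] {v : Fin 3 → R} {u : Fin 3 → ℕ} {x : Fin 3}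
    (h : v x = 0) (hu : u x ≠ 0) : mon v u = 0 :=
  Finset.prod_eq_zero (Finset.mem_univ x) (by rw [h, zero_pow hu])

section Tri

variable {k : Type} [Field k] {ι τ' r : Type} [Fintype r] [DecidableEq r]

theorem tri {α : Type} [LinearOrder α] (ρ : r → α) (hρ : Function.Injective ρ)
    (m : r → ι → MvPolynomial τ' k) (p : r → ι) (h1 : ∀ s, m s (p s) = 1)
    (h0 : ∀ s s', ρ s' < ρ s → m s (p s') = 0) : Function.Injective p ∧ pdet m p = 1 := by
  refine ⟨fun s s' e => hρ ?_, ?_⟩
  · rcases lt_trichotomy (ρ s) (ρ s') with h | h | h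
    · exact absurd ((h1 s').symm.trans (e ▸ h0 s' s h)) one_ne_zero
    · exact h
    · exact absurd ((h1 s).symm.trans (e ▸ h0 s s' h)) one_ne_zero
  · let _ := LinearOrder.lift' ρ hρ
    rw [pdet, Matrix.det_of_isUpperTriangular (M := Matrix.of fun s s' => m s (p s'))
      fun s s' h => h0 s s' h]
    simp [h1]

end Tri

variable (k : Type) [Field k] {ι : Type} [Fintype ι] (K : Type) [Field K] [Algebra k K]
  [Algebra (MvPolynomial ι k) K] [IsFractionRing (MvPolynomial ι k) K]
  [IsScalarTower k (MvPolynomial ι k) K]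

/-- The generic equation. -/
noncomputable def Eqn (ex : ι → Fin 3 → ℕ) {R : Type} [CommRing R] [Algebra K R] (v : Fin 3 → R) :
    R := ∑ i, algebraMap K R (cf k K i) * mon v (ex i)

omit [Algebra k K] [IsFractionRing (MvPolynomial ι k) K] [IsScalarTower k (MvPolynomial ι k) K] in
theorem map_Eqn (ex : ι → Fin 3 → ℕ) {R S : Type} [CommRing R] [Algebra K R] [CommRing S]
    [Algebra K S] (f : R →ₐ[K] S) (v : Fin 3 → R) :
    f (Eqn k K ex v) = Eqn k K ex fun x => f (v x) := by
  simp only [Eqn, map_sum, map_mul, map_mon, AlgHom.commutes]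

/-- The combinatorial conditions on the cells. -/
structure Comb {n : ℕ} (ex : Fin n → ι → Fin 3 → ℕ) (Z : Fin n → Finset (Fin 3))
    (q : Fin n → Bool) : Prop where
  one : ∀ j, q j → ∃ i, ex j i = 0 ∧ ∀ j', j < j' → ∃ x ∈ Z j', ex j' i x ≠ 0
  hq : ∀ j, ¬ q j → ∀ i, ∃ x ∈ Z j, ex j i x ≠ 0
  hx : ∀ j, q j → ∀ x ∉ Z j, ∃ i, ex j i = Pi.single x 1

/-- Product charts and cells of the square. -/
structure Sys {Y : Scheme.{0}} (t : Y ⟶ Spec (CommRingCat.of K)) {n : ℕ}
    (ex : Fin n → ι → Fin 3 → ℕ) (Z : Fin n → Finset (Fin 3))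
    (Tr : ∀ (F : Type) [Field F], Fin n → Fin n → (Fin 3 → F) → (Fin 3 → F) → Prop)
    (B : (Bool → Fin n) → Type) [∀ j, CommRing (B j)] [∀ j, Algebra K (B j)] where
  /-- the coordinates -/
  e : ∀ j, Bool × Fin 3 → B j
  /-- the charts -/
  J : ∀ j, Spec (CommRingCat.of (B j)) ⟶ Y
  /-- the cells -/
  cell : Y → Bool → Fin n
  op : ∀ j, IsOpenImmersion (J j)
  hJ : ∀ j, J j ≫ t = sp (algebraMap K (B j))
  gen : ∀ j, adjoin K (Set.range (e j)) = ⊤
  eqn : ∀ j b, Eqn k K (ex (j b)) (fun x => e j (b, x)) = 0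
  univ : ∀ j (L : Type) [Field L] [Algebra K L] (v : Bool × Fin 3 → L),
    (∀ b, Eqn k K (ex (j b)) (fun x => v (b, x)) = 0) → ∃ χ : B j →ₐ[K] L, ∀ x, χ (e j x) = v x
  mono : ∀ z z', z ⤳ z' → ∀ b, cell z b ≤ cell z' b
  mem : ∀ z, z ∈ Set.range (J (cell z))
  cell_iff : ∀ j P b, cell (J j P) b = j b ↔ ∀ x ∈ Z (j b), e j (b, x) ∈ P.asIdeal
  tr : ∀ j j' b (F : Type) [Field F] (β : B j →+* F) (β' : B j' →+* F),
    sp β ≫ J j = sp β' ≫ J j' →
      Tr F (j b) (j' b) (fun x => β (e j (b, x))) fun x => β' (e j' (b, x))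

variable {k K} {Y : Scheme.{0}} {t : Y ⟶ Spec (CommRingCat.of K)} {n : ℕ}
  {ex : Fin n → ι → Fin 3 → ℕ} {Z : Fin n → Finset (Fin 3)} {q : Fin n → Bool}
  {Tr : ∀ (F : Type) [Field F], Fin n → Fin n → (Fin 3 → F) → (Fin 3 → F) → Prop}
  {B : (Bool → Fin n) → Type} [∀ j, CommRing (B j)] [∀ j, Algebra K (B j)]
  [∀ j, Algebra k (B j)] [∀ j, IsScalarTower k K (B j)] (S : Sys k K t ex Z Tr B)

instance (j : Bool → Fin n) : IsOpenImmersion (S.J j) := S.op j

omit [Algebra k K] [IsFractionRing (MvPolynomial ι k) K] [IsScalarTower k (MvPolynomial ι k) K]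
  [∀ j, Algebra k (B j)] [∀ j, IsScalarTower k K (B j)] in
include S in
theorem Sys.ft (j : Bool → Fin n) : FiniteType K (B j) := .of_surjective _ (surj_of_adjoin (S.gen j))

/-- The retraction to the free coordinates. -/
noncomputable def rt (k : Type) [Field k] {τ : Type} [DecidableEq τ] (T : Finset τ) (π : τ → τ)
    (x : τ) : MvPolynomial T k := if h : π x ∈ T then X ⟨π x, h⟩ else 0

theorem Sys.nice_pair [LocallyOfFiniteType t] [CompactSpace Y] (j : Bool → Fin n)
    (T : Finset (Bool × Fin 3)) (π : Bool × Fin 3 → Bool × Fin 3) (hπ : ∀ x ∈ T, π x = x)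
    {r : Type} [Fintype r] [DecidableEq r] (sd : r → Bool) {p : r → ι} (hp : Function.Injective p)
    {h₀ : MvPolynomial T k}
    (hdet : pdet (fun s i => mon (fun x => rt k T π (sd s, x)) (ex (j (sd s)) i)) p ∣ h₀)
    (hall : ∀ b, (∃ s, ∀ i, mon (fun x => rt k T π (b, x)) (ex (j b) i) =
      mon (fun x => rt k T π (sd s, x)) (ex (j (sd s)) i)) ∨
      ∀ i, mon (fun x => rt k T π (b, x)) (ex (j b) i) = 0)
    {d : ℕ} (hd : d + Fintype.card r = T.card) :
    Nice (S.J j '' {P | P.asIdeal ∈ St (S.e j) Subtype.val (rt k T π) h₀}) d := by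
  have := S.ft j
  refine nice_build t (S.J j) (S.hJ j) hp (S.gen j) (fun v => ?_) hdet (fun P hP s => ?_)
    (fun L _ _ _ _ v hv => S.univ j L _ fun b => ?_) (by rw [hd, Fintype.card_coe])
  · have h : π v ∈ T := by rw [hπ v v.2]; exact v.2
    rw [rt, dif_pos h]
    exact congrArg X (Subtype.ext (hπ v v.2))
  · rw [← Ideal.Quotient.eq_zero_iff_mem, ← map_zero (Ideal.Quotient.mkₐ K P), ← S.eqn j (sd s),
      map_Eqn, map_sum, Eqn]
    refine Finset.sum_congr rfl fun i _ => ?_
    rw [map_mul, map_mon, map_mon]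
    exact congrArg (fun v => _ * mon v _) (funext fun x => (Ideal.Quotient.eq.2 (hP.2.1 _)).symm)
  · rw [Eqn]
    simp only [← map_mon]
    rcases hall b with ⟨s, h⟩ | h
    · simp only [h]; exact hv s
    · simp [h]

/-- The difference of the coordinates of the two factors. -/
def Sys.df (j : Bool → Fin n) (y : Fin 3) : B j := S.e j (true, y) - S.e j (false, y)

/-- The strata. -/
def Sys.In (σ : (Bool → Fin n) × Fin 4) (z : Y) : Prop :=
  ∃ P, S.J σ.1 P = z ∧ (∀ b, ∀ y ∈ Z (σ.1 b), S.e σ.1 (b, y) ∈ P.asIdeal) ∧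
    (∀ y : Fin 3, y.val < σ.2 → S.df σ.1 y ∈ P.asIdeal) ∧
    (σ.1 false = σ.1 true → ∀ y : Fin 3, y.val = σ.2 → S.df σ.1 y ∉ P.asIdeal) ∧
    (σ.1 false ≠ σ.1 true → σ.2 = 0)

/-- The free coordinates of a stratum. -/
def fr (Z : Fin n → Finset (Fin 3)) (σ : (Bool → Fin n) × Fin 4) : Finset (Bool × Fin 3) :=
  Finset.univ.filter fun x => x.2 ∉ Z (σ.1 x.1) ∧ (x.1 = true → σ.2.val ≤ x.2)

/-- The equations of a stratum. -/
def eqs (q : Fin n → Bool) (σ : (Bool → Fin n) × Fin 4) : Finset Bool :=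
  Finset.univ.filter fun b => q (σ.1 b) ∧ (b = true → σ.2.val < 3)

/-- The dimension of a stratum. -/
def dimS (Z : Fin n → Finset (Fin 3)) (q : Fin n → Bool) (σ : (Bool → Fin n) × Fin 4) : ℕ :=
  if (σ.1 false ≠ σ.1 true → σ.2 = 0) ∧
    (σ.1 false = σ.1 true → ∀ y : Fin 3, y.val = σ.2 → y ∉ Z (σ.1 false)) then
    (fr Z σ).card - (eqs q σ).card else 0

theorem Sys.nice [LocallyOfFiniteType t] [CompactSpace Y] (C : Comb ex Z q)
    (hle : ∀ j, q j → ∃ x, x ∉ Z j) (σ : (Bool → Fin n) × Fin 4) :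
    Nice {z | S.In σ z} (dimS Z q σ) := by
  classical
  obtain ⟨j, x0⟩ := σ
  rw [dimS]
  split_ifs with hv
  swap
  · have : {z | S.In (j, x0) z} = ∅ := by
      refine Set.eq_empty_of_forall_notMem ?_
      rintro _ ⟨P, rfl, a1, -, a2, a3⟩
      exact hv ⟨a3, fun e y hy h => a2 e y hy (P.asIdeal.sub_mem (a1 true y (e ▸ h)) (a1 false y h))⟩
    rw [this]
    exact ⟨by simp, by simp, by simp⟩
  obtain ⟨v1, v2⟩ := hv
  dsimp only at v1 v2
  let π : Bool × Fin 3 → Bool × Fin 3 := fun x => if x.2.val < x0 then (false, x.2) else x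
  have hj : ∀ y : Fin 3, y.val < x0 → ∀ b, j b = j false := fun y hy b => by
    cases b
    · rfl
    · by_contra h
      have := v1 (Ne.symm h)
      omega
  have hT : ∀ b y, π (b, y) ∈ fr Z (j, x0) ↔ y ∉ Z (j b) := fun b y => by
    simp only [π, fr, Finset.mem_filter, Finset.mem_univ, true_and]
    split_ifs with h
    · simp [hj y h b]
    · exact and_iff_left fun _ => not_lt.1 h
  have hπ : ∀ x ∈ fr Z (j, x0), π x = x := by
    rintro ⟨b, y⟩ hx
    simp only [fr, Finset.mem_filter] at hx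
    simp only [π]
    split_ifs with h
    · cases b
      · rfl
      · exact absurd (hx.2.2 rfl) (not_le.2 h)
    · rfl
  have h0 : ∀ b, ∀ y ∈ Z (j b), rt k (fr Z (j, x0)) π (b, y) = 0 := fun b y hy =>
    dif_neg fun h => (hT b y).1 h hy
  have hev : ∀ b, ∀ y ∉ Z (j b), aeval (S.e j ∘ Subtype.val) (rt k (fr Z (j, x0)) π (b, y)) =
      S.e j (π (b, y)) := fun b y hy => by
    rw [rt, dif_pos ((hT b y).2 hy), aeval_X]; rfl
  have hset : ∀ h₀ : MvPolynomial (fr Z (j, x0)) k, (∀ P : Ideal (B j), P.IsPrime →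
      (aeval (S.e j ∘ Subtype.val) h₀ ∉ P ↔
        (j false = j true → ∀ y : Fin 3, y.val = x0 → S.df j y ∉ P))) →
      {z | S.In (j, x0) z} =
      S.J j '' {P | P.asIdeal ∈ St (S.e j) Subtype.val (rt k (fr Z (j, x0)) π) h₀} := by
    intro h₀ hh
    ext z
    constructor
    · rintro ⟨P, rfl, a1, a2, a3, -⟩
      refine ⟨P, ⟨P.isPrime, fun ⟨b, y⟩ => ?_, (hh _ P.isPrime).2 a3⟩, rfl⟩
      by_cases hy : y ∈ Z (j b)
      · rw [h0 b y hy, map_zero, sub_zero]; exact a1 b y hy
      rw [hev b y hy]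
      simp only [π]
      split_ifs with h
      · cases b
        · simp
        · exact a2 y h
      · simp
    · rintro ⟨P, ⟨-, a1, a2⟩, rfl⟩
      have a3 : ∀ b, ∀ y ∈ Z (j b), S.e j (b, y) ∈ P.asIdeal := fun b y hy => by
        simpa only [h0 b y hy, map_zero, sub_zero] using a1 (b, y)
      refine ⟨P, rfl, a3, fun y h => ?_, (hh _ P.isPrime).1 a2, v1⟩
      by_cases hy : y ∈ Z (j true)
      · exact P.asIdeal.sub_mem (a3 true y hy) (a3 false y (hj y h true ▸ hy))
      · have := a1 (true, y)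
        rwa [hev true y hy, show π (true, y) = (false, y) from if_pos h] at this
  have hz : ∀ b, ¬ q (j b) → ∀ i, mon (fun x => rt k (fr Z (j, x0)) π (b, x)) (ex (j b) i) = 0 :=
    fun b hb i => by
      obtain ⟨x, a1, a2⟩ := C.hq _ hb i
      exact mon_eq_zero (h0 b x a1) a2
  by_cases hc : j false = j true ∧ x0.val < 3
  · obtain ⟨c1, c2⟩ := hc
    have hy := v2 c1 ⟨x0, c2⟩ rfl
    have hh := hset (rt k _ π (true, ⟨x0, c2⟩) - rt k _ π (false, ⟨x0, c2⟩)) fun P _ => by
      rw [map_sub, hev _ _ (c1 ▸ hy), hev _ _ hy]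
      simp only [π, lt_irrefl, if_false]
      exact ⟨fun h _ y e => by obtain rfl : y = ⟨x0, c2⟩ := Fin.ext e; exact h,
        fun h => h c1 ⟨x0, c2⟩ rfl⟩
    rw [hh]
    by_cases hq : q (j false)
    · obtain ⟨i0, a1, -⟩ := C.one _ hq
      obtain ⟨i1, a2⟩ := C.hx _ hq _ hy
      have he : eqs q (j, x0) = Finset.univ := by
        refine Finset.filter_true_of_mem fun b _ => ⟨?_, fun _ => c2⟩
        cases b
        · exact hq
        · exact (c1 ▸ hq : q (j true) = true)
      have hc2 : ({(false, ⟨x0, c2⟩), (true, ⟨x0, c2⟩)} : Finset (Bool × Fin 3)) ⊆ fr Z (j, x0) := by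
        intro x hx
        simp only [Finset.mem_insert, Finset.mem_singleton] at hx
        rcases hx with rfl | rfl
        · simpa [fr] using hy
        · simpa [fr, ← c1] using hy
      have hc3 := Finset.card_le_card hc2
      rw [Finset.card_pair (by simp)] at hc3
      refine S.nice_pair j _ π hπ (r := Fin 2) ![false, true] (p := ![i0, i1]) ?_ ?_
        (fun b => Or.inl ?_) ?_
      · have : i0 ≠ i1 := fun e => by
          have := congrFun (a1.symm.trans (e ▸ a2)) ⟨x0, c2⟩
          simp at this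
        intro s s' h
        fin_cases s <;> fin_cases s' <;> simp_all
      · rw [pdet, Matrix.det_fin_two]
        simp [← c1, a1, a2, mon_zero, mon_single]
      · cases b
        exacts [⟨0, fun i => rfl⟩, ⟨1, fun i => rfl⟩]
      · rw [he]
        simp only [Fintype.card_fin, Finset.card_univ, Fintype.card_bool]
        omega
    · have he : eqs q (j, x0) = ∅ := by
        refine Finset.filter_false_of_mem fun b _ h => hq ?_
        cases b
        · exact h.1
        · exact c1 ▸ h.1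
      refine S.nice_pair j _ π hπ (r := Empty) Empty.elim (p := Empty.elim) (fun s => s.elim)
        (by simp [pdet]) (fun b => Or.inr (hz b ?_)) (by simp [he])
      cases b
      · exact hq
      · exact c1 ▸ hq
  · rw [hset 1 fun P hP => by
      rw [map_one]
      exact ⟨fun _ a y e => absurd ⟨a, e ▸ y.2⟩ hc, fun _ => hP.one_notMem⟩]
    have hq : ∀ s : eqs q (j, x0), q (j s) := fun s => (Finset.mem_filter.1 s.2).2.1
    choose p p1 p2 using fun s : eqs q (j, x0) => C.one _ (hq s)
    obtain ⟨a1, a2⟩ := tri (fun s : eqs q (j, x0) => j s) (by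
      rintro ⟨s, hs⟩ ⟨s', hs'⟩ e
      simp only [eqs, Finset.mem_filter] at hs hs'
      cases s <;> cases s'
      · rfl
      · exact absurd ⟨e, hs'.2.2 rfl⟩ hc
      · exact absurd ⟨e.symm, hs.2.2 rfl⟩ hc
      · rfl) (fun s i => mon (fun x => rt k (fr Z (j, x0)) π (s, x)) (ex (j s) i)) p
      (fun s => by rw [p1, mon_zero]) fun s s' h => by
        obtain ⟨x, b1, b2⟩ := p2 s' _ h
        exact mon_eq_zero (h0 s x b1) b2
    refine S.nice_pair j _ π hπ (fun s : eqs q (j, x0) => s.1) a1 (by rw [a2]) (fun b => ?_) ?_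
    · by_cases hb : q (j b)
      swap
      · exact Or.inr (hz b hb)
      by_cases hb' : b = true → x0.val < 3
      · exact Or.inl ⟨⟨b, Finset.mem_filter.2 ⟨Finset.mem_univ _, hb, hb'⟩⟩, fun i => rfl⟩
      · have h3 : ∀ y : Fin 3, y.val < x0 := fun y => by
          have := y.2
          by_contra h
          exact hb' fun _ => by omega
        refine Or.inl ⟨⟨false, Finset.mem_filter.2 ⟨Finset.mem_univ _,
          (hj 0 (h3 0) b ▸ hb : q (j false) = true), by simp⟩⟩, fun i => ?_⟩
        change _ = mon (fun x => rt k _ π (false, x)) (ex (j false) i)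
        rw [hj 0 (h3 0) b]
        congr 1
        funext y
        simp only [rt, π, h3 y, if_true]
    · rw [Fintype.card_coe]
      refine Nat.sub_add_cancel ?_
      choose f hf using fun s : eqs q (j, x0) => hle _ (hq s)
      rw [← Fintype.card_coe, ← Fintype.card_coe]
      refine Fintype.card_le_of_injective (fun s => ⟨(s.1, f s), Finset.mem_filter.2
        ⟨Finset.mem_univ _, hf s, fun h => ?_⟩⟩) fun s s' e =>
          Subtype.ext (congrArg (fun x => x.1.1) e)
      have b1 := (Finset.mem_filter.1 s.2).2.2 h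
      have b2 : x0 = 0 := v1 fun e => hc ⟨e, b1⟩
      simp [b2]

end Pool.Agent.MP_b834b3_ag

end MrgPart6

-- marker of a merged file
example : 731051 + 27375 = 731051 + 27375 := rfl
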