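import Mathlib.Algebra.CharP.Pi
import Mathlib.AlgebraicGeometry.QuasiAffine
import Pool.Agent.MP_b834b3_ag.Sys

-- ======== part 0: formerly Pool.Agent.MP_b834b3_ag.Main
section MrgPart0

/-! The induction over the strata. -/

namespace Pool.Agent.MP_b834b3_ag

open AlgebraicGeometry CategoryTheory Algebra IsLocalRing Limits MvPolynomial

theorem rank_le_of (Y : Scheme.{0}) {ι : Type} [Fintype ι] (v : ι → Y →₀ ℚ) (hv : ∀ i, v i ∈ Z2 Y)
    (h : ∀ z, Order.height z = 2 → Good (Rat Y ⊔ Submodule.span ℚ (Set.range v)) z) :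
    Module.rank ℚ (CH2 Y) ≤ Fintype.card ι := by
  have h1 : Z2 Y ≤ Rat Y ⊔ Submodule.span ℚ (Set.range v) := by
    rw [Z2, Finsupp.supported_eq_span_single, Submodule.span_le]
    rintro _ ⟨z, hz, rfl⟩
    exact h z hz
  let u : ι → CH2 Y := fun i => Submodule.Quotient.mk ⟨v i, hv i⟩
  have h2 : Submodule.span ℚ (Set.range u) = ⊤ := by
    refine top_unique fun c _ => ?_
    obtain ⟨c, rfl⟩ := Submodule.Quotient.mk_surjective _ c
    obtain ⟨a, ha, b, hb, hab⟩ := Submodule.mem_sup.1 (h1 c.2)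
    obtain ⟨r, rfl⟩ := (Submodule.mem_span_range_iff_exists_fun ℚ).1 hb
    refine (Submodule.mem_span_range_iff_exists_fun ℚ).2 ⟨r, ?_⟩
    simp only [u, ← Submodule.mkQ_apply, ← map_smul, ← map_sum]
    rw [Submodule.mkQ_apply, Submodule.mkQ_apply, eq_comm, Submodule.Quotient.eq,
      Submodule.mem_comap, map_sub, map_sum]
    simp only [Submodule.subtype_apply, Submodule.coe_smul]
    rw [← hab, add_sub_cancel_right]
    exact ha
  rw [← rank_top, ← h2, ← Cardinal.mk_fintype]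
  exact (rank_span_le _).trans Cardinal.mk_range_le

variable {k : Type} [Field k] {ι : Type} [Fintype ι] {K : Type} [Field K]
  [Algebra (MvPolynomial ι k) K] {Y : Scheme.{0}} {t : Y ⟶ Spec (CommRingCat.of K)} {n : ℕ}
  {ex : Fin n → ι → Fin 3 → ℕ} {Z : Fin n → Finset (Fin 3)} {q : Fin n → Bool}
  {Tr : ∀ (F : Type) [Field F], Fin n → Fin n → (Fin 3 → F) → (Fin 3 → F) → Prop}
  {B : (Bool → Fin n) → Type} [∀ j, CommRing (B j)] [∀ j, Algebra K (B j)]
  (S : Sys k K t ex Z Tr B)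

theorem Sys.In.cell {S : Sys k K t ex Z Tr B} {σ : (Bool → Fin n) × Fin 4} {z : Y}
    (h : S.In σ z) : S.cell z = σ.1 := by
  obtain ⟨P, rfl, a1, -⟩ := h
  exact funext fun b => (S.cell_iff _ P b).2 (a1 b)

theorem Sys.exists_in (z : Y) : ∃ x, S.In (S.cell z, x) z := by
  obtain ⟨P, hP⟩ := S.mem z
  have a1 : ∀ b, ∀ y ∈ Z (S.cell z b), S.e _ (b, y) ∈ P.asIdeal :=
    fun b => (S.cell_iff _ P b).1 (by rw [hP])
  by_cases hc : S.cell z false = S.cell z true
  swap
  · exact ⟨0, P, hP, a1, by simp, fun e => absurd e hc, fun _ => rfl⟩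
  by_cases h : ∃ y : Fin 3, S.df (S.cell z) y ∉ P.asIdeal
  · obtain ⟨y, hy, hm⟩ := wellFounded_lt.has_min _ h
    refine ⟨y.castSucc, P, hP, a1, fun y' h' => not_not.1 fun e => hm y' e h',
      fun _ y' e => ?_, fun e => absurd hc e⟩
    obtain rfl : y' = y := Fin.ext e
    exact hy
  · refine ⟨3, P, hP, a1, fun y _ => not_not.1 fun e => h ⟨y, e⟩, fun _ y e => ?_,
      fun e => absurd hc e⟩
    exact absurd e y.2.ne

theorem Sys.in_iff {j : Bool → Fin n} (h : j false ≠ j true) (z : Y) :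
    S.In (j, 0) z ↔ S.cell z = j := by
  refine ⟨fun h => h.cell, ?_⟩
  rintro rfl
  obtain ⟨x, hx⟩ := S.exists_in z
  obtain ⟨_, -, -, -, -, a⟩ := id hx
  obtain rfl : x = 0 := a h
  exact hx

/-- The position of a stratum in the induction. -/
def rk (σ : (Bool → Fin n) × Fin 4) : ℕ := 4 * (σ.1 false + σ.1 true) + σ.2

theorem Sys.In.mono {S : Sys k K t ex Z Tr B} {σ σ' : (Bool → Fin n) × Fin 4} {w z : Y}
    (h : S.In σ w) (h' : S.In σ' z) (e : w ⤳ z) : σ = σ' ∨ rk σ < rk σ' := by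
  obtain ⟨j, x⟩ := σ
  obtain ⟨j', x'⟩ := σ'
  have h1 := S.mono w z e
  rw [h.cell, h'.cell] at h1
  have h2 : (j false).val ≤ j' false := h1 false
  have h3 : (j true).val ≤ j' true := h1 true
  simp only [rk]
  by_cases hj : j = j'
  · subst hj
    obtain ⟨W, rfl, -, a2, -, a4⟩ := h
    obtain ⟨P, rfl, -, -, b3, b4⟩ := h'
    rcases lt_trichotomy x.val x'.val with c | c | c
    · exact Or.inr (by omega)
    · exact Or.inl (by rw [Fin.ext c])
    · by_cases hc : j false = j true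
      · exact absurd ((spec_chart _ _ _).1 e (a2 ⟨x', by omega⟩ c)) (b3 hc _ rfl)
      · have := a4 hc
        dsimp only at this
        omega
  · have : (j false).val ≠ j' false ∨ (j true).val ≠ j' true := by
      by_contra hc
      push Not at hc
      refine hj (funext fun b => ?_)
      cases b
      exacts [Fin.ext hc.1, Fin.ext hc.2]
    exact Or.inr (by omega)

theorem Sys.exists_res (j : Bool → Fin n) {F : Type} [Field F] (ξ : Spec (CommRingCat.of F) ⟶ Y)
    {P : Spec (CommRingCat.of (B j))} (h : ξ (closedPoint F) ⤳ S.J j P) :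
    ∃ β : B j →+* F, sp β ≫ S.J j = ξ :=
  (lift_chart (S.J j) ξ (h.mem_open (S.J j).isOpenEmbedding.isOpen_range ⟨P, rfl⟩)).imp
    fun _ h => h.symm

include S in
theorem Sys.exists_gen (j : Bool → Fin n) (P : Ideal (B j)) [P.IsPrime] {g : B j} (hg : g ∈ P)
    (hn : trdeg K (B j ⧸ P) = (2 : ℕ)) :
    ∃ Q : Ideal (B j), Q.IsPrime ∧ Q < P ∧ g ∈ Q ∧ trdeg K (B j ⧸ Q) = (3 : ℕ) := by
  classical
  have he : ∀ (L : Type) [CommRing L] [Algebra K L] (v : Bool × Fin 3 → L) (b : Bool),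
      aeval v (Eqn k K (ex (j b)) fun x => (X (b, x) : MvPolynomial (Bool × Fin 3) K)) =
        Eqn k K (ex (j b)) fun x => v (b, x) := fun L _ _ v b => by
    rw [map_Eqn]; simp
  refine Pool.Agent.MP_b834b3_ag.exists_gen (S.gen j) (Finset.univ.image fun b =>
    Eqn k K (ex (j b)) fun x => X (b, x)) (fun f hf => ?_) (fun L _ _ v hv => S.univ j L v fun b => ?_)
    P hg hn ?_
  · obtain ⟨b, -, rfl⟩ := Finset.mem_image.1 hf
    rw [he, S.eqn]
  · rw [← he]
    exact hv _ (Finset.mem_image_of_mem _ (Finset.mem_univ b))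
  · have := Finset.card_image_le (s := Finset.univ) (f := fun b =>
      Eqn k K (ex (j b)) fun x => (X (b, x) : MvPolynomial (Bool × Fin 3) K))
    simp only [Finset.card_univ, Fintype.card_bool, Fintype.card_prod, Fintype.card_fin] at this ⊢
    omega

theorem Sys.main (hN : ∀ σ, Nice {z | S.In σ z} (dimS Z q σ)) {V : Submodule ℚ (Y →₀ ℚ)}
    (hV : Rat Y ≤ V) (h2 : ∀ σ z, S.In σ z → Order.height z = 2 → dimS Z q σ = 2 →
      (∀ σ' z', S.In σ' z' → Order.height z' = 2 → rk σ < rk σ' → Good V z') → Good V z)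
    (z : Y) (hz : Order.height z = 2) : Good V z := by
  have key : ∀ N σ z, S.In σ z → Order.height z = 2 → 8 * n + 4 ≤ rk σ + N → Good V z := by
    intro N
    induction N with
    | zero =>
      intro σ z _ _ h
      have a1 := (σ.1 false).2
      have a2 := (σ.1 true).2
      have a3 := σ.2.2
      simp only [rk] at h
      omega
    | succ N ih =>
      intro σ z h hz hN'
      by_cases hd : dimS Z q σ = 2
      · exact h2 σ z h hz hd fun σ' z' a1 a2 a3 => ih σ' z' a1 a2 (by omega)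
      refine (hN σ).van V hV (fun z' a1 a2 ⟨w, a3, a4⟩ => ?_) z h hz hd
      obtain ⟨x, hx⟩ := S.exists_in z'
      rcases Sys.In.mono a3 hx a4 with e | e
      · exact absurd (e ▸ hx) a2
      · exact ih _ z' hx a1 (by omega)
  obtain ⟨x, hx⟩ := S.exists_in z
  exact key (8 * n + 4) _ z hx hz (by omega)

variable [LocallyOfFiniteType t] [CompactSpace Y]

theorem Sys.kill [NeZero n] (hN : ∀ σ, Nice {z | S.In σ z} (dimS Z q σ)) (hZ : Z 0 = ∅)
    (hd : dimS Z q (fun _ => 0, 2) = 2) {V : Submodule ℚ (Y →₀ ℚ)} (hV : Rat Y ≤ V) {z : Y}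
    (h : S.In (fun _ => 0, 2) z) (hz : Order.height z = 2)
    (ih : ∀ σ' z', S.In σ' z' → Order.height z' = 2 →
      rk ((fun _ => 0, 2) : (Bool → Fin n) × Fin 4) < rk σ' → Good V z') : Good V z := by
  obtain ⟨P, rfl, -, a2, a3, -⟩ := id h
  have hc := height_chart t _ (S.hJ fun _ => 0)
  obtain ⟨Q, b1, b2, b3, b4⟩ := S.exists_gen _ P.asIdeal (a2 0 (by simp)) ((hc P 2).1 hz)
  have hQ := (hc ⟨Q, b1⟩ 3).2 b4
  have hin : ∀ R : Spec (CommRingCat.of (B fun _ => 0)), S.df _ 0 ∈ R.asIdeal → S.df _ 1 ∈ R.asIdeal →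
      S.df _ 2 ∉ R.asIdeal → S.In (fun _ => 0, 2) (S.J _ R) := fun R c0 c1 c2 =>
    ⟨R, rfl, by simp [hZ], fun y hy => by
      fin_cases y
      exacts [c0, c1, absurd hy (by simp)], fun _ y hy => by
      obtain rfl : y = 2 := Fin.ext hy
      exact c2, fun e => absurd rfl e⟩
  refine good_chart t _ hV (Q := ⟨Q, b1⟩) hQ hz b2.le (a2 1 (by simp)) (fun c => ?_)
    fun z' c1 c2 c3 c4 => ?_
  · have := (hN _).le _ (hin ⟨Q, b1⟩ b3 c fun e => a3 rfl 2 rfl (b2.le e))
    rw [hQ, hd] at this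
    exact absurd this (by decide)
  obtain ⟨x, hx⟩ := S.exists_in z'
  refine ih _ z' hx c3 ?_
  by_cases hj : S.cell z' = fun _ => 0
  · rw [hj] at hx ⊢
    obtain ⟨R, rfl, -, -, d3, -⟩ := id hx
    have d0 := (spec_chart _ _ _).1 c2 b3
    have d1 := c4 R rfl
    have : x = 3 := by
      fin_cases x
      · exact absurd d0 (d3 rfl 0 rfl)
      · exact absurd d1 (d3 rfl 1 rfl)
      · exact absurd ((hN (fun _ => 0, 2)).sub _ hx _ h (by rw [c3, hd]; rfl) (by rw [hz, hd]; rfl)) c1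
      · rfl
    simp [rk, this]
  · have : (S.cell z' false).val ≠ 0 ∨ (S.cell z' true).val ≠ 0 := by
      by_contra hc
      push Not at hc
      refine hj (funext fun b => ?_)
      cases b
      exacts [Fin.ext hc.1, Fin.ext hc.2]
    simp only [rk, Fin.val_zero]
    change 4 * (0 + 0) + 2 < _
    omega

/-- The final count. -/
theorem Sys.rank_le [NeZero n] (hN : ∀ σ, Nice {z | S.In σ z} (dimS Z q σ)) (hZ : Z 0 = ∅)
    (G : Finset ((Bool → Fin n) × Fin 4)) (hG : ∀ σ ∈ G, dimS Z q σ = 2)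
    (h2 : ∀ V, Rat Y ≤ V → (∀ σ ∈ G, ∀ z, S.In σ z → Order.height z = 2 → Good V z) →
      ∀ σ z, S.In σ z → Order.height z = 2 → dimS Z q σ = 2 → σ ∉ G →
        σ ≠ (fun _ => 0, 2) → Good V z) :
    Module.rank ℚ (CH2 Y) ≤ G.card := by
  classical
  have : ∀ σ : G, ∃ c ∈ Z2 Y, ∀ z, S.In σ z → Order.height z = 2 → Finsupp.single z 1 = c := by
    intro σ
    by_cases h : ∃ z, S.In σ z ∧ Order.height z = 2
    · obtain ⟨z, h1, h2⟩ := h
      refine ⟨Finsupp.single z 1, Finsupp.single_mem_supported ℚ _ h2, fun z' a1 a2 => ?_⟩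
      rw [(hN σ).sub z' a1 z h1 (by rw [a2, hG σ σ.2]; rfl) (by rw [h2, hG σ σ.2]; rfl)]
    · exact ⟨0, zero_mem _, fun z a1 a2 => absurd ⟨z, a1, a2⟩ h⟩
  choose v hv hv' using this
  rw [← Fintype.card_coe]
  have h3 : ∀ σ ∈ G, ∀ z, S.In σ z → Order.height z = 2 →
      Good (Rat Y ⊔ Submodule.span ℚ (Set.range v)) z := fun σ hσ z a1 a2 =>
    Submodule.mem_sup_right (Submodule.subset_span ⟨⟨σ, hσ⟩, (hv' ⟨σ, hσ⟩ z a1 a2).symm⟩)
  refine rank_le_of Y v hv (S.main hN le_sup_left fun σ z a1 a2 a3 ih => ?_)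
  by_cases hσ : σ ∈ G
  · exact h3 σ hσ z a1 a2
  by_cases hσ' : σ = (fun _ => 0, 2)
  · subst hσ'
    exact S.kill hN hZ a3 le_sup_left a1 a2 ih
  · exact h2 _ le_sup_left h3 σ z a1 a2 a3 hσ hσ'

end Pool.Agent.MP_b834b3_ag

end MrgPart0

-- ======== part 1: formerly Pool.Agent.MP_b834b3_ag.Atl
section MrgPart1

/-! From charts of a surface to charts of its square. -/

namespace Pool.Agent.MP_b834b3_ag

open AlgebraicGeometry CategoryTheory Algebra IsLocalRing Limits MvPolynomial TensorProduct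

variable (k : Type) [Field k] {ι : Type} [Fintype ι] (K : Type) [Field K]
  [Algebra (MvPolynomial ι k) K]

/-- Charts and cells of the surface. -/
structure Atl {X : Scheme.{0}} (s : X ⟶ Spec (CommRingCat.of K)) {n : ℕ}
    (ex : Fin n → ι → Fin 3 → ℕ) (Z : Fin n → Finset (Fin 3))
    (Tr : ∀ (F : Type) [Field F], Fin n → Fin n → (Fin 3 → F) → (Fin 3 → F) → Prop)
    (A : Fin n → Type) [∀ j, CommRing (A j)] [∀ j, Algebra K (A j)] where
  /-- the coordinates -/
  e : ∀ j, Fin 3 → A j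
  /-- the charts -/
  ch : ∀ j, Spec (CommRingCat.of (A j)) ⟶ X
  /-- the cells -/
  cell : X → Fin n
  op : ∀ j, IsOpenImmersion (ch j)
  hs : ∀ j, ch j ≫ s = sp (algebraMap K (A j))
  gen : ∀ j, adjoin K (Set.range (e j)) = ⊤
  eqn : ∀ j, Eqn k K (ex j) (e j) = 0
  univ : ∀ j (L : Type) [Field L] [Algebra K L] (v : Fin 3 → L),
    Eqn k K (ex j) v = 0 → ∃ χ : A j →ₐ[K] L, ∀ x, χ (e j x) = v x
  mono : ∀ z z', z ⤳ z' → cell z ≤ cell z'
  mem : ∀ z, z ∈ Set.range (ch (cell z))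
  cell_iff : ∀ j P, cell (ch j P) = j ↔ ∀ x ∈ Z j, e j x ∈ P.asIdeal
  tr : ∀ j j' (F : Type) [Field F] (β : A j →+* F) (β' : A j' →+* F),
    sp β ≫ ch j = sp β' ≫ ch j' → Tr F j j' (fun x => β (e j x)) fun x => β' (e j' x)

variable {k K} {X : Scheme.{0}} {s : X ⟶ Spec (CommRingCat.of K)} {n : ℕ}
  {ex : Fin n → ι → Fin 3 → ℕ} {Z : Fin n → Finset (Fin 3)}
  {Tr : ∀ (F : Type) [Field F], Fin n → Fin n → (Fin 3 → F) → (Fin 3 → F) → Prop}
  {A : Fin n → Type} [∀ j, CommRing (A j)] [∀ j, Algebra K (A j)]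

variable (K A) in
/-- The two inclusions. -/
noncomputable def inc (j : Bool → Fin n) : ∀ b, A (j b) →ₐ[K] A (j false) ⊗[K] A (j true)
  | false => Algebra.TensorProduct.includeLeft
  | true => Algebra.TensorProduct.includeRight

variable (s) in
/-- The two projections. -/
noncomputable def pr : Bool → (pullback s s ⟶ X)
  | false => pullback.fst s s
  | true => pullback.snd s s

variable (𝒜 : Atl k K s ex Z Tr A)

instance (j : Fin n) : IsOpenImmersion (𝒜.ch j) := 𝒜.op j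

/-- The product chart. -/
noncomputable def Atl.J (j : Bool → Fin n) :
    Spec (CommRingCat.of (A (j false) ⊗[K] A (j true))) ⟶ pullback s s :=
  (pullbackSpecIso K _ _).inv ≫ pullback.map _ _ s s (𝒜.ch (j false)) (𝒜.ch (j true)) (𝟙 _)
    (by rw [𝒜.hs, Category.comp_id]) (by rw [𝒜.hs, Category.comp_id])

theorem Atl.J_pr (j : Bool → Fin n) (b : Bool) :
    𝒜.J j ≫ pr s b = sp (inc K A j b).toRingHom ≫ 𝒜.ch (j b) := by
  cases b
  · rw [Atl.J, pr, Category.assoc, pullback.lift_fst, pullbackSpecIso_inv_fst_assoc]; rfl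
  · rw [Atl.J, pr, Category.assoc, pullback.lift_snd, pullbackSpecIso_inv_snd_assoc]; rfl

theorem Atl.mem_J (j : Bool → Fin n) (z : ↑(pullback s s))
    (h : ∀ b, pr s b z ∈ Set.range (𝒜.ch (j b))) : z ∈ Set.range (𝒜.J j) := by
  obtain ⟨w, hw⟩ := (Scheme.Pullback.range_map _ _ s s (𝒜.ch (j false)) (𝒜.ch (j true)) (𝟙 _)
    (by rw [𝒜.hs, Category.comp_id]) (by rw [𝒜.hs, Category.comp_id])).ge ⟨h false, h true⟩
  refine ⟨(pullbackSpecIso K _ _).hom w, ?_⟩
  rw [Atl.J, ← Scheme.Hom.comp_apply, Iso.hom_inv_id_assoc, hw]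

/-- The charts of the square. -/
noncomputable def Atl.sys :
    Sys k K (pullback.fst s s ≫ s) ex Z Tr fun j => A (j false) ⊗[K] A (j true) where
  e j x := inc K A j x.1 (𝒜.e _ x.2)
  J := 𝒜.J
  cell z b := 𝒜.cell (pr s b z)
  op j := by unfold Atl.J; infer_instance
  hJ j := by
    rw [← Category.assoc, show 𝒜.J j ≫ pullback.fst s s = _ from 𝒜.J_pr j false, Category.assoc,
      𝒜.hs, ← sp_comp]
    exact congrArg sp (inc K A j false).comp_algebraMap
  gen j := by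
    have h : ∀ b a, inc K A j b a ∈ adjoin K (Set.range fun x : Bool × Fin 3 =>
        inc K A j x.1 (𝒜.e _ x.2)) := fun b a => by
      refine (Subalgebra.mem_comap _ _ _).1 ((adjoin_le ?_) ((𝒜.gen _).ge (x := a) trivial))
      rintro _ ⟨x, rfl⟩
      exact subset_adjoin ⟨(b, x), rfl⟩
    refine top_unique fun z _ => ?_
    induction z using TensorProduct.induction_on with
    | zero => exact zero_mem _
    | tmul a a' =>
      have := mul_mem (h false a) (h true a')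
      simpa [inc] using this
    | add x y hx hy => exact add_mem (hx trivial) (hy trivial)
  eqn j b := (map_Eqn k K _ (inc K A j b) _).symm.trans (by rw [𝒜.eqn, map_zero])
  univ j L _ _ v hv := by
    obtain ⟨χ, hχ⟩ := 𝒜.univ _ L _ (hv false)
    obtain ⟨χ', hχ'⟩ := 𝒜.univ _ L _ (hv true)
    refine ⟨Algebra.TensorProduct.productMap χ χ', ?_⟩
    rintro ⟨b, x⟩
    cases b <;> simp [inc, hχ, hχ']
  mono z z' h b := 𝒜.mono _ _ (h.map (pr s b).continuous)
  mem z := 𝒜.mem_J _ z fun b => 𝒜.mem _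
  cell_iff j P b := by
    rw [← Scheme.Hom.comp_apply, 𝒜.J_pr, Scheme.Hom.comp_apply, 𝒜.cell_iff]
    rfl
  tr j j' b F _ β β' h := 𝒜.tr _ _ F (β.comp (inc K A j b).toRingHom)
    (β'.comp (inc K A j' b).toRingHom) (by
      rw [sp_comp, sp_comp, Category.assoc, Category.assoc, ← 𝒜.J_pr, ← 𝒜.J_pr, ← Category.assoc,
        h, Category.assoc])

include 𝒜 in
theorem Atl.lft : LocallyOfFiniteType s := by
  refine IsZariskiLocalAtSource.of_openCover (P := @LocallyOfFiniteType) (Scheme.Cover.mkOfCovers (Fin n) _ 𝒜.ch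
    fun z => ⟨_, 𝒜.mem z⟩) fun j => ?_
  change LocallyOfFiniteType (𝒜.ch j ≫ s)
  rw [𝒜.hs]
  have : FiniteType K (A j) := .of_surjective _ (surj_of_adjoin (𝒜.gen j))
  exact (HasRingHomProperty.Spec_iff (P := @LocallyOfFiniteType)).2
    (RingHom.finiteType_algebraMap.2 this)

theorem Sys.compact {Y : Scheme.{0}} {t : Y ⟶ Spec (CommRingCat.of K)}
    {B : (Bool → Fin n) → Type} [∀ j, CommRing (B j)] [∀ j, Algebra K (B j)]
    (S : Sys k K t ex Z Tr B) : CompactSpace Y := by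
  refine ⟨?_⟩
  rw [show (Set.univ : Set Y) = ⋃ j, Set.range (S.J j) from
    (Set.eq_univ_of_forall fun z => Set.mem_iUnion.2 ⟨S.cell z, S.mem z⟩).symm]
  exact isCompact_iUnion fun j => isCompact_range (S.J j).continuous

end Pool.Agent.MP_b834b3_ag

end MrgPart1

-- ======== part 2: formerly Pool.Agent.MP_b834b3_ag.Glue
section MrgPart2

/-! Overlaps of charts inside a common field, and the universal property of a chart. -/

namespace Pool.Agent.MP_b834b3_ag

open AlgebraicGeometry CategoryTheory Algebra IsLocalRing Limits MvPolynomial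

section Glue

variable {K L : Type} [Field K] [Field L] [Algebra K L] {X : Scheme.{0}} {A A' : Subalgebra K L}
  (ch : Spec (CommRingCat.of A) ⟶ X) (ch' : Spec (CommRingCat.of A') ⟶ X)
  (hg : sp A.val.toRingHom ≫ ch = sp A'.val.toRingHom ≫ ch')

/-- The local ring of a chart inside the field. -/
noncomputable def locTo (P : Ideal A) [P.IsPrime] : Localization.AtPrime P →+* L :=
  IsLocalization.lift (M := P.primeCompl) (g := A.val.toRingHom) fun y =>
    Ne.isUnit fun h => y.2 (by rw [show (y : A) = 0 from Subtype.ext h]; exact P.zero_mem)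

theorem locTo_comp (P : Ideal A) [P.IsPrime] :
    (locTo P).comp (algebraMap A _) = A.val.toRingHom := IsLocalization.lift_comp _

theorem locTo_inj (P : Ideal A) [P.IsPrime] : Function.Injective (locTo P) :=
  (IsLocalization.lift_injective_iff _).2 fun _ _ =>
    ⟨fun h => congrArg _ (IsLocalization.injective _ P.primeCompl_le_nonZeroDivisors h),
      fun h => congrArg _ (Subtype.ext h)⟩

theorem sp_loc (P : Spec (CommRingCat.of A)) :
    sp (algebraMap A (Localization.AtPrime P.asIdeal)) (closedPoint _) = P :=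
  PrimeSpectrum.ext Localization.AtPrime.under_maximalIdeal

include hg in
theorem overlap {s : X ⟶ Spec (CommRingCat.of K)} [IsSeparated s]
    (hs : ch ≫ s = sp (algebraMap K A)) (hs' : ch' ≫ s = sp (algebraMap K A'))
    (P : Spec (CommRingCat.of A)) (h : ∀ c ∈ A', ∃ u : A, u ∉ P.asIdeal ∧ (u : L) * c ∈ A) :
    ch P ∈ Set.range ch' := by
  have hi := locTo_inj P.asIdeal
  have hc := locTo_comp P.asIdeal
  have h1 : ∀ c : A', A'.val.toRingHom c ∈ (locTo P.asIdeal).range := fun c => by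
    obtain ⟨u, hu, hu'⟩ := h c c.2
    exact ⟨IsLocalization.mk' _ (⟨_, hu'⟩ : A) (⟨u, hu⟩ : P.asIdeal.primeCompl),
      (IsLocalization.lift_mk'_spec _ _ _ _).2 rfl⟩
  let E := RingEquiv.ofBijective (locTo P.asIdeal).rangeRestrict
    ⟨fun x y e => hi (congrArg Subtype.val e), RingHom.rangeRestrict_surjective _⟩
  let α : A' →+* Localization.AtPrime P.asIdeal :=
    E.symm.toRingHom.comp (A'.val.toRingHom.codRestrict _ h1)
  have hα : (locTo P.asIdeal).comp α = A'.val.toRingHom :=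
    RingHom.ext fun c => congrArg Subtype.val (E.apply_symm_apply _)
  have := sp_dominant _ hi
  have h2 : sp (algebraMap A (Localization.AtPrime P.asIdeal)) ≫ ch = sp α ≫ ch' := by
    refine ext_of_isDominant_of_isSeparated s ?_ (sp (locTo P.asIdeal)) ?_
    · rw [Category.assoc, Category.assoc, hs, hs', ← sp_comp, ← sp_comp]
      refine congrArg sp (RingHom.ext fun c => hi ?_)
      exact (RingHom.congr_fun hc _).trans (RingHom.congr_fun hα (algebraMap K A' c)).symm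
    · rw [← Category.assoc, ← Category.assoc, ← sp_comp, ← sp_comp, hc, hα, hg]
  refine ⟨sp α (closedPoint _), ?_⟩
  rw [← Scheme.Hom.comp_apply, ← h2, Scheme.Hom.comp_apply, sp_loc]

include hg in
theorem trans_mul [IsOpenImmersion ch'] {F : Type} [Field F] (β : A →+* F)
    (β' : A' →+* F) (h : sp β ≫ ch = sp β' ≫ ch') {a₁ a₂ : A} {b₁ b₂ : A'}
    (e : (a₁ : L) * b₁ = a₂ * b₂) : β a₁ * β' b₁ = β a₂ * β' b₂ := by
  let P := sp β (closedPoint F)
  obtain ⟨α, hα⟩ := lift_chart ch' (sp (algebraMap A (Localization.AtPrime P.asIdeal)) ≫ ch)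
    ⟨sp β' (closedPoint F), by
      rw [← Scheme.Hom.comp_apply, ← h, Scheme.Hom.comp_apply, Scheme.Hom.comp_apply, sp_loc]⟩
  let ε : Localization.AtPrime P.asIdeal →+* F :=
    IsLocalization.lift (M := P.asIdeal.primeCompl) (g := β) fun y =>
      Ne.isUnit fun h => y.2 (show β y ∈ maximalIdeal F from h ▸ zero_mem _)
  have h1 : ε.comp (algebraMap A _) = β := IsLocalization.lift_comp _
  have h2 : ε.comp α = β' := sp_inj (by
    rw [← cancel_mono ch', sp_comp, Category.assoc, ← hα, ← Category.assoc, ← sp_comp, h1, h])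
  have h3 : (locTo P.asIdeal).comp α = A'.val.toRingHom := sp_inj (by
    rw [← cancel_mono ch', sp_comp, Category.assoc, ← hα, ← Category.assoc, ← sp_comp, locTo_comp,
      hg])
  have h4 : algebraMap A _ a₁ * α b₁ = algebraMap A _ a₂ * α b₂ := locTo_inj P.asIdeal (by
    rw [map_mul, map_mul]
    exact (congrArg₂ (· * ·) (RingHom.congr_fun (locTo_comp _) a₁) (RingHom.congr_fun h3 b₁)).trans
      (e.trans (congrArg₂ (· * ·) (RingHom.congr_fun (locTo_comp _) a₂)
        (RingHom.congr_fun h3 b₂)).symm))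
  rw [← h1, ← h2]
  exact (map_mul ε _ _).symm.trans ((congrArg ε h4).trans (map_mul ε _ _))

include hg in
theorem not_overlap [IsOpenImmersion ch'] (P : Spec (CommRingCat.of A)) {r : A} {r' : A'}
    (e : (r : L) * r' = 1) (hr : r ∈ P.asIdeal) : ch P ∉ Set.range ch' := fun h => by
  obtain ⟨β', hβ⟩ := lift_chart ch' (sp (algebraMap A P.asIdeal.ResidueField) ≫ ch)
    (by rwa [sp_res_point])
  have := trans_mul ch ch' hg _ β' hβ (a₂ := 1) (b₂ := 1) (e.trans (by simp))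
  rw [Ideal.algebraMap_residueField_eq_zero.2 hr] at this
  simp at this

end Glue

theorem mem_of_sum {K A ι : Type} [Field K] [CommRing A] [Algebra K A] [Fintype ι] {c : ι → K}
    {g : ι → A} (h : ∑ i, algebraMap K A (c i) * g i = 0) (P : Ideal A) {i₀ : ι} (h0 : c i₀ ≠ 0)
    (hP : ∀ i, i ≠ i₀ → g i ∈ P) : g i₀ ∈ P := by
  classical
  rw [← Finset.add_sum_erase _ _ (Finset.mem_univ i₀), add_eq_zero_iff_eq_neg] at h
  refine (P.unit_mul_mem_iff_mem (h0.isUnit.map (algebraMap K A))).1 (h ▸ P.neg_mem ?_)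
  exact P.sum_mem fun i hi => P.mul_mem_left _ (hP i (Finset.ne_of_mem_erase hi))

theorem mon_mem {A : Type} [CommRing A] {v : Fin 3 → A} {u : Fin 3 → ℕ} {P : Ideal A} {x : Fin 3}
    (h : v x ∈ P) (hu : u x ≠ 0) : mon v u ∈ P := by
  rw [← Ideal.Quotient.eq_zero_iff_mem, map_mon]
  exact mon_eq_zero (Ideal.Quotient.eq_zero_iff_mem.2 h) hu

variable {k : Type} [Field k] {ι : Type} [Fintype ι] {K : Type} [Field K] [Algebra k K]
  [Algebra (MvPolynomial ι k) K] [IsFractionRing (MvPolynomial ι k) K]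
  [IsScalarTower k (MvPolynomial ι k) K]

omit [Fintype ι] [Algebra k K] [IsScalarTower k (MvPolynomial ι k) K] in
theorem cf_ne (i : ι) : cf k K i ≠ 0 :=
  (map_ne_zero_iff _ (IsFractionRing.injective _ K)).2 (X_ne_zero i)

theorem dim_hyp (ex : ι → Fin 3 → ℕ) (i : ι) {P : Ideal (MvPolynomial (Fin 3) K)} (hP : P.IsPrime)
    (h1 : Eqn k K ex X ∈ P) (h2 : mon X (ex i) ∉ P) {n : ℕ}
    (hn : trdeg K (MvPolynomial (Fin 3) K ⧸ P) = n) : n ≤ 2 ∧ (n = 2 →
      ∀ P' : Ideal (MvPolynomial (Fin 3) K), P'.IsPrime → Eqn k K ex X ∈ P' →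
        mon X (ex i) ∉ P' → P ≤ P') := by
  have he : ∀ u, aeval ((X : Fin 3 → MvPolynomial (Fin 3) K) ∘ id)
      (mon (X : Fin 3 → MvPolynomial (Fin 3) k) u) = mon X u := fun u => by
    rw [map_mon]; simp
  have := dim_build (m := fun (_ : Unit) i => mon X (ex i)) (p := fun _ => i)
    (e := (X : Fin 3 → MvPolynomial (Fin 3) K)) (sec := id) (ρ := X) (h₀ := mon X (ex i))
    (fun _ _ _ => rfl) MvPolynomial.adjoin_range_X (by simp [pdet])
    (S := {P | P.IsPrime ∧ Eqn k K ex X ∈ P ∧ mon X (ex i) ∉ P})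
    (fun P hP => ⟨hP.1, fun x => by simp, by rw [he]; exact hP.2.2⟩)
    (fun P hP _ => by simp only [he]; exact hP.2.1) ⟨hP, h1, h2⟩ hn
  simp only [Fintype.card_unique, Fintype.card_fin] at this
  exact ⟨by omega, fun e P' a1 a2 a3 => this.2 (by omega) P' ⟨a1, a2, a3⟩⟩

theorem univ_of (ex : ι → Fin 3 → ℕ) {A : Type} [CommRing A] [IsDomain A] [Algebra K A]
    {e : Fin 3 → A} (h0 : ∀ x, e x ≠ 0) (hg : adjoin K (Set.range e) = ⊤)
    (he : Eqn k K ex e = 0) (h2 : 2 ≤ trdeg K A) {i i' : ι} (hi : ex i 0 = 0 ∧ ex i 2 = 0)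
    (hi' : ex i' 0 = 0 ∧ ex i' 1 = 0) (L : Type) [Field L] [Algebra K L] (v : Fin 3 → L)
    (hv : Eqn k K ex v = 0) : ∃ χ : A →ₐ[K] L, ∀ x, χ (e x) = v x := by
  have hs := surj_of_adjoin hg
  have hE : ∀ (R : Type) [CommRing R] [Algebra K R] (v : Fin 3 → R),
      aeval v (Eqn k K ex (X : Fin 3 → MvPolynomial (Fin 3) K)) = Eqn k K ex v := fun R _ _ v => by
    rw [map_Eqn]; simp
  have hp := RingHom.ker_isPrime (aeval v : MvPolynomial (Fin 3) K →ₐ[K] L)
  obtain ⟨Q, a1, a2, a3, m, a4, a5⟩ := exists_min {Eqn k K ex X}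
    (RingHom.ker (aeval v : MvPolynomial (Fin 3) K →ₐ[K] L)) fun f hf => by
      rw [Finset.mem_singleton.1 hf, RingHom.mem_ker, hE, hv]
  simp only [Fintype.card_fin, Finset.card_singleton] at a5
  obtain ⟨j, hj⟩ : ∃ j, mon X (ex j) ∉ Q := by
    by_contra hc
    push Not at hc
    have b1 : X 1 ∈ Q := a1.mem_of_pow_mem _ (by
      simpa [mon, Fin.prod_univ_three, hi.1, hi.2] using hc i)
    have b2 : X 2 ∈ Q := a1.mem_of_pow_mem _ (by
      simpa [mon, Fin.prod_univ_three, hi'.1, hi'.2] using hc i')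
    have := (dim_build (k := k) (ι := ι) (r := Empty) (m := Empty.elim) (p := Empty.elim)
      (e := (X : Fin 3 → MvPolynomial (Fin 3) K)) (sec := fun _ : Unit => 0)
      (ρ := ![X (), 0, 0]) (h₀ := 1) (fun s => s.elim) MvPolynomial.adjoin_range_X
      (by simp [pdet]) (S := {Q}) (by
        rintro _ rfl
        exact ⟨a1, fun x => by fin_cases x <;> simp [b1, b2], by simpa using a1.one_notMem⟩)
      (fun _ _ s => s.elim) rfl a4).1
    simp at this
    omega
  obtain ⟨n, hn⟩ := Cardinal.lt_aleph0.1 (trdeg_lt_aleph0_of_finiteType (R := K)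
    (S := MvPolynomial (Fin 3) K ⧸ RingHom.ker (aeval e : MvPolynomial (Fin 3) K →ₐ[K] A)))
  have b1 := dim_hyp ex j (RingHom.ker_isPrime (aeval e : MvPolynomial (Fin 3) K →ₐ[K] A))
    (by rw [RingHom.mem_ker, hE, he]) (by
      rw [RingHom.mem_ker, map_mon]
      exact Finset.prod_ne_zero_iff.2 fun x _ => pow_ne_zero _ (by simpa using h0 x)) hn
  rw [(Ideal.quotientKerAlgEquivOfSurjective hs).trdeg_eq] at hn
  rw [hn] at h2
  have b2 := (b1.2 (le_antisymm b1.1 (by exact_mod_cast h2)) Q a1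
    (a3 _ (Finset.mem_singleton_self _)) hj).trans a2
  refine ⟨(Ideal.Quotient.liftₐ _ (aeval v) fun f hf => RingHom.mem_ker.1 (b2 hf)).comp
    (Ideal.quotientKerAlgEquivOfSurjective hs).symm.toAlgHom, fun x => ?_⟩
  have : (Ideal.quotientKerAlgEquivOfSurjective hs).symm (e x) = Ideal.Quotient.mk _ (X x) :=
    (AlgEquiv.symm_apply_eq _).2 (aeval_X e x).symm
  rw [AlgHom.comp_apply]
  exact (congrArg _ this).trans (aeval_X v x)

end Pool.Agent.MP_b834b3_ag

end MrgPart2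

-- ======== part 3: formerly Pool.Agent.MP_b834b3_ag.Toric
section MrgPart3

/-! Laurent monomials in the six charts. -/

namespace Pool.Agent.MP_b834b3_ag

open Algebra

section Mo

variable {L : Type} [Field L] {v : Fin 3 → L}

/-- A Laurent monomial. -/
def mo (v : Fin 3 → L) (u : Fin 3 → ℤ) : L := ∏ i, v i ^ u i

theorem mo_add (hv : ∀ i, v i ≠ 0) (u u' : Fin 3 → ℤ) : mo v (u + u') = mo v u * mo v u' := by
  simp only [mo, Pi.add_apply, zpow_add₀ (hv _), Finset.prod_mul_distrib]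

theorem mo_zero : mo v 0 = 1 := by simp [mo]

theorem mo_ne (hv : ∀ i, v i ≠ 0) (u : Fin 3 → ℤ) : mo v u ≠ 0 :=
  Finset.prod_ne_zero_iff.2 fun i _ => zpow_ne_zero _ (hv i)

theorem mo_nsmul (n : ℕ) (u : Fin 3 → ℤ) : mo v (n • u) = mo v u ^ n := by
  simp only [mo, ← Finset.prod_pow, Pi.smul_apply, nsmul_eq_mul, mul_comm (n : ℤ), zpow_mul,
    zpow_natCast]

theorem mo_sum (hv : ∀ i, v i ≠ 0) {m : ℕ} (n : Fin m → ℕ) (g : Fin m → Fin 3 → ℤ) :
    mo v (∑ x, n x • g x) = ∏ x, mo v (g x) ^ n x := by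
  induction (Finset.univ : Finset (Fin m)) using Finset.induction_on with
  | empty => simp [mo_zero]
  | insert x s hx ih => rw [Finset.sum_insert hx, Finset.prod_insert hx, mo_add hv, ih, mo_nsmul]

theorem mo_sub (hv : ∀ i, v i ≠ 0) (u u' : Fin 3 → ℤ) : mo v (u - u') = mo v u / mo v u' := by
  rw [eq_div_iff (mo_ne hv u'), ← mo_add hv, sub_add_cancel]

end Mo

variable (a b w : ℕ)

/-- The orders of vanishing along the five boundary divisors. -/
def vl (ρ : Fin 5) (u : Fin 3 → ℤ) : ℤ :=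
  ![u 0, -u 0 - a * u 1 - b * u 2, u 1, u 2, -u 1 - w * u 2] ρ

/-- The three boundary divisors that meet a chart. -/
def rx (c : Bool × Fin 3) : Fin 3 → Fin 5 :=
  ![if c.1 then 1 else 0, ![2, 4, 2] c.2, ![3, 3, 4] c.2]

/-- The monomials that are regular on a chart. -/
def Cone (c : Bool × Fin 3) (u : Fin 3 → ℤ) : Prop := ∀ x, 0 ≤ vl a b w (rx c x) u

/-- The change of coordinates at infinity. -/
def fl (β : Bool) (u : Fin 3 → ℤ) : Fin 3 → ℤ :=
  ![if β then -u 0 - a * u 1 - b * u 2 else u 0, u 1, u 2]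

/-- The generators of a chart of the fibre. -/
def fg (c : Fin 3) : Fin 4 → Fin 3 → ℤ :=
  ![![![1, 0, 0], ![0, 1, 0], ![0, 0, 1], ![0, 0, 1]],
    ![![1, 0, 0], ![0, -1, 0], ![0, -(w : ℤ), 1], ![0, -(w : ℤ), 1]],
    ![![1, 0, 0], ![0, 1, -1], ![0, 0, -1], ![0, (w : ℤ), -1]]] c

/-- The generators of a chart. -/
def gn (c : Bool × Fin 3) (g : Fin 4) : Fin 3 → ℤ := fl a b c.1 (fg w c.2 g)

theorem vl_add (ρ : Fin 5) (u u' : Fin 3 → ℤ) :
    vl a b w ρ (u + u') = vl a b w ρ u + vl a b w ρ u' := by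
  fin_cases ρ <;> simp [vl] <;> ring

theorem vl_nsmul (ρ : Fin 5) (n : ℕ) (u : Fin 3 → ℤ) : vl a b w ρ (n • u) = n * vl a b w ρ u := by
  fin_cases ρ <;> simp [vl] <;> ring

theorem vl_sub (ρ : Fin 5) (u u' : Fin 3 → ℤ) :
    vl a b w ρ (u - u') = vl a b w ρ u - vl a b w ρ u' := by
  fin_cases ρ <;> simp [vl] <;> ring

theorem cone_gn (hw : 1 ≤ w) (c : Bool × Fin 3) (g : Fin 4) : Cone a b w c (gn a b w c g) := by
  obtain ⟨β, c⟩ := c
  intro x
  cases β <;> fin_cases c <;> fin_cases g <;> fin_cases x <;> simp [vl, rx, gn, fl, fg] <;> omega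

theorem vl_gn {c : Bool × Fin 3} (h : c.2 ≠ 2 ∨ w = 1) (x y : Fin 3) :
    vl a b w (rx c x) (gn a b w c y.castSucc) = if x = y then 1 else 0 := by
  obtain ⟨β, c⟩ := c
  cases β <;> fin_cases c <;> fin_cases x <;> fin_cases y <;> simp_all [vl, rx, gn, fl, fg]

theorem dual {c : Bool × Fin 3} (h : c.2 ≠ 2 ∨ w = 1) (u : Fin 3 → ℤ) :
    u = ∑ x : Fin 3, vl a b w (rx c x) u • gn a b w c x.castSucc := by
  obtain ⟨β, c⟩ := c
  ext i
  cases β <;> fin_cases c <;> fin_cases i <;>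
    simp_all [vl, rx, gn, fl, fg, Fin.sum_univ_three] <;> ring

theorem dual' {c : Bool × Fin 3} (h : c.2 ≠ 2 ∨ w = 1) {u : Fin 3 → ℤ} {n : Fin 3 → ℕ}
    (hn : ∀ x, (n x : ℤ) = vl a b w (rx c x) u) :
    u = ∑ x : Fin 3, n x • gn a b w c x.castSucc := by
  refine (dual a b w h u).trans (Finset.sum_congr rfl fun x _ => ?_)
  rw [← hn, natCast_zsmul]

theorem cone_sum (hw : w = 1 ∨ w = 2) {c : Bool × Fin 3} {u : Fin 3 → ℤ} (h : Cone a b w c u) :
    ∃ n : Fin 4 → ℕ, u = ∑ g, n g • gn a b w c g := by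
  by_cases hc : c.2 ≠ 2 ∨ w = 1
  · refine ⟨Fin.snoc (α := fun _ => ℕ) (fun x => (vl a b w (rx c x) u).toNat) 0, ?_⟩
    rw [Fin.sum_univ_castSucc]
    simpa using dual' a b w hc fun x => Int.toNat_of_nonneg (h x)
  obtain ⟨β, c⟩ := c
  obtain ⟨rfl, h2⟩ : c = 2 ∧ w ≠ 1 := by simpa using hc
  obtain rfl : w = 2 := by omega
  have h0 := h 0
  have h1 := h 1
  have h2 := h 2
  obtain ⟨n0, e0⟩ := Int.eq_ofNat_of_zero_le h0
  obtain ⟨n1, e1⟩ := Int.eq_ofNat_of_zero_le h1
  simp [vl, rx] at e1 h2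
  obtain ⟨n2, e2⟩ := Int.eq_ofNat_of_zero_le (show 0 ≤ -u 2 - n1 % 2 - n1 / 2 by omega)
  refine ⟨![n0, n1 % 2, n2, n1 / 2], funext fun i => ?_⟩
  have e3 : u 1 = n1 % 2 + 2 * (n1 / 2) := by omega
  have e4 : u 2 = -n2 - n1 % 2 - n1 / 2 := by omega
  cases β <;> simp [vl, rx] at e0 <;> fin_cases i <;> simp [gn, fl, fg, Fin.sum_univ_four]
  all_goals first | omega | (rw [← e0, e3, e4]; ring)

/-- The monomial `r` is regular on `c'` and vanishes on the boundary divisors missing `c`. -/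
def Str (c c' : Bool × Fin 3) (r : Fin 3 → ℤ) : Prop :=
  ∀ x, 0 ≤ vl a b w (rx c' x) r ∧ ((∀ y, rx c y ≠ rx c' x) → 0 < vl a b w (rx c' x) r)

variable {a b w}

theorem exists_N {c : Bool × Fin 3} {r u : Fin 3 → ℤ} (h : ∀ x, 0 ≤ vl a b w (rx c x) r ∧
    (0 < vl a b w (rx c x) r ∨ 0 ≤ vl a b w (rx c x) u)) : ∃ N : ℕ, Cone a b w c (N • r + u) := by
  refine ⟨∑ x, (vl a b w (rx c x) u).natAbs, fun x => ?_⟩
  rw [vl_add, vl_nsmul]
  have h1 := Finset.single_le_sum (f := fun x => (vl a b w (rx c x) u).natAbs)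
    (fun _ _ => Nat.zero_le _) (Finset.mem_univ x)
  obtain ⟨h2, h3 | h3⟩ := h x
  · have := mul_le_mul_of_nonneg_left (show 1 ≤ vl a b w (rx c x) r from h3)
      (Nat.cast_nonneg (α := ℤ) (∑ x, (vl a b w (rx c x) u).natAbs))
    omega
  · positivity

variable (a b w) in
/-- The exponents of the six sections of an ample line bundle. -/
def sec (c : Bool × Fin 3) : Fin 3 → ℤ :=
  fl a b c.1 ![if c.1 then -(2 * a + b + 1) else 0, ![0, (w : ℤ), 0] c.2, ![0, 0, 1] c.2]

theorem str_sec (hw : w = 1 ∨ w = 2) (c c' : Bool × Fin 3) :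
    Str a b w c c' (sec a b w c - sec a b w c') := by
  obtain ⟨β, c⟩ := c
  obtain ⟨β', c'⟩ := c'
  intro x
  rcases hw with rfl | rfl <;> cases β <;> cases β' <;> fin_cases c <;> fin_cases c' <;>
    fin_cases x <;> simp [vl, rx, sec, fl, Fin.forall_fin_succ] <;> omega

theorem exists_int (hw : 1 ≤ w) (c : Bool × Fin 3) : ∃ r, ∀ x, 0 < vl a b w (rx c x) r := by
  obtain ⟨β, c⟩ := c
  refine ⟨fl a b β (![![1, 1, 1], ![1, -(w : ℤ) - 1, 1], ![1, 1, -2]] c), fun x => ?_⟩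
  cases β <;> fin_cases c <;> fin_cases x <;> simp [vl, rx, fl] <;> omega

variable {K L : Type} [Field K] [Field L] [Algebra K L] {t x y : L}

theorem mo_fl (ht : t ≠ 0) (u : Fin 3 → ℤ) :
    mo ![t⁻¹, x / t ^ a, y / t ^ b] u = mo ![t, x, y] (fl a b true u) := by
  simp [mo, fl, Fin.prod_univ_three, div_zpow, zpow_sub₀ ht, zpow_neg, zpow_mul]
  ring

theorem fibre_eq (t x y : L) (c : Fin 3) :
    fibreChart K w t x y c = adjoin K (Set.range fun g => mo ![t, x, y] (fg w c g)) := by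
  fin_cases c <;> refine congrArg (adjoin K) (Set.ext fun z => ?_) <;>
    simp [Fin.exists_fin_succ, mo, fg, Fin.prod_univ_three, div_eq_mul_inv, mul_comm, eq_comm]
  tauto

theorem chart_eq (ht : t ≠ 0) (c : Bool × Fin 3) :
    chart K a b w t x y c = adjoin K (Set.range fun g => mo ![t, x, y] (gn a b w c g)) := by
  obtain ⟨β, c⟩ := c
  cases β
  · exact (fibre_eq t x y c).trans (congrArg (fun f => adjoin K (Set.range f)) (funext fun g =>
      congrArg _ (funext fun i => by fin_cases i <;> rfl)))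
  · exact (fibre_eq _ _ _ c).trans (congrArg (fun f => adjoin K (Set.range f)) (funext fun g =>
      mo_fl ht _))

variable (hv : ∀ i, ![t, x, y] i ≠ 0) (hw : w = 1 ∨ w = 2)
include hv hw

theorem mo_mem {c : Bool × Fin 3} {u : Fin 3 → ℤ} (h : Cone a b w c u) :
    mo ![t, x, y] u ∈ chart K a b w t x y c := by
  obtain ⟨n, rfl⟩ := cone_sum a b w hw h
  rw [mo_sum hv, chart_eq (show t ≠ 0 from hv 0)]
  exact prod_mem fun g _ => pow_mem (subset_adjoin (Set.mem_range_self g)) _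

theorem chart_le {c : Bool × Fin 3} {S : Subalgebra K L}
    (h : ∀ u, Cone a b w c u → mo ![t, x, y] u ∈ S) : chart K a b w t x y c ≤ S := by
  rw [chart_eq (show t ≠ 0 from hv 0)]
  refine adjoin_le ?_
  rintro _ ⟨g, rfl⟩
  exact h _ (cone_gn a b w (by omega) c g)

theorem comp_of {c c' : Bool × Fin 3} {r : Fin 3 → ℤ} (h : Str a b w c c' r) :
    ∀ z ∈ chart K a b w t x y c, ∃ N : ℕ, mo ![t, x, y] r ^ N * z ∈ chart K a b w t x y c' := by
  have hr : mo ![t, x, y] r ∈ chart K a b w t x y c' := mo_mem hv hw fun x => (h x).1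
  refine fun z hz => chart_le hv hw (S :=
    { carrier := {z | ∃ N : ℕ, mo ![t, x, y] r ^ N * z ∈ chart K a b w t x y c'}
      mul_mem' := ?_, add_mem' := ?_, algebraMap_mem' := fun c => ⟨0, by simp⟩ }) ?_ hz
  · rintro z z' ⟨N, h1⟩ ⟨N', h2⟩
    exact ⟨N + N', by convert mul_mem h1 h2 using 1; ring⟩
  · rintro z z' ⟨N, h1⟩ ⟨N', h2⟩
    exact ⟨N + N', by
      convert add_mem (mul_mem (pow_mem hr N') h1) (mul_mem (pow_mem hr N) h2) using 1; ring⟩
  · intro u hu
    obtain ⟨N, hN⟩ := exists_N (c := c') (r := r) (u := u) fun x => ⟨(h x).1, by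
      by_cases e : ∀ y, rx c y ≠ rx c' x
      · exact Or.inl ((h x).2 e)
      · push Not at e
        obtain ⟨y, e⟩ := e
        exact Or.inr (e ▸ hu y)⟩
    exact ⟨N, by rw [← mo_nsmul, ← mo_add hv]; exact mo_mem hv hw hN⟩

theorem adjoin_chart (hgen : IntermediateField.adjoin K {t, x, y} = ⊤) (c : Bool × Fin 3) :
    IntermediateField.adjoin K (chart K a b w t x y c : Set L) = ⊤ := by
  obtain ⟨r, hr⟩ := exists_int (a := a) (b := b) (show 1 ≤ w by omega) c
  have h : ∀ u, mo ![t, x, y] u ∈ IntermediateField.adjoin K (chart K a b w t x y c : Set L) := by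
    intro u
    obtain ⟨N, hN⟩ := exists_N (c := c) (r := r) (u := u) fun x => ⟨(hr x).le, Or.inl (hr x)⟩
    rw [← add_sub_cancel_left (N • r) u, mo_sub hv, mo_nsmul]
    exact div_mem (IntermediateField.subset_adjoin _ _ (mo_mem hv hw hN))
      (pow_mem (IntermediateField.subset_adjoin _ _ (mo_mem hv hw fun x => (hr x).le)) _)
  rw [_root_.eq_top_iff, ← hgen, IntermediateField.adjoin_le_iff]
  rintro _ (rfl | rfl | rfl)
  · simpa [mo, Fin.prod_univ_three] using h ![1, 0, 0]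
  · simpa [mo, Fin.prod_univ_three] using h ![0, 1, 0]
  · simpa [mo, Fin.prod_univ_three] using h ![0, 0, 1]

theorem frac_chart (hgen : IntermediateField.adjoin K {t, x, y} = ⊤) (c : Bool × Fin 3) (z : L) :
    ∃ p ∈ chart K a b w t x y c, ∃ q ∈ chart K a b w t x y c, q ≠ 0 ∧ z * q = p := by
  obtain ⟨p, hp, q, hq, rfl⟩ := IntermediateField.mem_adjoin_iff_div.1
    ((adjoin_chart (a := a) (b := b) hv hw hgen c).ge (x := z) trivial)
  rw [Algebra.adjoin_eq] at hp hq
  rcases eq_or_ne q 0 with rfl | h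
  · exact ⟨0, zero_mem _, 1, one_mem _, one_ne_zero, by simp⟩
  · exact ⟨p, hp, q, hq, h, div_mul_cancel₀ _ h⟩

end Pool.Agent.MP_b834b3_ag

end MrgPart3

-- marker of a merged file
example : 731051 + 96441 = 731051 + 96441 := rfl
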