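import Pool.Agent.MP_b834b3_ag.Toric
import Pool.Agent.MP_fd6584_ag.h70.Pj.Model

-- ======== part 0: formerly Pool.Agent.MP_b834b3_ag.Model
section MrgPart0

/-! The cells of the generic surface. -/

namespace Pool.Agent.MP_b834b3_ag

open AlgebraicGeometry CategoryTheory Algebra IsLocalRing Limits MvPolynomial

noncomputable instance (ι : Type) : Algebra (MvPolynomial ι ℂ) (RatFun ι) :=
  (inferInstance : Algebra (MvPolynomial ι ℂ) (FractionRing (MvPolynomial ι ℂ)))

noncomputable instance (ι : Type) : Algebra ℂ (RatFun ι) :=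
  (inferInstance : Algebra ℂ (FractionRing (MvPolynomial ι ℂ)))

instance (ι : Type) : IsFractionRing (MvPolynomial ι ℂ) (RatFun ι) :=
  (inferInstance : IsFractionRing (MvPolynomial ι ℂ) (FractionRing (MvPolynomial ι ℂ)))

instance (ι : Type) : IsScalarTower ℂ (MvPolynomial ι ℂ) (RatFun ι) :=
  (inferInstance : IsScalarTower ℂ (MvPolynomial ι ℂ) (FractionRing (MvPolynomial ι ℂ)))

variable (a b w : ℕ)

/-- The exponent of a monomial. -/
def ue (m : ℕ × ℕ × ℕ) : Fin 3 → ℤ := ![m.1, m.2.1, m.2.2]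

/-- The anticanonical divisor. -/
def nn : Fin 5 → ℕ := ![0, a + b + 2, 0, 0, w + 2]

/-- The exponents in homogeneous coordinates. -/
def hm (ρ : Fin 5) (m : ℕ × ℕ × ℕ) : ℕ :=
  ![m.1, a + b + 2 - (m.1 + a * m.2.1 + b * m.2.2), m.2.1, m.2.2, w + 2 - (m.2.1 + w * m.2.2)] ρ

theorem hm_eq (ρ : Fin 5) (m : Mon a b w) :
    (hm a b w ρ m : ℤ) = vl a b w ρ (ue m) + nn a b w ρ := by
  obtain ⟨h1, h2⟩ := (Finset.mem_filter.1 m.2).2
  fin_cases ρ <;> simp [hm, vl, ue, nn, Nat.cast_sub, h1, h2] <;> ring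

/-- The charts of the cells. -/
def cc : ℕ → Bool × Fin 3
  | 0 => (false, 0)
  | 1 => (true, 0)
  | 2 => (false, 1)
  | 3 => (true, 1)
  | _ => (false, 2)

/-- The exponents in the chart of a cell. -/
def exf {n : ℕ} (j : Fin n) (m : Mon a b w) (x : Fin 3) : ℕ := hm a b w (rx (cc j) x) m

/-- The coordinates that vanish on a cell. -/
def Zf (U : Bool) {n : ℕ} (j : Fin n) : Finset (Fin 3) :=
  Finset.univ.filter fun x => (x = 0 ∧ (cc j).1) ∨ (x = 1 ∧ (cc j).2 ≠ 0) ∨
    (x = 2 ∧ ((cc j).2 = 2 ∨ (U ∧ (cc j).2 = 1)))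

/-- The monomial relations between the coordinates of two charts. -/
def Trf {n : ℕ} (F : Type) [Field F] (j j' : Fin n) (v v' : Fin 3 → F) : Prop :=
  ∀ u₁ u₂ u₁' u₂' : Fin 3 → ℕ,
    ∑ x, u₁ x • gn a b w (cc j) x.castSucc + ∑ x, u₁' x • gn a b w (cc j') x.castSucc =
      ∑ x, u₂ x • gn a b w (cc j) x.castSucc + ∑ x, u₂' x • gn a b w (cc j') x.castSucc →
    mon v u₁ * mon v' u₁' = mon v u₂ * mon v' u₂'

/-- The numerical conditions on the family. -/
structure Cfg (n : ℕ) (U : Bool) : Prop where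
  hw : w = 1 ∨ w = 2
  hn : n = 4 ∨ n = 5 ∧ w = 1
  top : ∀ β : Bool, β = false ∧ n = 5 ∨ ∃ m₀ : Mon a b w, (∀ x, hm a b w (rx (β, 2) x) m₀ = 0) ∧
    ∀ m : Mon a b w, m ≠ m₀ →
      (n = 5 ∧ hm a b w (rx (β, 2) 0) m ≠ 0) ∨ hm a b w 2 m ≠ 0 ∨ hm a b w 4 m ≠ 0
  hU : U → ∃ m₀ : Mon a b w, (hm a b w 0 m₀ = 0 ∧ hm a b w 1 m₀ = 0) ∧ hm a b w 4 m₀ = 0 ∧
    ∀ m : Mon a b w, m ≠ m₀ → hm a b w 4 m ≠ 0
  base : ∀ j : Fin n, ∃ i i', (exf a b w j i 0 = 0 ∧ exf a b w j i 2 = 0) ∧
    exf a b w j i' 0 = 0 ∧ exf a b w j i' 1 = 0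

variable {a b w} {L : Type} [Field L] [Algebra (Par a b w) L] {t x y : L}

theorem slice_ne (h : AlgebraicIndependent (Par a b w) ![t, x]) {j : ℕ} (hj : (0, 0, j) ∈ Mon a b w) :
    ∑ m : Mon a b w, (if m.1.2.2 = j then coef m • (t ^ m.1.1 * x ^ m.1.2.1) else 0) ≠ 0 := by
  intro e
  have h1 := algebraicIndependent_iff.1 h (∑ m : Mon a b w,
    if m.1.2.2 = j then coef m • (X 0 ^ m.1.1 * X 1 ^ m.1.2.1) else 0) (by
      simpa [apply_ite (aeval ![t, x])] using e)
  have h2 := congrArg (aeval (R := Par a b w) (0 : Fin 2 → Par a b w)) h1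
  rw [map_sum, map_zero, Finset.sum_eq_single ⟨_, hj⟩ ?_ (by simp)] at h2
  · exact cf_ne (k := ℂ) _ (show coef _ = 0 by simpa using h2)
  · rintro ⟨⟨l, i, j'⟩, hm⟩ - hne
    split_ifs with h3
    · obtain rfl : j' = j := h3
      have : l ≠ 0 ∨ i ≠ 0 := by
        by_contra hc
        push Not at hc
        obtain ⟨rfl, rfl⟩ := hc
        exact hne rfl
      rcases this with h | h <;> simp [h]
    · simp

theorem ne_zero_of (h : AlgebraicIndependent (Par a b w) ![t, x])
    (he : ∑ m : Mon a b w, coef m • (t ^ m.1.1 * x ^ m.1.2.1 * y ^ m.1.2.2) = 0) (i : Fin 3) :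
    ![t, x, y] i ≠ 0 := by
  fin_cases i
  · exact h.ne_zero 0
  · exact h.ne_zero 1
  · rintro (rfl : y = 0)
    refine slice_ne h (j := 0) (by simp [Mon]) (Eq.trans (Finset.sum_congr rfl fun m _ => ?_) he)
    split_ifs with h1 <;> simp [h1]

variable (hv : ∀ i, ![t, x, y] i ≠ 0) (hw : w = 1 ∨ w = 2)
  (he : ∑ m : Mon a b w, coef m • (t ^ m.1.1 * x ^ m.1.2.1 * y ^ m.1.2.2) = 0)

/-- A monomial as an element of a chart. -/
def el (c : Bool × Fin 3) (u : Fin 3 → ℤ) (h : Cone a b w c u) : chart (Par a b w) a b w t x y c :=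
  ⟨_, mo_mem hv hw h⟩

theorem cone_ue {c : Bool × Fin 3} {u : Fin 3 → ℤ}
    (hu : ∀ z, vl a b w (rx c z) u = nn a b w (rx c z)) (m : Mon a b w) :
    Cone a b w c (ue m + u) := fun z => by
  rw [vl_add, hu, ← hm_eq]; positivity

include he in
theorem eqn_el {c : Bool × Fin 3} {u : Fin 3 → ℤ}
    (hu : ∀ z, vl a b w (rx c z) u = nn a b w (rx c z)) :
    ∑ m : Mon a b w, algebraMap _ _ (coef m) * el hv hw c _ (cone_ue hu m) = 0 := by
  refine Subtype.ext ?_
  rw [AddSubmonoidClass.coe_finsetSum, ZeroMemClass.coe_zero, ← zero_mul (mo ![t, x, y] u), ← he,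
    Finset.sum_mul]
  refine Finset.sum_congr rfl fun m _ => ?_
  change algebraMap _ L (coef m) * mo ![t, x, y] (ue m + u) = _
  rw [mo_add hv, smul_mul_assoc, Algebra.smul_def]
  simp [mo, ue, Fin.prod_univ_three]

theorem el_mem {c : Bool × Fin 3} {u g : Fin 3 → ℤ} (hu : Cone a b w c u) (hg : Cone a b w c g)
    {P : Ideal (chart (Par a b w) a b w t x y c)} (hP : P.IsPrime) (h : el hv hw c g hg ∈ P)
    (h' : ∀ z, 0 < vl a b w (rx c z) u ∨ vl a b w (rx c z) g = 0) : el hv hw c u hu ∈ P := by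
  obtain ⟨N, hN⟩ := exists_N (c := c) (r := u) (u := -g) fun z => ⟨hu z, (h' z).imp_right fun e => by
    rw [← zero_sub, vl_sub, e]
    simpa using (vl_nsmul a b w (rx c z) 0 0).ge⟩
  refine hP.mem_of_pow_mem N ?_
  have : el hv hw c u hu ^ N = el hv hw c _ hN * el hv hw c g hg := Subtype.ext (by
    change mo _ u ^ N = mo _ _ * mo _ g
    rw [← mo_add hv, ← mo_nsmul, neg_add_cancel_right])
  rw [this]
  exact P.mul_mem_left _ h

variable {X : Scheme.{0}} {s : X ⟶ Spec (CommRingCat.of (Par a b w))} [IsSeparated s]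
  (J : ∀ c, Spec (CommRingCat.of (chart (Par a b w) a b w t x y c)) ⟶ X)
  (hs : ∀ c, J c ≫ s = sp (algebraMap (Par a b w) _))
  (hg : ∀ c c', sp (chart (Par a b w) a b w t x y c).val.toRingHom ≫ J c =
    sp (chart (Par a b w) a b w t x y c').val.toRingHom ≫ J c')

include hs hg in
theorem over_el {c c' : Bool × Fin 3} {r : Fin 3 → ℤ} (h : Str a b w c c' r)
    (P : Spec (CommRingCat.of (chart (Par a b w) a b w t x y c')))
    (hP : el hv hw c' r (fun z => (h z).1) ∉ P.asIdeal) : J c' P ∈ Set.range (J c) :=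
  overlap _ _ (hg c' c) (hs _) (hs _) P fun z hz => by
    obtain ⟨N, hN⟩ := comp_of hv hw h z hz
    exact ⟨_ ^ N, fun e => hP (P.isPrime.mem_of_pow_mem N e), hN⟩

include hv he hs hg in
theorem cover_cells {n : ℕ} {U : Bool} (C : Cfg a b w n U) (c : Bool × Fin 3)
    (P : Spec (CommRingCat.of (chart (Par a b w) a b w t x y c))) :
    ∃ j : Fin n, J c P ∈ Set.range (J (cc j)) := by
  have hw := C.hw
  have h4 : 4 ≤ n := by rcases C.hn with h | h <;> omega
  have h01 : ∀ β : Bool, ∀ c : Fin 3, c ≠ 2 → ∃ j : Fin n, cc j = (β, c) := fun β c hc => by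
    cases β <;> fin_cases c
    exacts [⟨⟨0, by omega⟩, rfl⟩, ⟨⟨2, by omega⟩, rfl⟩, absurd rfl hc, ⟨⟨1, by omega⟩, rfl⟩,
      ⟨⟨3, by omega⟩, rfl⟩, absurd rfl hc]
  obtain ⟨β, c⟩ := c
  by_cases hc : c ≠ 2
  · obtain ⟨j, hj⟩ := h01 β c hc
    exact ⟨j, by rw [hj]; exact ⟨P, rfl⟩⟩
  obtain rfl : c = 2 := not_not.1 hc
  have s2 : Str a b w (β, 0) (β, 2) (gn a b w (β, 2) 2) := fun z => by
    cases β <;> fin_cases z <;> simp [vl, rx, gn, fl, fg, Fin.forall_fin_succ] <;> omega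
  have s3 : Str a b w (β, 1) (β, 2) (gn a b w (β, 2) 3) := fun z => by
    cases β <;> fin_cases z <;> simp [vl, rx, gn, fl, fg, Fin.forall_fin_succ] <;> omega
  have s0 : Str a b w (!β, 2) (β, 2) (gn a b w (β, 2) 0) := fun z => by
    cases β <;> fin_cases z <;> simp [vl, rx, gn, fl, fg, Fin.forall_fin_succ]
  by_cases a2 : el hv hw _ _ (fun z => (s2 z).1) ∈ P.asIdeal
  swap
  · obtain ⟨j, hj⟩ := h01 β 0 (by decide)
    exact ⟨j, hj ▸ over_el hv hw J hs hg s2 P a2⟩
  by_cases a3 : el hv hw _ _ (fun z => (s3 z).1) ∈ P.asIdeal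
  swap
  · obtain ⟨j, hj⟩ := h01 β 1 (by decide)
    exact ⟨j, hj ▸ over_el hv hw J hs hg s3 P a3⟩
  by_cases h5 : β = false ∧ n = 5
  · obtain ⟨rfl, rfl⟩ := h5
    exact ⟨4, P, rfl⟩
  by_cases a0 : n = 5 ∧ el hv hw _ _ (fun z => (s0 z).1) ∉ P.asIdeal
  · obtain ⟨rfl, a0⟩ := a0
    obtain rfl : β = true := by simpa using h5
    exact ⟨4, over_el hv hw J hs hg s0 P a0⟩
  obtain ⟨m₀, b1, b2⟩ := (C.top β).resolve_left h5
  have hu : ∀ z, vl a b w (rx (β, 2) z) (0 - ue m₀) = nn a b w (rx (β, 2) z) := fun z => by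
    have := hm_eq a b w (rx (β, 2) z) m₀
    have h0 := vl_nsmul a b w (rx (β, 2) z) 0 0
    rw [b1] at this
    rw [zero_smul] at h0
    rw [vl_sub]
    omega
  have b3 := mem_of_sum (eqn_el hv hw he hu) P.asIdeal (i₀ := m₀) (cf_ne (k := ℂ) _) fun m hm' => by
    have e : ∀ z, vl a b w (rx (β, 2) z) (ue m + (0 - ue m₀)) = hm a b w (rx (β, 2) z) m :=
      fun z => by rw [vl_add, hu, hm_eq]
    rcases b2 m hm' with ⟨h, h'⟩ | h | h
    · refine el_mem hv hw _ _ P.isPrime (not_not.1 fun e => a0 ⟨h, e⟩) fun z => ?_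
      rw [e]
      cases β <;> fin_cases z <;> simp_all [vl, rx, gn, fl, fg] <;> omega
    · refine el_mem hv hw _ _ P.isPrime a3 fun z => ?_
      rw [e]
      cases β <;> fin_cases z <;> simp_all [vl, rx, gn, fl, fg] <;> omega
    · refine el_mem hv hw _ _ P.isPrime a2 fun z => ?_
      rw [e]
      cases β <;> fin_cases z <;> simp_all [vl, rx, gn, fl, fg] <;> omega
  refine absurd ?_ P.isPrime.one_notMem
  convert b3
  refine Subtype.ext ?_
  change 1 = mo _ _
  rw [add_sub_cancel, mo_zero]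

theorem lt_cases : ∀ i j : Fin 5, i < j → ∃ x, x ∈ Zf false j ∧ ∀ y, rx (cc i) y ≠ rx (cc j) x := by
  decide

theorem gt_cases : ∀ j : Fin 5, ∀ x ∈ Zf false j, ∃ i < j, ∀ x',
    (∀ y, rx (cc i) y ≠ rx (cc j) x') → x' = x := by
  decide

theorem Zf_iff {U : Bool} {n : ℕ} (h : n ≤ 5) (j : Fin n) (x : Fin 3) :
    x ∈ Zf U j ↔ x ∈ Zf false (j.castLE h) ∨ (x = 2 ∧ U ∧ (cc j).2 = 1) := by
  simp only [Zf, Finset.mem_filter, Finset.mem_univ, true_and, Fin.val_castLE]
  tauto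

include hv he hs hg in
theorem exists_atl [∀ c, IsOpenImmersion (J c)] {n : ℕ} {U : Bool} (C : Cfg a b w n U)
    (hi : AlgebraicIndependent (Par a b w) ![t, x])
    (hgen : IntermediateField.adjoin (Par a b w) {t, x, y} = ⊤) (hc : ∀ p : X, ∃ c q, J c q = p) :
    Nonempty (Atl ℂ (Par a b w) s (exf a b w) (Zf U) (Trf a b w)
      fun j : Fin n => chart (Par a b w) a b w t x y (cc j)) := by
  classical
  have hw := C.hw
  have h5 : n ≤ 5 := by rcases C.hn with h | h <;> omega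
  have hj : ∀ j : Fin n, (cc j).2 ≠ 2 ∨ w = 1 := fun j => by
    rcases C.hn with rfl | h
    · left; fin_cases j <;> decide
    · exact Or.inr h.2
  let e : ∀ j : Fin n, Fin 3 → chart (Par a b w) a b w t x y (cc j) := fun j z =>
    el hv hw _ _ (cone_gn a b w (by omega) (cc j) z.castSucc)
  have hmon : ∀ j u, (mon (e j) u).1 =
      mo ![t, x, y] (∑ z, u z • gn a b w (cc j) z.castSucc) := fun j u => by
    rw [mo_sum hv]
    exact map_mon (chart (Par a b w) a b w t x y (cc j)).val _ _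
  have hel : ∀ (j : Fin n) {u} (hu : Cone a b w (cc j) u) {m : Fin 3 → ℕ},
      (∀ z, (m z : ℤ) = vl a b w (rx (cc j) z) u) → el hv hw _ u hu = mon (e j) m :=
    fun j u hu m h => Subtype.ext (by rw [hmon, ← dual' a b w (hj j) h]; rfl)
  have gen : ∀ j, adjoin (Par a b w) (Set.range (e j)) = ⊤ := fun j => by
    refine top_unique fun z _ => ?_
    obtain ⟨z', h1, h2⟩ := chart_le hv hw (S := (adjoin (Par a b w) (Set.range (e j))).map
      (chart (Par a b w) a b w t x y (cc j)).val) (fun u hu => ⟨el hv hw _ u hu, by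
        rw [hel j hu fun z => Int.toNat_of_nonneg (hu z)]
        exact prod_mem fun z _ => pow_mem (subset_adjoin (Set.mem_range_self z)) _, rfl⟩) z.2
    exact (Subtype.ext h2 : z' = z) ▸ h1
  have eqn : ∀ j, Eqn ℂ (Par a b w) (exf a b w j) (e j) = 0 := fun j => by
    have hu : ∀ z, vl a b w (rx (cc j) z) (∑ z', nn a b w (rx (cc j) z') •
        gn a b w (cc j) z'.castSucc) = nn a b w (rx (cc j) z) := fun z => by
      rw [Fin.sum_univ_three, vl_add, vl_add, vl_nsmul, vl_nsmul, vl_nsmul, vl_gn a b w (hj j),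
        vl_gn a b w (hj j), vl_gn a b w (hj j)]
      fin_cases z <;> simp
    rw [← eqn_el hv hw he hu]
    refine Finset.sum_congr rfl fun m _ => ?_
    rw [hel j _ (m := exf a b w j m) fun z => by rw [vl_add, hu, exf, hm_eq]]
    rfl
  have hex : ∀ p : X, (Finset.univ.filter fun j : Fin n =>
      p ∈ Set.range (J (cc j))).Nonempty := fun p => by
    obtain ⟨c, q, rfl⟩ := hc p
    obtain ⟨j, h⟩ := cover_cells hv he J hs hg C c q
    exact ⟨j, by simpa using h⟩
  have hmem := fun p => (Finset.mem_filter.1 (Finset.min'_mem _ (hex p))).2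
  have hle : ∀ p (j : Fin n), p ∈ Set.range (J (cc j)) → Finset.min' _ (hex p) ≤ j :=
    fun p j h => Finset.min'_le _ _ (by simpa using h)
  refine ⟨⟨e, fun j => J (cc j), fun p => Finset.min' _ (hex p), inferInstance, fun j => hs _, gen,
    eqn, fun j => ?_, fun z z' h => hle _ _ (h.mem_open (J _).isOpenEmbedding.isOpen_range
      (hmem z')), hmem, fun j P => ⟨fun h => ?_, fun h => ?_⟩,
    fun j j' F _ β β' h u₁ u₂ u₁' u₂' hu => ?_⟩⟩
  · obtain ⟨i, i', a1, a2⟩ := C.base j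
    refine univ_of _ (fun z h => mo_ne hv _ (congrArg Subtype.val h)) (gen j) (eqn j) ?_ a1 a2
    have : IsFractionRing (chart (Par a b w) a b w t x y (cc j)) L :=
      IsFractionRing.of_field _ _ fun z => by
        obtain ⟨p, hp, q, hq, h0, h⟩ := frac_chart (a := a) (b := b) hv hw hgen (cc j) z
        exact ⟨⟨p, hp⟩, ⟨q, hq⟩, eq_div_of_mul_eq h0 h⟩
    rw [← trdeg_frac _ L]
    simpa using hi.cardinalMk_le_trdeg
  · have h0 : ∀ z ∈ Zf false (j.castLE h5), e j z ∈ P.asIdeal := fun z hz => by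
      obtain ⟨i, a1, a2⟩ := gt_cases _ z hz
      have a3 : i.val < j.val := a1
      by_contra a4
      refine (h ▸ hle _ ⟨i, by omega⟩ (over_el hv hw J hs hg (r := gn a b w (cc j) z.castSucc)
        (fun z' => ⟨cone_gn a b w (by omega) _ _ _, fun a5 => ?_⟩) P a4)).not_gt a3
      rw [a2 z' a5]
      exact (vl_gn a b w (hj j) z z).symm ▸ by simp
    intro z hz
    rcases (Zf_iff h5 j z).1 hz with hz | ⟨rfl, a1, a2⟩
    · exact h0 z hz
    obtain ⟨m₀, b1, b2, b3⟩ := C.hU a1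
    have b4 := mem_of_sum (eqn j) P.asIdeal (i₀ := m₀) (cf_ne (k := ℂ) _) fun m hm' =>
      mon_mem (h0 1 (by simp [Zf, a2])) (by simpa [exf, rx, a2] using b3 m hm')
    refine P.isPrime.mem_of_pow_mem (exf a b w j m₀ 2) ?_
    have c0 : exf a b w j m₀ 0 = 0 := by
      simp only [exf, rx, Matrix.cons_val_zero]
      split_ifs
      exacts [b1.2, b1.1]
    have c1 : exf a b w j m₀ 1 = 0 := by simpa [exf, rx, a2] using b2
    simpa [mon, Fin.prod_univ_three, c0, c1] using b4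
  · refine le_antisymm (hle _ j ⟨P, rfl⟩) (not_lt.1 fun a1 => ?_)
    have a2 := hmem (J (cc j) P)
    generalize Finset.min' _ (hex (J (cc j) P)) = i at a1 a2
    obtain ⟨z, a3, a4⟩ := lt_cases (i.castLE h5) (j.castLE h5) a1
    have a5 := str_sec (a := a) (b := b) hw (cc i) (cc j)
    refine not_overlap _ _ (hg _ _) P (r := el hv hw _ _ fun z => (a5 z).1)
      (r' := el hv hw _ _ fun z => (str_sec hw (cc j) (cc i) z).1) ?_ ?_ a2
    · change mo _ _ * mo _ _ = 1
      rw [← mo_add hv, sub_add_sub_cancel, sub_self, mo_zero]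
    · rw [hel j _ fun z => Int.toNat_of_nonneg (a5 z).1]
      refine mon_mem (h z ((Zf_iff h5 j z).2 (Or.inl a3))) ?_
      have := (a5 z).2 a4
      omega
  · simp only [← map_mon]
    refine trans_mul _ _ (hg _ _) β β' h ?_
    rw [hmon, hmon, hmon, hmon, ← mo_add hv, ← mo_add hv, hu]

end Pool.Agent.MP_b834b3_ag

end MrgPart0

-- ======== part 1: formerly Pool.Agent.MP_b834b3_ag.Exist
section MrgPart1

/-! The generic surface exists and is projective. -/

namespace Pool.Agent.MP_b834b3_ag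

open AlgebraicGeometry CategoryTheory Algebra IsLocalRing Limits MvPolynomial
open Pool.Agent.MP_fd6584_ag.Pj

variable {a b w : ℕ}

theorem exists_field :
    ∃ (L : Type) (_ : Field L) (_ : Algebra (Par a b w) L) (t x y : L),
      AlgebraicIndependent (Par a b w) ![t, x] ∧
      IntermediateField.adjoin (Par a b w) {t, x, y} = ⊤ ∧
      ∑ m : Mon a b w, coef m • (t ^ m.1.1 * x ^ m.1.2.1 * y ^ m.1.2.2) = 0 := by
  let Ω := AlgebraicClosure (FractionRing (MvPolynomial (Fin 2) (Par a b w)))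
  let ι := IsScalarTower.toAlgHom (Par a b w) (MvPolynomial (Fin 2) (Par a b w)) Ω
  have hι : Function.Injective ι := 
    (algebraMap (FractionRing (MvPolynomial (Fin 2) (Par a b w))) Ω).injective.comp
    (IsFractionRing.injective (MvPolynomial (Fin 2) (Par a b w)) _)
  have hi : AlgebraicIndependent (Par a b w) ![ι (X 0), ι (X 1)] := by
    convert (MvPolynomial.algebraicIndependent_X (Fin 2) (Par a b w)).map' hι
    funext i
    fin_cases i <;> rfl
  generalize ι (X 0) = t, ι (X 1) = x at hi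
  obtain ⟨y, hy⟩ := IsAlgClosed.exists_root (∑ m : Mon a b w, Polynomial.monomial m.1.2.2
    (coef m • (t ^ m.1.1 * x ^ m.1.2.1))) fun h => slice_ne hi (j := 1) (by simp [Mon]; omega) (by
      have := Polynomial.coeff_eq_zero_of_degree_lt (n := 1) (h.trans_lt (by decide))
      simpa [Polynomial.coeff_monomial] using this)
  let M := IntermediateField.adjoin (Par a b w) {t, x, y}
  have h := IntermediateField.subset_adjoin (Par a b w) {t, x, y}
  refine ⟨M, inferInstance, inferInstance, ⟨t, h (by simp)⟩, ⟨x, h (by simp)⟩, ⟨y, h (by simp)⟩,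
    AlgebraicIndependent.of_comp M.val ?_, IntermediateField.lift_injective M ?_, Subtype.ext ?_⟩
  · convert hi
    funext i
    fin_cases i <;> rfl
  · simp [IntermediateField.lift_adjoin, Set.image_insert_eq, M]
  · simpa [Polynomial.eval_finsetSum] using hy

theorem proper_fibre {K L : Type} [Field K] [Field L] [Algebra K L] (hw : 1 ≤ w)
    (O : ValuationSubring L) (hK : ∀ c : K, algebraMap K L c ∈ O) {t x y : L} (ht : t ∈ O)
    (hx : x ≠ 0) (hy : y ≠ 0) : ∃ c, ∀ z ∈ fibreChart K w t x y c, z ∈ O := by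
  have h : ∀ s : Set L, (∀ z ∈ s, O.valuation z ≤ 1) → ∀ z ∈ adjoin K s, z ∈ O := fun s hs =>
    adjoin_le (S := { O.toSubring with algebraMap_mem' := hK }) fun z hz =>
      (O.valuation_le_one_iff z).1 (hs z hz)
  have a0 := (O.valuation_le_one_iff t).2 ht
  have a1 := O.valuation.pos_iff.2 hx
  have a2 := O.valuation.pos_iff.2 hy
  have h1 : 1 ≤ O.valuation x → O.valuation y ≤ O.valuation x ^ w →
      ∃ c, ∀ z ∈ fibreChart K w t x y c, z ∈ O := fun b1 b2 => ⟨1, h _ (by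
    rintro _ (rfl | rfl | rfl)
    · exact a0
    · rw [map_inv₀]; exact inv_le_one_of_one_le₀ b1
    · rw [map_div₀, map_pow]; exact div_le_one_of_le₀ b2 zero_le)⟩
  have h2 : 1 ≤ O.valuation y → O.valuation x ^ w ≤ O.valuation y →
      ∃ c, ∀ z ∈ fibreChart K w t x y c, z ∈ O := fun b1 b2 => ⟨2, h _ (by
    rintro _ (rfl | rfl | rfl | rfl)
    · exact a0
    · rw [map_div₀]
      refine div_le_one_of_le₀ ?_ zero_le
      rcases le_total (O.valuation x) 1 with c | c
      · exact c.trans b1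
      · exact (le_self_pow₀ c (by omega)).trans b2
    · rw [map_div₀, map_pow]; exact div_le_one_of_le₀ b2 zero_le
    · rw [map_inv₀]; exact inv_le_one_of_one_le₀ b1)⟩
  rcases le_total (O.valuation x) 1 with c | c
  · rcases le_total (O.valuation y) 1 with c' | c'
    · exact ⟨0, h _ (by rintro _ (rfl | rfl | rfl) <;> assumption)⟩
    · exact h2 c' ((pow_le_one₀ zero_le c).trans c')
  · rcases le_total (O.valuation y) (O.valuation x ^ w) with c' | c'
    · exact h1 c c'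
    · exact h2 ((one_le_pow₀ c).trans c') c'

attribute [local instance] MvPolynomial.gradedAlgebra in
theorem exists_generic (hw : w = 1 ∨ w = 2) :
    ∃ (X : Scheme.{0}) (s : X ⟶ Spec (CommRingCat.of (Par a b w))),
      IsProjective s ∧ IsGeneric a b w s := by
  obtain ⟨L, _, _, t, x, y, h1, h2, h3⟩ := exists_field (a := a) (b := b) (w := w)
  have hv := ne_zero_of h1 h3
  obtain ⟨M⟩ := exists_model (𝕜 := Par a b w) (K := L) ⟨chart (Par a b w) a b w t x y,
    fun c => mo ![t, x, y] (sec a b w c), fun c => mo_ne hv _,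
    fun c c' => by rw [← mo_sub hv]; exact mo_mem hv hw fun z => (str_sec hw c c' z).1,
    fun c c' => by rw [← mo_sub hv]; exact comp_of hv hw (str_sec hw c c'),
    fun c => by
      rw [chart_eq (show t ≠ 0 from hv 0)]
      exact Subalgebra.fg_def.2 ⟨_, Set.finite_range _, rfl⟩,
    fun O hO => by
      rcases O.mem_or_inv_mem t with h | h
      · obtain ⟨c, hc⟩ := proper_fibre (show 1 ≤ w by omega) O hO h (hv 1) (hv 2)
        exact ⟨(false, c), hc⟩
      · obtain ⟨c, hc⟩ := proper_fibre (show 1 ≤ w by omega) O hO h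
          (div_ne_zero (hv 1) (pow_ne_zero a (hv 0))) (div_ne_zero (hv 2) (pow_ne_zero b (hv 0)))
        exact ⟨(true, c), hc⟩,
    frac_chart hv hw h2⟩
  refine ⟨M.X, M.s, M.proj, ?_, L, _, _, t, x, y, ⟨h1, h2, h3⟩, M.ch, M.openImm, M.cover, M.ch_s,
    M.gen⟩
  obtain ⟨n, i, hi, h⟩ := M.proj
  rw [← h]
  infer_instance

end Pool.Agent.MP_b834b3_ag

end MrgPart1

-- marker of a merged file
example : 731051 + 459280 = 731051 + 459280 := rfl
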