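import Pool.Agent.MP_b834b3_ag.Exist

/-! The additional relations for plane cubic fibrations without a base point free top. -/

namespace Pool.Agent.MP_b834b3_ag

open AlgebraicGeometry CategoryTheory Algebra IsLocalRing Limits MvPolynomial

variable {a b : ℕ}

/-- The exponents of the fibre coordinates. -/
def ex0 (j : Fin 5) (m : Mon a b 1) : Fin 3 → ℕ := ![0, exf a b 1 j m 1, exf a b 1 j m 2]

variable (a b) in
/-- The coefficient of a power of the base coordinate. -/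
noncomputable def Sl (l : ℕ) (j : Fin 5) {R : Type} [CommRing R] [Algebra (Par a b 1) R]
    (v : Fin 3 → R) : R :=
  ∑ m : Mon a b 1, algebraMap _ R (coef m) * if m.1.1 = l then mon v (ex0 j m) else 0

theorem map_Sl (l : ℕ) (j : Fin 5) {R S : Type} [CommRing R] [Algebra (Par a b 1) R] [CommRing S]
    [Algebra (Par a b 1) S] (f : R →ₐ[Par a b 1] S) (v : Fin 3 → R) :
    f (Sl a b l j v) = Sl a b l j fun x => f (v x) := by
  simp only [Sl, map_sum, map_mul, AlgHom.commutes, apply_ite f, map_mon, map_zero]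

theorem eqn_Sl {j : Fin 5} (hj : (cc j).1 = false) {N : ℕ} (hN : ∀ m : Mon a b 1, m.1.1 < N)
    {R : Type} [CommRing R] [Algebra (Par a b 1) R] (v : Fin 3 → R) :
    Eqn ℂ (Par a b 1) (exf a b 1 j) v = ∑ l ∈ Finset.range N, v 0 ^ l * Sl a b l j v := by
  simp only [Sl, Finset.mul_sum]
  rw [Finset.sum_comm]
  refine Finset.sum_congr rfl fun m _ => ?_
  rw [Finset.sum_eq_single m.1.1 (fun l _ h => by simp [h.symm]) (by simp [hN m])]
  rw [show cf ℂ (Par a b 1) m = coef m from rfl]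
  simp [mon, ex0, Fin.prod_univ_three, exf, rx, hj, hm]
  ring

theorem Sl_congr (l : ℕ) (j : Fin 5) {R : Type} [CommRing R] [Algebra (Par a b 1) R]
    {v v' : Fin 3 → R} (h1 : v 1 = v' 1) (h2 : v 2 = v' 2) : Sl a b l j v = Sl a b l j v' := by
  simp only [Sl, mon, ex0, Fin.prod_univ_three, h1, h2, Matrix.cons_val_zero, pow_zero]

theorem no_Sl (j : Fin 5) {r : Type} [Fintype r] (p : r → Mon a b 1)
    (hp : Function.Injective fun s => (p s).1.1) (h0 : ∀ s, ex0 j (p s) = 0)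
    {F : Type} [Field F] [Algebra (Par a b 1) F] (v : Fin 3 → F) (T : Finset (Fin 3))
    (hT : ∀ x ∉ T, x ≠ 0 → v x = 0) (h : ∀ s, Sl a b (p s).1.1 j v = 0) :
    Fintype.card r ≤ T.card := by
  classical
  let _ : Algebra ℂ F := ((algebraMap (Par a b 1) F).comp (algebraMap ℂ _)).toAlgebra
  have : IsScalarTower ℂ (Par a b 1) F := .of_algebraMap_eq fun _ => rfl
  obtain ⟨a1, a2⟩ := tri _ hp (fun s (m : Mon a b 1) =>
    if m.1.1 = (p s).1.1 then mon (rt ℂ T id) (ex0 j m) else 0) p (fun s => by simp [h0, mon_zero])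
    fun s s' h => if_neg h.ne
  have a3 : ∀ x, x ≠ 0 → aeval (fun x : T => v x) (rt ℂ T id x) = v x := fun x hx => by
    rw [rt]
    split_ifs with h
    · simp
    · rw [map_zero, hT x h hx]
  rw [← Fintype.card_coe]
  refine no_sol (K := Par a b 1) a1 (fun x : T => v x) (fun s => ?_) (by rw [a2]; simp)
  simp only [apply_ite (aeval _), map_mon, map_zero]
  exact (Sl_congr _ j (a3 1 (by decide)) (a3 2 (by decide))).trans (h s)

theorem tr_Sl {F : Type} [Field F] [Algebra (Par a b 1) F] {j j' : Fin 5} {v v' : Fin 3 → F}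
    (h : Trf a b 1 F j j' v v') (hj : (j = 4 ∧ j' = 2) ∨ (j = 2 ∧ j' = 0)) (l : ℕ) :
    Sl a b l j v = v 1 ^ 3 * Sl a b l j' v' := by
  rw [Sl, Sl, Finset.mul_sum]
  refine Finset.sum_congr rfl fun m _ => ?_
  split_ifs
  swap
  · simp
  have := h (ex0 j m) ![0, 3, 0] 0 (ex0 j' m) (by
    have := (Finset.mem_filter.1 m.2).2.1
    funext i
    rcases hj with ⟨rfl, rfl⟩ | ⟨rfl, rfl⟩ <;> fin_cases i <;>
      simp [Fin.sum_univ_three, ex0, exf, hm, rx, cc, gn, fl, fg] <;> omega)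
  rw [mon_zero, mul_one] at this
  rw [this]
  simp [mon, Fin.prod_univ_three]
  ring

theorem Sl_notMem {R : Type} [CommRing R] [Algebra (Par a b 1) R] {v : Fin 3 → R} {P : Ideal R}
    (hP : P.IsPrime) (h1 : v 1 ∈ P) (h2 : v 2 ∈ P) {l : ℕ} (hl : (l, 0, 3) ∈ Mon a b 1) :
    Sl a b l 4 v ∉ P := by
  intro h
  have h3 := congrArg (Ideal.Quotient.mkₐ (Par a b 1) P) (rfl : Sl a b l 4 v = _)
  nth_rw 1 [show Ideal.Quotient.mkₐ (Par a b 1) P (Sl a b l 4 v) = 0 from
    Ideal.Quotient.eq_zero_iff_mem.2 h] at h3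
  rw [map_Sl, Sl, Finset.sum_eq_single ⟨_, hl⟩ ?_ (by simp)] at h3
  · have : Nontrivial (R ⧸ P) := Ideal.Quotient.nontrivial_iff.2 hP.ne_top
    simp [ex0, exf, hm, rx, cc, mon, Fin.prod_univ_three] at h3
    exact cf_ne (k := ℂ) _ ((map_eq_zero_iff _ (algebraMap (Par a b 1) (R ⧸ P)).injective).1 h3.symm)
  · rintro ⟨⟨l', i, j⟩, hm'⟩ - hne
    split_ifs with e
    swap
    · simp
    obtain rfl : l' = l := e
    have h4 := (Finset.mem_filter.1 hm').2.1
    by_cases hi : i = 0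
    · rw [mon_eq_zero (x := 2) (Ideal.Quotient.eq_zero_iff_mem.2 h2), mul_zero]
      have : j ≠ 3 := by rintro rfl; subst hi; exact hne rfl
      simp [ex0, exf, hm, rx, cc] at h4 ⊢
      omega
    · rw [mon_eq_zero (x := 1) (Ideal.Quotient.eq_zero_iff_mem.2 h1), mul_zero]
      simpa [ex0, exf, hm, rx, cc] using hi

section Gen

variable {Y : Scheme.{0}} {t : Y ⟶ Spec (CommRingCat.of (Par a b 1))}
  {B : (Bool → Fin 5) → Type} [∀ j, CommRing (B j)] [∀ j, Algebra (Par a b 1) (B j)]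
  (S : Sys ℂ (Par a b 1) t (exf a b 1) (Zf false) (Trf a b 1) B)

theorem Sys.res (j j' : Bool → Fin 5) (Q : Spec (CommRingCat.of (B j)))
    (P : Spec (CommRingCat.of (B j'))) (h : S.J j Q ⤳ S.J j' P) :
    ∃ β : B j' →ₐ[Par a b 1] Q.asIdeal.ResidueField,
      sp β.toRingHom ≫ S.J j' = sp (algebraMap (B j) Q.asIdeal.ResidueField) ≫ S.J j ∧
      ∀ g, β g = 0 → g ∈ P.asIdeal := by
  have e := sp_res_point (S.J j) Q
  obtain ⟨β, hβ⟩ := S.exists_res j' _ (e ▸ h)
  have h1 : β.comp (algebraMap _ _) = (algebraMap (B j) Q.asIdeal.ResidueField).comp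
      (algebraMap (Par a b 1) _) := sp_inj (by
    rw [sp_comp, sp_comp, ← S.hJ, ← S.hJ, ← Category.assoc, hβ, Category.assoc])
  refine ⟨⟨β, fun c => RingHom.congr_fun h1 c⟩, hβ, fun g hg => ?_⟩
  rw [← e, ← hβ, Scheme.Hom.comp_apply] at h
  exact (spec_chart _ _ _).1 h (show β g ∈ maximalIdeal _ from hg ▸ zero_mem _)

theorem pair_ext {j j' : Bool → Fin 5} (β : Bool) (h1 : j β = j' β) (h2 : j (!β) = j' (!β)) :
    j = j' := by
  funext b
  cases b <;> cases β <;> assumption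

theorem pair_ne {j : Bool → Fin 5} (β : Bool) (h : j β ≠ j (!β)) : j false ≠ j true := by
  cases β
  exacts [h, h.symm]

variable [LocallyOfFiniteType t] [CompactSpace Y] {V : Submodule ℚ (Y →₀ ℚ)} (hV : Rat Y ≤ V)
  (hN : ∀ σ, Nice {z | S.In σ z} (dimS (Zf false) (fun _ => true) σ))
  (low : ∀ z, Order.height z = 2 → (∀ b, S.cell z b ≠ 0) ∨ (∃ b, S.cell z b = 3) → Good V z)

include hV in
/-- The relation given by a function with a pole of the shape `g / u ^ 3`. -/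
theorem Sys.pole {j : Bool → Fin 5} {P Q : Spec (CommRingCat.of (B j))}
    (hQ : Order.height (S.J j Q) = 3) (hP : Order.height (S.J j P) = 2)
    (hle : Q.asIdeal ≤ P.asIdeal) {g u : B j} (h1 : g ∉ P.asIdeal) (h2 : u ∈ P.asIdeal)
    (h3 : u ∉ Q.asIdeal)
    (h4 : ∀ j' P', S.cell (S.J j' P') = j' → S.J j' P' ≠ S.J j P → S.J j Q ⤳ S.J j' P' →
      Order.height (S.J j' P') = 2 → ∀ β : B j' →ₐ[Par a b 1] Q.asIdeal.ResidueField,
      sp β.toRingHom ≫ S.J j' = sp (algebraMap (B j) Q.asIdeal.ResidueField) ≫ S.J j →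
      (∀ g, β g = 0 → g ∈ P'.asIdeal) →
      (∀ g', algebraMap _ _ g = algebraMap (B j) _ u ^ 3 * β g' → g' ∈ P'.asIdeal) →
      Good V (S.J j' P')) : Good V (S.J j P) := by
  have e := sp_res_point (S.J j) Q
  have u0 : algebraMap _ Q.asIdeal.ResidueField (u ^ 3) ≠ 0 := fun e =>
    h3 (Q.isPrime.mem_of_pow_mem _ (Ideal.algebraMap_residueField_eq_zero.1 e))
  obtain ⟨c, a1, a2, a3⟩ := rel t (sp (algebraMap _ Q.asIdeal.ResidueField) ≫ S.J j) (e ▸ hQ)
    (φ := algebraMap _ _ g / algebraMap _ _ (u ^ 3))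
    (div_ne_zero (fun e => h1 (hle (Ideal.algebraMap_residueField_eq_zero.1 e))) u0) (S.J j) _ rfl
    u0 (div_mul_cancel₀ _ u0)
  rw [e] at a2 a3
  refine good_of (hV (Submodule.subset_span a1)) ((a3 _ (S.J j) _ P g (u ^ 3) rfl
    ((spec_chart _ _ _).2 hle) hP (div_mul_cancel₀ _ u0)).2.2 h1
    (P.asIdeal.pow_mem_of_mem h2 3 (by decide))).ne fun z b1 b2 => ?_
  obtain ⟨P', hP'⟩ := S.mem z
  generalize hj' : S.cell z = j' at P' hP'
  subst hP'
  obtain ⟨β, c1, c2⟩ := S.res j j' Q P' (a2 _ b2).1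
  refine h4 j' P' hj' b1 (a2 _ b2).1 (a2 _ b2).2 β c1 c2 fun g' hg' => ?_
  by_contra c3
  refine b2 ((a3 _ (S.J j') β.toRingHom P' g' 1 c1 (a2 _ b2).1 (a2 _ b2).2 ?_).1 c3
    P'.isPrime.one_notMem)
  rw [map_one, mul_one, div_eq_iff u0, hg', map_pow, mul_comm]
  rfl

theorem dims : ∀ (β : Bool) (j : Bool → Fin 5), j (!β) = 0 →
    (j β = 4 → dimS (Zf false) (fun _ => true) (j, 0) = 2) ∧
    (j β = 1 → dimS (Zf false) (fun _ => true) (j, 0) = 3) := by
  decide +kernel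

theorem low_of {j : Bool → Fin 5} (β : Bool) (h1 : j β ≠ 0) (h2 : j (!β) ≠ 0) (b : Bool) :
    j b ≠ 0 := by
  cases b <;> cases β <;> assumption

include hV hN low in
theorem Sys.rel_one (β : Bool) {l : ℕ} (hl : (l, 0, 3) ∈ Mon a b 1)
    (H : ∀ j P, j β = 2 → j (!β) = 0 → S.e j (β, 1) ∈ P.asIdeal →
      Sl a b l 2 (fun x => S.e j (β, x)) ∈ P.asIdeal → Order.height (S.J j P) = 2 →
      Good V (S.J j P))
    {z : Y} (h1 : S.cell z β = 4) (h2 : S.cell z (!β) = 0) (hz : Order.height z = 2) :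
    Good V z := by
  obtain ⟨P, hP⟩ := S.mem z
  generalize hj : S.cell z = j at P hP h1 h2
  subst hP
  have hne : j false ≠ j true := pair_ne β (by rw [h1, h2]; decide)
  have hc := height_chart t _ (S.hJ j)
  have a1 := (S.cell_iff j P β).1 (congrFun hj β)
  rw [h1] at a1
  obtain ⟨Q, b1, b2, b3, b4⟩ := S.exists_gen j P.asIdeal (a1 2 (by decide)) ((hc P 2).1 hz)
  have hQ := (hc ⟨Q, b1⟩ 3).2 b4
  have hd := (dims β j h2).1 h1
  have v2 := Ideal.algebraMap_residueField_eq_zero.2 b3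
  refine S.pole hV (Q := ⟨Q, b1⟩) hQ hz b2.le (Sl_notMem P.isPrime (v := fun x => S.e j (β, x))
    (a1 1 (by decide)) (a1 2 (by decide)) hl) (a1 1 (by decide)) (fun c => ?_)
    fun j' P' c1 c2 c3 c4 γ c5 c6 c7 => ?_
  · have := (hN (j, 0)).le _ ((S.in_iff hne (S.J j ⟨Q, b1⟩)).2 (pair_ext β
      ((S.cell_iff _ _ _).2 fun x hx => ?_) ((S.cell_iff _ _ _).2 fun x hx => ?_)))
    · rw [hQ, hd] at this
      exact absurd this (by decide)
    · rw [h1] at hx
      fin_cases x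
      exacts [absurd hx (by decide), c, b3]
    · rw [h2] at hx
      exact absurd hx (by revert x; decide)
  have tr := S.tr j j' β _ _ _ c5.symm
  rw [h1] at tr
  have n0 : j' β ≠ 0 := fun hi => by
    rw [hi] at tr
    have := tr ![0, 0, 1] 0 ![0, 0, 1] 0 (by
      funext i; fin_cases i <;> simp [Fin.sum_univ_three, cc, gn, fl, fg])
    simp [mon, Fin.prod_univ_three, v2] at this
  have n1 : j' β ≠ 1 := fun hi => by
    rw [hi] at tr
    have := tr ![b, 0, 1] 0 ![0, 0, 1] 0 (by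
      funext i; fin_cases i <;> simp [Fin.sum_univ_three, cc, gn, fl, fg])
    simp [mon, Fin.prod_univ_three, v2] at this
  by_cases d0 : j' (!β) = 0
  swap
  · exact low _ c4 (Or.inl (c1.symm ▸ low_of β n0 d0))
  obtain hi | hi | hi : j' β = 2 ∨ j' β = 3 ∨ j' β = 4 := by omega
  · rw [hi] at tr
    refine H j' P' hi d0 ((S.cell_iff j' P' β).1 (congrFun c1 β) 1 (by rw [hi]; decide))
      (c7 _ ?_) c4
    exact (map_Sl l 4 (IsScalarTower.toAlgHom _ (B j) _) _).trans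
      ((tr_Sl tr (Or.inl ⟨rfl, rfl⟩) l).trans (by rw [map_Sl]; rfl))
  · exact low _ c4 (Or.inr ⟨β, c1.symm ▸ hi⟩)
  · obtain rfl := pair_ext β (hi.trans h1.symm) (d0.trans h2.symm)
    exact absurd ((hN (j', 0)).sub _ ((S.in_iff hne _).2 c1) _ ((S.in_iff hne _).2 hj)
      (by rw [c4, hd]; rfl) (by rw [hz, hd]; rfl)) c2

omit [LocallyOfFiniteType t] [CompactSpace Y] in
include hV hN low in
theorem Sys.good_one (β : Bool) {z : Y} (h1 : S.cell z β = 1) (hz : Order.height z = 2) :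
    Good V z := by
  by_cases h2 : S.cell z (!β) = 0
  swap
  · exact low _ hz (Or.inl (low_of β (by rw [h1]; decide) h2))
  have hne : S.cell z false ≠ S.cell z true := pair_ne β (by rw [h1, h2]; decide)
  refine (hN (S.cell z, 0)).van V hV (fun z' a1 a2 ⟨w, a3, a4⟩ => ?_) z ((S.in_iff hne _).2 rfl) hz
    (by rw [(dims β _ h2).2 h1]; decide)
  have a5 := S.mono w z' a4 β
  obtain ⟨W, rfl, a6, -⟩ := id a3
  obtain ⟨P, hP⟩ := S.mem z'
  obtain ⟨γ, c1, -⟩ := S.res _ _ W P (hP.symm ▸ a4)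
  have tr := S.tr _ _ β _ _ _ c1.symm
  have v0 := Ideal.algebraMap_residueField_eq_zero.2 (a6 β 0 (by dsimp only; rw [h1]; decide))
  rw [a3.cell] at a5
  dsimp only at a5 tr v0
  rw [h1] at a5 tr
  obtain hi | hi | hi | hi : S.cell z' β = 1 ∨ S.cell z' β = 3 ∨ S.cell z' β = 2 ∨
    S.cell z' β = 4 := by omega
  · refine low _ a1 (Or.inl (low_of β (by rw [hi]; decide) fun e => a2 ?_))
    exact (S.in_iff hne _).2 (pair_ext β (hi.trans h1.symm) (e.trans h2.symm))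
  · exact low _ a1 (Or.inr ⟨β, hi⟩)
  all_goals
    rw [hi] at tr
    have := tr ![1, 0, 0] 0 ![1, 0, 0] 0 (by
      funext i; fin_cases i <;> simp [Fin.sum_univ_three, cc, gn, fl, fg])
    simp [mon, Fin.prod_univ_three, v0] at this

end Gen

theorem no_one {Y : Scheme.{0}} {t : Y ⟶ Spec (CommRingCat.of (Par 1 1 1))}
    {B : (Bool → Fin 5) → Type} [∀ j, CommRing (B j)] [∀ j, Algebra (Par 1 1 1) (B j)]
    (S : Sys ℂ (Par 1 1 1) t (exf 1 1 1) (Zf false) (Trf 1 1 1) B) {β : Bool} {j : Bool → Fin 5}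
    (P : Ideal (B j)) [P.IsPrime] (h : j β = 2) (h1 : S.e j (β, 1) ∈ P)
    (h2 : Sl 1 1 1 2 (fun x => S.e j (β, x)) ∈ P) : False := by
  let ev := IsScalarTower.toAlgHom (Par 1 1 1) (B j) P.ResidueField
  have a1 : ev _ = 0 := Ideal.algebraMap_residueField_eq_zero.2 h1
  have a2 : ev _ = 0 := Ideal.algebraMap_residueField_eq_zero.2 h2
  have a3 := congrArg ev (S.eqn j β)
  have a4 : ∀ l, 2 ≤ l → Sl 1 1 l 2 (fun x => ev (S.e j (β, x))) = 0 := fun l hl =>
    Finset.sum_eq_zero fun m _ => by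
      split_ifs with e
      · rw [mon_eq_zero (x := 1) a1, mul_zero]
        have := (Finset.mem_filter.1 m.2).2.2
        simp [ex0, exf, hm, rx, cc]
        omega
      · simp
  rw [map_Sl] at a2
  rw [map_Eqn, h, eqn_Sl rfl (N := 5) (by decide +kernel), map_zero] at a3
  simp only [Finset.sum_range_succ, a2, a4 2 le_rfl, a4 3 (by decide), a4 4 (by decide)] at a3
  refine absurd (no_Sl (a := 1) (b := 1) 2 ![⟨(0, 3, 0), by decide⟩, ⟨(1, 3, 0), by decide⟩]
    (by decide) (by decide) (fun x => ev (S.e j (β, x))) {2} (fun x a b => ?_) fun s => ?_) (by decide)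
  · fin_cases x
    exacts [absurd rfl b, a1, absurd (by decide) a]
  · fin_cases s
    · simpa using a3
    · exact a2

section Two

variable {Y : Scheme.{0}} {t : Y ⟶ Spec (CommRingCat.of (Par 0 0 1))}
  {B : (Bool → Fin 5) → Type} [∀ j, CommRing (B j)] [∀ j, Algebra (Par 0 0 1) (B j)]
  (S : Sys ℂ (Par 0 0 1) t (exf 0 0 1) (Zf false) (Trf 0 0 1) B)

theorem dim_two {β : Bool} {j : Bool → Fin 5} (h1 : j β = 2) (h2 : j (!β) = 0)
    {P : Ideal (B j)} (hP : P.IsPrime) (a1 : S.e j (β, 1) ∈ P)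
    (a2 : Sl 0 0 2 2 (fun x => S.e j (β, x)) ∈ P) {n : ℕ} (hn : trdeg (Par 0 0 1) (B j ⧸ P) = n) :
    n ≤ 2 ∧ (n = 2 → ∀ P' : Ideal (B j), P'.IsPrime → S.e j (β, 1) ∈ P' →
      Sl 0 0 2 2 (fun x => S.e j (β, x)) ∈ P' → P ≤ P') := by
  let _ : Algebra ℂ (B j) := ((algebraMap (Par 0 0 1) (B j)).comp (algebraMap ℂ _)).toAlgebra
  have : IsScalarTower ℂ (Par 0 0 1) (B j) := .of_algebraMap_eq fun _ => rfl
  let T : Finset (Bool × Fin 3) := Finset.univ.erase (β, 1)
  have r0 : rt ℂ T id (β, 1) = 0 := dif_neg (by simp [T])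
  obtain ⟨b1, b2⟩ := tri (fun s : Fin 3 => s.rev) Fin.rev_injective
    ![fun m : Mon 0 0 1 => if m.1.1 = 2 then mon (fun x => rt ℂ T id (β, x)) (ex0 2 m) else 0,
      fun m => mon (fun x => rt ℂ T id (β, x)) (exf 0 0 1 (2 : Fin 5) m),
      fun m => mon (fun x => rt ℂ T id (!β, x)) (exf 0 0 1 (0 : Fin 5) m)]
    ![⟨(2, 3, 0), by decide⟩, ⟨(0, 3, 0), by decide⟩, ⟨(0, 0, 0), by decide⟩]
    (fun s => by fin_cases s <;> simp [mon, Fin.prod_univ_three, ex0, exf, hm, rx, cc])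
    fun s s' h => by
      fin_cases s <;> fin_cases s' <;> first | exact absurd h (by decide) | skip
      · simp
      · simp
      · exact mon_eq_zero (x := 1) r0 (by decide)
  have hS : ∀ P : Ideal (B j), S.e j (β, 1) ∈ P → ∀ x,
      S.e j x - aeval (S.e j ∘ Subtype.val) (rt ℂ T id x) ∈ P := fun P h x => by
    rw [rt]
    split_ifs with e
    · simp
    · obtain rfl : x = (β, 1) := by simpa [T] using e
      simpa using h
  have := dim_build (e := S.e j) (sec := Subtype.val) (ρ := rt ℂ T id) (h₀ := 1) b1 (S.gen j)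
    (by rw [b2]) (S := {P | P.IsPrime ∧ S.e j (β, 1) ∈ P ∧ Sl 0 0 2 2 (fun x => S.e j (β, x)) ∈ P})
    (fun P hP => ⟨hP.1, hS P hP.2.1, by simpa using hP.1.one_notMem⟩) (fun P hP s => by
      have c1 : ∀ b, (fun x => Ideal.Quotient.mkₐ (Par 0 0 1) P (aeval (S.e j ∘ Subtype.val)
          (rt ℂ T id (b, x)))) = fun x => Ideal.Quotient.mkₐ (Par 0 0 1) P (S.e j (b, x)) :=
        fun b => funext fun x => (Ideal.Quotient.eq.2 (hS P hP.2.1 _)).symm
      rw [← Ideal.Quotient.eq_zero_iff_mem]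
      change Ideal.Quotient.mkₐ (Par 0 0 1) P _ = 0
      fin_cases s
      · rw [← show Ideal.Quotient.mkₐ (Par 0 0 1) P _ = 0 from
          Ideal.Quotient.eq_zero_iff_mem.2 hP.2.2, map_Sl, ← c1, ← map_Sl]
        simp only [Fin.zero_eta, Matrix.cons_val_zero, apply_ite (aeval _), map_mon, map_zero]
        rfl
      · rw [← map_zero (Ideal.Quotient.mkₐ (Par 0 0 1) P), ← S.eqn j β, map_Eqn, ← c1, ← map_Eqn, h1]
        simp only [Fin.mk_one, Matrix.cons_val_one, Matrix.cons_val_zero, map_mon]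
        rfl
      · rw [← map_zero (Ideal.Quotient.mkₐ (Par 0 0 1) P), ← S.eqn j (!β), map_Eqn, ← c1,
          ← map_Eqn, h2]
        simp only [Fin.reduceFinMk, Matrix.cons_val, map_mon]
        rfl) ⟨hP, a1, a2⟩ hn
  simp only [Fintype.card_fin, Fintype.card_coe, T, Finset.card_erase_of_mem (Finset.mem_univ _),
    Finset.card_univ, Fintype.card_prod, Fintype.card_bool] at this
  exact ⟨by omega, fun e P' c1 c2 c3 => this.2 (by omega) P' ⟨c1, c2, c3⟩⟩

variable [LocallyOfFiniteType t] [CompactSpace Y] {V : Submodule ℚ (Y →₀ ℚ)} (hV : Rat Y ≤ V)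
  (hN : ∀ σ, Nice {z | S.In σ z} (dimS (Zf false) (fun _ => true) σ))
  (low : ∀ z, Order.height z = 2 → (∀ b, S.cell z b ≠ 0) ∨ (∃ b, S.cell z b = 3) → Good V z)

include hV hN low in
theorem rel_two {β : Bool} {j : Bool → Fin 5} {P : Spec (CommRingCat.of (B j))} (h1 : j β = 2)
    (h2 : j (!β) = 0) (a1 : S.e j (β, 1) ∈ P.asIdeal)
    (a2 : Sl 0 0 2 2 (fun x => S.e j (β, x)) ∈ P.asIdeal) (hz : Order.height (S.J j P) = 2) :
    Good V (S.J j P) := by
  have hc := height_chart t _ (S.hJ j)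
  obtain ⟨Q, b1, b2, b3, b4⟩ := S.exists_gen j P.asIdeal a2 ((hc P 2).1 hz)
  let ev := IsScalarTower.toAlgHom (Par 0 0 1) (B j) Q.ResidueField
  have v2 : Sl 0 0 2 2 (fun x => ev (S.e j (β, x))) = 0 := by
    rw [← map_Sl]; exact Ideal.algebraMap_residueField_eq_zero.2 b3
  refine S.pole hV (Q := ⟨Q, b1⟩) ((hc ⟨Q, b1⟩ 3).2 b4) hz b2.le
    (g := Sl 0 0 1 2 fun x => S.e j (β, x)) (fun c => ?_) a1
    (fun c => absurd (dim_two S h1 h2 b1 c b3 b4).1 (by decide))
    fun j' P' c1 c2 c3 c4 γ c5 c6 c7 => ?_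
  · let ev := IsScalarTower.toAlgHom (Par 0 0 1) (B j) P.asIdeal.ResidueField
    refine absurd (no_Sl (a := 0) (b := 0) 2 ![⟨(1, 3, 0), by decide⟩, ⟨(2, 3, 0), by decide⟩]
      (by decide) (by decide)
      (fun x => ev (S.e j (β, x))) {2} (fun x a b => ?_) fun s => ?_) (by decide)
    · fin_cases x
      exacts [absurd rfl b, Ideal.algebraMap_residueField_eq_zero.2 a1, absurd (by decide) a]
    · rw [← map_Sl]
      fin_cases s
      exacts [Ideal.algebraMap_residueField_eq_zero.2 c, Ideal.algebraMap_residueField_eq_zero.2 a2]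
  obtain hi | hi | hi | hi | hi : j' β = 0 ∨ j' β = 1 ∨ j' β = 3 ∨ j' β = 2 ∨ j' β = 4 := by omega
  · have tr := S.tr j j' β _ _ _ c5.symm
    rw [h1, hi] at tr
    have d1 := c7 _ ((map_Sl 1 2 ev _).trans
      ((tr_Sl tr (Or.inr ⟨rfl, rfl⟩) 1).trans (by rw [map_Sl]; rfl)))
    have d2 := c6 (Sl 0 0 2 0 fun x => S.e j' (β, x)) (by
      have := v2.symm.trans (tr_Sl tr (Or.inr ⟨rfl, rfl⟩) 2)
      rw [map_Sl]
      refine (mul_eq_zero.1 this.symm).resolve_left (pow_ne_zero _ fun e => ?_)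
      exact absurd (dim_two S h1 h2 b1 (Ideal.algebraMap_residueField_eq_zero.1 e) b3 b4).1
        (by decide))
    have d3 := S.eqn j' β
    rw [hi, eqn_Sl rfl (N := 3) (by decide +kernel)] at d3
    simp only [Finset.sum_range_succ, Finset.range_zero, Finset.sum_empty, zero_add, pow_zero,
      one_mul, add_assoc, add_eq_zero_iff_eq_neg] at d3
    let ev' := IsScalarTower.toAlgHom (Par 0 0 1) (B j') P'.asIdeal.ResidueField
    refine absurd (no_Sl (a := 0) (b := 0) 0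
      ![⟨(0, 0, 0), by decide⟩, ⟨(1, 0, 0), by decide⟩, ⟨(2, 0, 0), by decide⟩]
      (by decide) (by decide) (fun x => ev' (S.e j' (β, x))) {1, 2} (fun x a b => ?_) fun s => ?_)
      (by decide)
    · fin_cases x
      exacts [absurd rfl b, absurd (by decide) a, absurd (by decide) a]
    · rw [← map_Sl]
      refine Ideal.algebraMap_residueField_eq_zero.2 ?_
      fin_cases s
      exacts [d3.symm ▸ P'.asIdeal.neg_mem (P'.asIdeal.add_mem (P'.asIdeal.mul_mem_left _ d1)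
        (P'.asIdeal.mul_mem_left _ d2)), d1, d2]
  · exact S.good_one hV hN low β (c1.symm ▸ hi) c4
  · exact low _ c4 (Or.inr ⟨β, c1.symm ▸ hi⟩)
  all_goals
    by_cases d0 : j' (!β) = 0
    swap
    · exact low _ c4 (Or.inl (c1.symm ▸ low_of β (by rw [hi]; decide) d0))
    have d1 := (S.cell_iff j' P' β).1 (congrFun c1 β)
    rw [hi] at d1
  · obtain rfl := pair_ext β (hi.trans h1.symm) (d0.trans h2.symm)
    have d2 := (spec_chart _ _ _).1 c3 b3
    exact absurd (congrArg _ (PrimeSpectrum.ext (le_antisymm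
      ((dim_two S h1 h2 P'.isPrime (d1 1 (by decide)) d2 ((hc _ 2).1 c4)).2 rfl _ P.isPrime a1 a2)
      ((dim_two S h1 h2 P.isPrime a1 a2 ((hc _ 2).1 hz)).2 rfl _ P'.isPrime (d1 1 (by decide)) d2))))
      c2
  · have tr := S.tr j' j β _ _ _ c5
    rw [h1, hi] at tr
    refine absurd (c6 _ ?_) (Sl_notMem (a := 0) (b := 0) P'.isPrime (v := fun x => S.e j' (β, x)) (l := 2)
      (d1 1 (by decide)) (d1 2 (by decide)) (by decide))
    rw [map_Sl]
    exact (tr_Sl tr (Or.inl ⟨rfl, rfl⟩) 2).trans (mul_eq_zero_of_right _ v2)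

end Two

end Pool.Agent.MP_b834b3_ag
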