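import Pool.Agent.MP_b834b3_ag.Extra
import Pool.Agent.MP_b834b3_ag.Exist

/-! The bound for the six families. -/

namespace Pool.Agent.MP_b834b3_ag

open AlgebraicGeometry CategoryTheory Algebra IsLocalRing Limits MvPolynomial

variable {a b w : ℕ} {X : Scheme.{0}} {s : X ⟶ Spec (CommRingCat.of (Par a b w))}

theorem exists_sys {n : ℕ} {U : Bool} (C : Cfg a b w n U) {q : Fin n → Bool}
    (D : Comb (exf a b w) (Zf U) q) (hle : ∀ j, q j → ∃ x, x ∉ Zf U j) (h : IsGeneric a b w s) :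
    ∃ (B : (Bool → Fin n) → Type) (_ : ∀ j, CommRing (B j)) (_ : ∀ j, Algebra (Par a b w) (B j))
      (S : Sys ℂ (Par a b w) (pullback.fst s s ≫ s) (exf a b w) (Zf U) (Trf a b w) B),
      LocallyOfFiniteType (pullback.fst s s ≫ s) ∧ CompactSpace ↑(pullback s s) ∧
        ∀ σ, Nice {z | S.In σ z} (dimS (Zf U) q σ) := by
  obtain ⟨_, L, _, _, t, x, y, ⟨h1, h2, h3⟩, J, h4, h5, h6, h7⟩ := h
  obtain ⟨𝒜⟩ := exists_atl (ne_zero_of h1 h3) h3 J h6 h7 C h1 h2 h5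
  have := 𝒜.lft
  have := 𝒜.sys.compact
  refine ⟨_, _, _, 𝒜.sys, inferInstance, this, ?_⟩
  generalize 𝒜.sys = S
  let _ := fun j : Bool → Fin n => ((algebraMap (Par a b w) (TensorProduct (Par a b w)
    (chart (Par a b w) a b w t x y (cc (j false))) (chart (Par a b w) a b w t x y
      (cc (j true))))).comp (algebraMap ℂ _)).toAlgebra
  have := fun j : Bool → Fin n => IsScalarTower.of_algebraMap_eq (R := ℂ) (S := Par a b w)
    (A := TensorProduct (Par a b w) (chart (Par a b w) a b w t x y (cc (j false)))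
      (chart (Par a b w) a b w t x y (cc (j true)))) fun _ => rfl
  exact S.nice D hle

/-- The seven generating strata. -/
def gens (n : ℕ) [NeZero n] : Finset ((Bool → Fin n) × Fin 4) :=
  {(fun b => cond b 3 0, 0), (fun b => cond b 0 3, 0), (fun b => cond b 2 1, 0),
    (fun b => cond b 1 2, 0), (fun _ => 1, 1), (fun _ => 2, 0), (fun _ => 0, 3)}

theorem rank_four {U : Bool} (C : Cfg a b w 4 U)
    (D : Comb (exf a b w) (Zf U) fun j : Fin 4 => !(U && 2 ≤ j)) (h : IsGeneric a b w s) :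
    Module.rank ℚ (CH2 (pullback s s)) ≤ 7 := by
  obtain ⟨B, _, _, S, _, _, hN⟩ := exists_sys C D (by cases U <;> decide) h
  refine (S.rank_le hN (by cases U <;> decide) (gens 4) (by cases U <;> decide +kernel)
    fun V _ _ σ z h0 _ h1 h2 h3 => absurd h1 ?_).trans_eq (by
      rw [show (gens 4).card = 7 by decide +kernel]; rfl)
  clear h0 h1
  revert σ
  cases U <;> decide +kernel

theorem rank_five (C : Cfg a b 1 5 false) (D : Comb (exf a b 1) (Zf false) fun _ : Fin 5 => true)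
    {s : X ⟶ Spec (CommRingCat.of (Par a b 1))} (h : IsGeneric a b 1 s)
    (hab : (a = 1 ∧ b = 1) ∨ (a = 0 ∧ b = 0)) : Module.rank ℚ (CH2 (pullback s s)) ≤ 7 := by
  obtain ⟨B, _, _, S, _, _, hN⟩ := exists_sys C D (by decide) h
  refine (S.rank_le hN (by decide) (gens 5) (by decide +kernel)
    fun V hV hG σ z h0 hz h1 h2 h3 => ?_).trans_eq (by
      rw [show (gens 5).card = 7 by decide +kernel]; rfl)
  have low : ∀ z, Order.height z = 2 → (∀ b, S.cell z b ≠ 0) ∨ (∃ b, S.cell z b = 3) →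
      Good V z := fun z a1 a2 => by
    obtain ⟨x, hx⟩ := S.exists_in z
    have a3 := (hN _).le z hx
    rw [a1] at a3
    refine hG _ ((by decide +kernel : ∀ σ : (Bool → Fin 5) × Fin 4,
      (∀ b, σ.1 b ≠ 0) ∨ (∃ b, σ.1 b = 3) → 2 ≤ dimS (Zf false) (fun _ => true) σ → σ ∈ gens 5)
      _ a2 (by exact_mod_cast a3)) z hx a1
  obtain ⟨β, b1, b2⟩ := (by decide +kernel : ∀ σ : (Bool → Fin 5) × Fin 4,
    dimS (Zf false) (fun _ => true) σ = 2 → σ ∉ insert (fun _ => 0, 2) (gens 5) →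
      ∃ β, σ.1 β = 4 ∧ σ.1 (!β) = 0) σ h1 fun e => (Finset.mem_insert.1 e).elim h3 h2
  rw [← h0.cell] at b1 b2
  rcases hab with ⟨rfl, rfl⟩ | ⟨rfl, rfl⟩
  · exact S.rel_one hV hN low β (l := 1) (by decide)
      (fun j P c1 _ c2 c3 _ => (no_one S P.asIdeal c1 c2 c3).elim) b1 b2 hz
  · exact S.rel_one hV hN low β (l := 2) (by decide)
      (fun j P c1 c2 c3 c4 c5 => rel_two S hV hN low c1 c2 c3 c4 c5) b1 b2 hz

theorem rank_le_seven
    (h : (a, b, w) ∈ [(4, 6, 2), (0, 2, 2), (1, 3, 2), (0, 1, 1), (0, 0, 1), (1, 1, 1)])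
    (hs : IsGeneric a b w s) : Module.rank ℚ (CH2 (pullback s s)) ≤ 7 := by
  simp only [List.mem_cons, Prod.mk.injEq, List.not_mem_nil, or_false] at h
  rcases h with ⟨rfl, rfl, rfl⟩ | ⟨rfl, rfl, rfl⟩ | ⟨rfl, rfl, rfl⟩ | ⟨rfl, rfl, rfl⟩ |
    ⟨rfl, rfl, rfl⟩ | ⟨rfl, rfl, rfl⟩
  · refine rank_four (U := true) ⟨?_, ?_, ?_, ?_, ?_⟩ ⟨?_, ?_, ?_⟩ hs <;> decide +kernel
  · refine rank_four (U := false) ⟨?_, ?_, ?_, ?_, ?_⟩ ⟨?_, ?_, ?_⟩ hs <;> decide +kernel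
  · refine rank_four (U := false) ⟨?_, ?_, ?_, ?_, ?_⟩ ⟨?_, ?_, ?_⟩ hs <;> decide +kernel
  · refine rank_four (U := false) ⟨?_, ?_, ?_, ?_, ?_⟩ ⟨?_, ?_, ?_⟩ hs <;> decide +kernel
  · refine rank_five ⟨?_, ?_, ?_, ?_, ?_⟩ ⟨?_, ?_, ?_⟩ hs (by simp) <;> decide +kernel
  · refine rank_five ⟨?_, ?_, ?_, ?_, ?_⟩ ⟨?_, ?_, ?_⟩ hs (by simp) <;> decide +kernel

end Pool.Agent.MP_b834b3_ag
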