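import Pool.Agent.MP_b834b3_ag.Defs

/-! The dimension of the Chow group. -/

namespace Pool.Agent.MP_b834b3_ag

open AlgebraicGeometry

/-- The dimension over `ℚ` of the Chow group of cycles of dimension two. -/
noncomputable def rankCH2 (Y : Scheme.{0}) : Cardinal := Module.rank ℚ (CH2 Y)

end Pool.Agent.MP_b834b3_ag
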